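import Pool.Agent.KNH.Defs

/-!
# KNH/BxM: the charts `bx b`, `thn w₀`   (difficulty 2)

`Rr`: `‖Rr z‖ = 3 ‖z‖ / √(8 + ‖z‖²) < 3`; smooth (`8 + ‖z‖² > 0`, `contDiff_norm_sq`); it has the smooth left inverse
`w ↦ (√8 / √(9 - ‖w‖²)) w` on the disc `‖w‖ < 3` : if `w = Rr z` then `9 - ‖w‖² = 72 / (8 + ‖z‖²)`; so `Rr` is injective and its
derivative is injective (chain rule at every point).  `Rr z = ±1` iff `z = ±1` : injective and `Rr (±1) = ±1`.
`hr`: `hr u ^ 2 = 36 u² / (1 + 48 u²)`, strictly increasing in `u²`, `< 3/4`; `= 9/16` at `u = 1/4`, `= 9/28 > 1/4` at `u = 1/8`;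
left inverse `s ↦ s / √(36 - 48 s²)`; `hr (1/16) = (3/8) / √(19/16) > 1/16`, `hr (-1/8) ≤ -1/2`; `hr_gs` : `gs (hr u) = gs (2u) = 1` for
`u ≥ 1/16`, and `= 0` for `u ≤ -1/8`.
`bx_emb`: composition with `b` on `Dom` (`BalC`; the map `(z, u) ↦ (Rr z, hr u)` has injective derivative and values in `Dom`).
`thn_emb`: `thn w₀` is smooth, with smooth inverse `(z, u) ↦ (z / wf w₀ u, u)`, `wf w₀ u > 0`.
-/

open scoped Manifold ContDiff Topology
open Set Filter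
open Complex (I)
open Pool.Agent.CSG (stp)
open Pool.Agent.RSG (E4 S3 S4 ex cj pS3)
open Pool.Agent.RBM (ThickT TwinP OnT Box Bundle frc)
open Pool.Agent.PTH (SP ISP Act Carries)
open Pool.Agent.COR (Equi EquiB TwoStrands half)
open Pool.Agent.KNT (Dom BalC Tubes Str)
open Pool.Agent.CLG (io pol)

namespace Pool.Agent.KNH

theorem BxM_leftinv {E F : Type*} [NormedAddCommGroup E] [NormedSpace ℝ E] [NormedAddCommGroup F] [NormedSpace ℝ F]
    {f : E → F} {g : F → E} {q : E} (hf : DifferentiableAt ℝ f q) (hg : DifferentiableAt ℝ g (f q))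
    (h : ∀ x, g (f x) = x) : Function.Injective (fderiv ℝ f q) := by
  have h1 : HasFDerivAt (g ∘ f) ((fderiv ℝ g (f q)).comp (fderiv ℝ f q)) q :=
    hg.hasFDerivAt.comp q hf.hasFDerivAt
  have h2 : g ∘ f = id := by
    funext x
    exact h x
  rw [h2] at h1
  have h3 := h1.unique (hasFDerivAt_id q)
  intro a b hab
  have h4 : ∀ v, fderiv ℝ g (f q) (fderiv ℝ f q v) = v := by
    intro v
    have := congrArg (fun L : E →L[ℝ] E => L v) h3
    simpa using this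
  rw [← h4 a, ← h4 b, hab]

theorem BxM_d8 (z : ℂ) : 0 < 8 + ‖z‖ ^ 2 := by positivity

theorem BxM_s8 (z : ℂ) : 0 < Real.sqrt (8 + ‖z‖ ^ 2) := Real.sqrt_pos.2 (BxM_d8 z)

theorem BxM_norm (z : ℂ) : ‖Rr z‖ = 3 / Real.sqrt (8 + ‖z‖ ^ 2) * ‖z‖ := by
  unfold Rr
  rw [norm_mul, Complex.norm_real, Real.norm_of_nonneg (by have := BxM_s8 z; positivity)]

theorem BxM_normsq (z : ℂ) : ‖Rr z‖ ^ 2 = 9 * ‖z‖ ^ 2 / (8 + ‖z‖ ^ 2) := by
  rw [BxM_norm, mul_pow, div_pow, Real.sq_sqrt (BxM_d8 z).le]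
  ring

theorem BxM_nine (z : ℂ) : 9 - ‖Rr z‖ ^ 2 = 72 / (8 + ‖z‖ ^ 2) := by
  rw [BxM_normsq]
  have := BxM_d8 z
  field_simp
  ring

/-- left inverse of `Rr` -/
noncomputable def BxM_Li (w : ℂ) : ℂ := ((Real.sqrt 8 / Real.sqrt (9 - ‖w‖ ^ 2) : ℝ) : ℂ) * w

theorem BxM_Li_Rr (z : ℂ) : BxM_Li (Rr z) = z := by
  have h8 := BxM_s8 z
  unfold BxM_Li
  rw [BxM_nine]
  have e : Real.sqrt 8 / Real.sqrt (72 / (8 + ‖z‖ ^ 2)) = Real.sqrt (8 + ‖z‖ ^ 2) / 3 := by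
    rw [Real.sqrt_div' _ (BxM_d8 z).le]
    have h72 : Real.sqrt 72 = 3 * Real.sqrt 8 := by
      rw [show (72 : ℝ) = 3 ^ 2 * 8 by norm_num, Real.sqrt_mul (by norm_num), Real.sqrt_sq (by norm_num)]
    rw [h72]
    have h88 : 0 < Real.sqrt 8 := Real.sqrt_pos.2 (by norm_num)
    field_simp
  rw [e]
  unfold Rr
  rw [← mul_assoc, ← Complex.ofReal_mul]
  have e2 : Real.sqrt (8 + ‖z‖ ^ 2) / 3 * (3 / Real.sqrt (8 + ‖z‖ ^ 2)) = 1 := by
    field_simp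
  rw [e2]
  simp

theorem BxM_Rr_smooth : ContDiff ℝ ∞ Rr := by
  unfold Rr
  apply ContDiff.mul _ contDiff_id
  apply Complex.ofRealCLM.contDiff.comp
  apply ContDiff.div contDiff_const
  · apply ContDiff.sqrt
    · exact contDiff_const.add (contDiff_norm_sq ℝ)
    · intro x
      exact (BxM_d8 x).ne'
  · intro x
    exact (BxM_s8 x).ne'

theorem BxM_Li_diff {w : ℂ} (hw : ‖w‖ < 3) : DifferentiableAt ℝ BxM_Li w := by
  unfold BxM_Li
  have h9 : 0 < 9 - ‖w‖ ^ 2 := by nlinarith [norm_nonneg w]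
  have h10 : DifferentiableAt ℝ (fun w : ℂ => Real.sqrt 8 / Real.sqrt (9 - ‖w‖ ^ 2)) w := by
    have h11 : DifferentiableAt ℝ (fun w : ℂ => Real.sqrt (9 - ‖w‖ ^ 2)) w := by
      apply DifferentiableAt.sqrt
      · exact (differentiableAt_const _).sub ((contDiff_norm_sq ℝ (n := 1)).differentiable one_ne_zero).differentiableAt
      · exact h9.ne'
    simp only [div_eq_mul_inv]
    exact (h11.inv (Real.sqrt_pos.2 h9).ne').const_mul _
  apply DifferentiableAt.mul _ differentiableAt_id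
  exact Complex.ofRealCLM.differentiableAt.comp w h10

theorem BxM_hd (u : ℝ) : 0 < 1 + 48 * u ^ 2 := by positivity

theorem BxM_hs (u : ℝ) : 0 < Real.sqrt (1 + 48 * u ^ 2) := Real.sqrt_pos.2 (BxM_hd u)

theorem BxM_hsq (u : ℝ) : hr u ^ 2 = 36 * u ^ 2 / (1 + 48 * u ^ 2) := by
  unfold hr
  rw [div_pow, Real.sq_sqrt (BxM_hd u).le]
  ring

theorem BxM_h36 (u : ℝ) : 36 - 48 * hr u ^ 2 = 36 / (1 + 48 * u ^ 2) := by
  rw [BxM_hsq]
  have := BxM_hd u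
  field_simp
  ring

/-- left inverse of `hr` -/
noncomputable def BxM_Lh (s : ℝ) : ℝ := s / Real.sqrt (36 - 48 * s ^ 2)

theorem BxM_Lh_hr (u : ℝ) : BxM_Lh (hr u) = u := by
  unfold BxM_Lh
  rw [BxM_h36, Real.sqrt_div' _ (BxM_hd u).le]
  have h6 : Real.sqrt 36 = 6 := by
    rw [show (36 : ℝ) = 6 ^ 2 by norm_num, Real.sqrt_sq (by norm_num)]
  rw [h6]
  unfold hr
  have := BxM_hs u
  field_simp

theorem BxM_Lh_diff {s : ℝ} (hs : 0 < 36 - 48 * s ^ 2) : DifferentiableAt ℝ BxM_Lh s := by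
  unfold BxM_Lh
  apply DifferentiableAt.fun_div differentiableAt_id
  · apply DifferentiableAt.sqrt
    · fun_prop
    · exact hs.ne'
  · exact (Real.sqrt_pos.2 hs).ne'

theorem Rr_lt (z : ℂ) : ‖Rr z‖ < 3 := by
  have h1 : 0 < 9 - ‖Rr z‖ ^ 2 := by
    rw [BxM_nine]
    have := BxM_d8 z
    positivity
  nlinarith [norm_nonneg (Rr z)]

theorem Rr_inj : Function.Injective Rr := by
  intro a b hab
  rw [← BxM_Li_Rr a, ← BxM_Li_Rr b, hab]

theorem Rr_of_norm {z : ℂ} (hz : ‖z‖ = 1) : Rr z = z := by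
  unfold Rr
  rw [hz]
  have h9 : Real.sqrt (8 + 1 ^ 2) = 3 := by
    rw [show (8 + 1 ^ 2 : ℝ) = 3 ^ 2 by norm_num, Real.sqrt_sq (by norm_num)]
  rw [h9]
  norm_num

theorem hr_inj : Function.Injective hr := by
  intro a b hab
  rw [← BxM_Lh_hr a, ← BxM_Lh_hr b, hab]

theorem hr_lt (u : ℝ) : |hr u| < 7 / 8 := by
  have h1 : 0 < 36 - 48 * hr u ^ 2 := by
    rw [BxM_h36]
    have := BxM_hd u
    positivity
  rw [abs_lt]
  constructor <;> nlinarith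

theorem hr_lt_iff (u v : ℝ) : |hr u| < |hr v| ↔ |u| < |v| := by
  rw [← sq_lt_sq, ← sq_lt_sq, BxM_hsq, BxM_hsq, div_lt_div_iff₀ (BxM_hd u) (BxM_hd v)]
  constructor <;> intro h <;> nlinarith

theorem hr_quarter {u : ℝ} : 3 / 4 ≤ |hr u| ↔ 1 / 4 ≤ |u| := by
  have h1 : (3 / 4 : ℝ) = |(3 / 4 : ℝ)| := by rw [abs_of_pos (by norm_num)]
  have h2 : (1 / 4 : ℝ) = |(1 / 4 : ℝ)| := by rw [abs_of_pos (by norm_num)]
  rw [h1, h2, ← sq_le_sq, ← sq_le_sq, BxM_hsq, le_div_iff₀ (BxM_hd u)]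
  constructor <;> intro h <;> nlinarith

theorem hr_eighth {u : ℝ} (hu : 1 / 8 ≤ |u|) : 1 / 2 ≤ |hr u| := by
  have h1 : (1 / 2 : ℝ) = |(1 / 2 : ℝ)| := by rw [abs_of_pos (by norm_num)]
  have h2 : (1 / 8 : ℝ) = |(1 / 8 : ℝ)| := by rw [abs_of_pos (by norm_num)]
  rw [h2, ← sq_le_sq] at hu
  rw [h1, ← sq_le_sq, BxM_hsq, le_div_iff₀ (BxM_hd u)]
  nlinarith

/-- every `s` with `|s| ≤ 3/4` is `hr u` with `|u| ≤ 1/4` -/
theorem hr_surj {s : ℝ} (hs : |s| ≤ 3 / 4) : ∃ u, |u| ≤ 1 / 4 ∧ hr u = s := by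
  have h2 : (3 / 4 : ℝ) = |(3 / 4 : ℝ)| := by rw [abs_of_pos (by norm_num)]
  have hs2 : s ^ 2 ≤ (3 / 4) ^ 2 := by
    rw [h2, ← sq_le_sq] at hs
    exact hs
  have hd : 0 < 36 - 48 * s ^ 2 := by nlinarith
  have hq := Real.sqrt_pos.2 hd
  have hq2 := Real.sq_sqrt hd.le
  refine ⟨BxM_Lh s, ?_, ?_⟩
  · have h3 : (1 / 4 : ℝ) = |(1 / 4 : ℝ)| := by rw [abs_of_pos (by norm_num)]
    rw [h3, ← sq_le_sq]
    unfold BxM_Lh
    rw [div_pow, hq2, div_le_iff₀ hd]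
    nlinarith
  · have e : 1 + 48 * (BxM_Lh s) ^ 2 = 36 / (36 - 48 * s ^ 2) := by
      unfold BxM_Lh
      rw [div_pow, hq2]
      field_simp
      ring
    have h6 : Real.sqrt 36 = 6 := by
      rw [show (36 : ℝ) = 6 ^ 2 by norm_num, Real.sqrt_sq (by norm_num)]
    unfold hr
    rw [e, Real.sqrt_div' _ hd.le, h6]
    have h7 : Real.sqrt (36 - 48 * s ^ 2) ≠ 0 := hq.ne'
    have h8 : BxM_Lh s * Real.sqrt (36 - 48 * s ^ 2) = s := by
      unfold BxM_Lh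
      exact div_mul_cancel₀ _ h7
    rw [div_div_eq_mul_div, mul_assoc, h8]
    ring

theorem hr_smooth : ContDiff ℝ ∞ hr := by
  unfold hr
  apply ContDiff.div
  · fun_prop
  · apply ContDiff.sqrt
    · fun_prop
    · intro x
      exact (BxM_hd x).ne'
  · intro x
    exact (BxM_hs x).ne'

theorem hr_gs_one {u : ℝ} (hu : 1 / 16 ≤ u) : RBM.gs (hr u) = 1 ∧ RBM.gs (2 * u) = 1 := by
  refine ⟨CSG.stp_one (by norm_num) ?_, CSG.stp_one (by norm_num) (by linarith)⟩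
  unfold hr
  rw [le_div_iff₀ (BxM_hs u)]
  have h1 : Real.sqrt (1 + 48 * u ^ 2) ≤ 96 * u := by
    rw [Real.sqrt_le_left (by linarith)]
    nlinarith
  linarith

theorem hr_gs_zero {u : ℝ} (hu : u ≤ -(1 / 8)) : RBM.gs (hr u) = 0 ∧ RBM.gs (2 * u) = 0 := by
  refine ⟨CSG.stp_zero (by norm_num) ?_, CSG.stp_zero (by norm_num) (by linarith)⟩
  have h1 := hr_eighth (u := u) (by rw [le_abs]; right; linarith)
  have h2 : hr u ≤ 0 := by
    unfold hr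
    apply div_nonpos_of_nonpos_of_nonneg (by linarith) (BxM_hs u).le
  rw [abs_of_nonpos h2] at h1
  linarith

theorem bx_dom (q : ℂ × ℝ) : (Rr q.1, hr q.2) ∈ Dom := by
  refine ⟨?_, ?_⟩
  · have := Rr_lt q.1
    change ‖Rr q.1‖ < 4
    linarith
  · have := hr_lt q.2
    change |hr q.2| < 1
    linarith

/-- the map `(z, u) ↦ (Rr z, hr u)` -/
theorem rh_smooth : ContDiff ℝ ∞ fun q : ℂ × ℝ => (Rr q.1, hr q.2) := by
  exact (BxM_Rr_smooth.comp contDiff_fst).prodMk (hr_smooth.comp contDiff_snd)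

theorem rh_imm (q : ℂ × ℝ) : Function.Injective (fderiv ℝ (fun q : ℂ × ℝ => (Rr q.1, hr q.2)) q) := by
  have h1 : 0 < 36 - 48 * hr q.2 ^ 2 := by
    rw [BxM_h36]
    have := BxM_hd q.2
    positivity
  apply BxM_leftinv (g := fun p : ℂ × ℝ => (BxM_Li p.1, BxM_Lh p.2))
  · exact (rh_smooth.differentiable (by simp)).differentiableAt
  · apply DifferentiableAt.prodMk
    · exact DifferentiableAt.comp (g := BxM_Li) (f := Prod.fst) _ (BxM_Li_diff (Rr_lt q.1)) differentiableAt_fst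
    · exact DifferentiableAt.comp (g := BxM_Lh) (f := Prod.snd) _ (BxM_Lh_diff h1) differentiableAt_snd
  · intro x
    exact Prod.ext (BxM_Li_Rr x.1) (BxM_Lh_hr x.2)

theorem bx_emb {b : ℂ × ℝ → ℂ × ℝ} (hb : BalC b) : Emb (bx b) := by
  have hbx : bx b = b ∘ fun q : ℂ × ℝ => (Rr q.1, hr q.2) := rfl
  refine ⟨?_, ?_, ?_⟩
  · rw [contDiff_iff_contDiffAt]
    intro q
    rw [hbx]
    exact (hb.smooth _ (bx_dom q)).comp q rh_smooth.contDiffAt
  · intro q q' h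
    have h1 := hb.inj (bx_dom q) (bx_dom q') h
    simp only [Prod.mk.injEq] at h1
    exact Prod.ext (Rr_inj h1.1) (hr_inj h1.2)
  · intro q
    rw [hbx]
    have h1 : HasFDerivAt (b ∘ fun q : ℂ × ℝ => (Rr q.1, hr q.2)) ((fderiv ℝ b (Rr q.1, hr q.2)).comp
        (fderiv ℝ (fun q : ℂ × ℝ => (Rr q.1, hr q.2)) q)) q :=
      HasFDerivAt.comp q (((hb.smooth _ (bx_dom q)).differentiableAt (by simp)).hasFDerivAt)
        (rh_smooth.differentiable (by simp)).differentiableAt.hasFDerivAt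
    rw [h1.fderiv]
    exact (hb.imm _ (bx_dom q)).comp (rh_imm q)

theorem wf_pos {w₀ : ℝ} (h0 : 0 < w₀) (h1 : w₀ ≤ 1) (u : ℝ) : 0 < wf w₀ u := by
  unfold wf
  have h2 := CSG.stp_nonneg (1 / 64) (1 / 16) (u ^ 2)
  nlinarith [mul_nonneg (sub_nonneg.2 h1) h2]

theorem wf_le {w₀ : ℝ} (h1 : w₀ ≤ 1) (u : ℝ) : wf w₀ u ≤ 1 := by
  unfold wf
  have h2 := CSG.stp_le_one (1 / 64) (1 / 16) (u ^ 2)
  nlinarith [mul_nonneg (sub_nonneg.2 h1) (sub_nonneg.2 h2)]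

theorem wf_mid {w₀ u : ℝ} (hu : |u| ≤ 1 / 8) : wf w₀ u = w₀ := by
  unfold wf
  have h2 : (1 / 8 : ℝ) = |(1 / 8 : ℝ)| := by rw [abs_of_pos (by norm_num)]
  rw [h2, ← sq_le_sq] at hu
  rw [CSG.stp_zero (by norm_num) (by linarith)]
  ring

theorem wf_end {w₀ u : ℝ} (hu : 1 / 4 ≤ |u|) : wf w₀ u = 1 := by
  unfold wf
  have h2 : (1 / 4 : ℝ) = |(1 / 4 : ℝ)| := by rw [abs_of_pos (by norm_num)]
  rw [h2, ← sq_le_sq] at hu
  rw [CSG.stp_one (by norm_num) (by linarith)]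
  ring

theorem thn_smooth (w₀ : ℝ) : ContDiff ℝ ∞ (thn w₀) := by
  unfold thn wf
  apply ContDiff.prodMk _ contDiff_snd
  apply ContDiff.mul _ contDiff_fst
  apply Complex.ofRealCLM.contDiff.comp
  apply contDiff_const.add
  apply contDiff_const.mul
  exact (CSG.stp_smooth _ _).comp (contDiff_snd.pow 2)

theorem thn_inj {w₀ : ℝ} (h0 : 0 < w₀) (h1 : w₀ ≤ 1) : Function.Injective (thn w₀) := by
  intro q q' h
  unfold thn at h
  simp only [Prod.mk.injEq] at h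
  obtain ⟨h3, h4⟩ := h
  rw [h4] at h3
  have h5 : ((wf w₀ q'.2 : ℝ) : ℂ) ≠ 0 := by
    exact_mod_cast (wf_pos h0 h1 q'.2).ne'
  exact Prod.ext (mul_left_cancel₀ h5 h3) h4

theorem thn_emb {β : ℂ × ℝ → ℂ × ℝ} (hβ : Emb β) {w₀ : ℝ} (h0 : 0 < w₀) (h1 : w₀ ≤ 1) :
    Emb fun q => β (thn w₀ q) := by
  refine ⟨hβ.smooth.comp (thn_smooth w₀), hβ.inj.comp (thn_inj h0 h1), ?_⟩
  intro q
  have h2 : HasFDerivAt (fun q => β (thn w₀ q)) ((fderiv ℝ β (thn w₀ q)).comp (fderiv ℝ (thn w₀) q)) q :=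
    HasFDerivAt.comp q ((hβ.smooth.differentiable (by simp)).differentiableAt.hasFDerivAt)
      ((thn_smooth w₀).differentiable (by simp)).differentiableAt.hasFDerivAt
  rw [h2.fderiv]
  refine (hβ.imm _).comp ?_
  apply BxM_leftinv (g := fun p : ℂ × ℝ => ((((wf w₀ p.2)⁻¹ : ℝ) : ℂ) * p.1, p.2))
  · exact ((thn_smooth w₀).differentiable (by simp)).differentiableAt
  · apply DifferentiableAt.prodMk _ differentiableAt_snd
    apply DifferentiableAt.mul _ differentiableAt_fst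
    apply Complex.ofRealCLM.differentiableAt.comp
    apply DifferentiableAt.inv
    · have h6 : ContDiff ℝ ∞ fun p : ℂ × ℝ => wf w₀ p.2 := by
        unfold wf
        apply contDiff_const.add
        apply contDiff_const.mul
        exact (CSG.stp_smooth _ _).comp (contDiff_snd.pow 2)
      exact (h6.differentiable (by simp)).differentiableAt
    · exact (wf_pos h0 h1 _).ne'
  · intro x
    refine Prod.ext ?_ rfl
    unfold thn
    simp only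
    rw [← mul_assoc, ← Complex.ofReal_mul, inv_mul_cancel₀ (wf_pos h0 h1 _).ne']
    simp

end Pool.Agent.KNH
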