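import Pool.Agent.KNH.Defs

/-!
# KNH/CirM: the circle factor   (difficulty 2)

`circ_eq`: `Circle.exp` is injective modulo `2π` (`Circle.exp_eq_exp`, or via `Complex.exp_eq_exp_iff_exists_int`).
`circ_ld`: `Circle.exp` is smooth (`contMDiff_circleExp`); local diffeomorphism: e.g. local inverse by `Circle.arg` shifted, or
`isLocalDiffeomorphAt` from a smooth map with injective derivative: compose with the inclusion `Circle → ℂ`; there are similar lemmas
in PTH/TC.lean, CSP, MST (search for `Circle.exp`).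
`rot_act`: `zero, add, per, free` from `circ_add`, `circ_eq`; `smooth`: `(t, (x, z)) ↦ (x, z * circ t)`, `Circle` is a Lie group
(`ContMDiff.mul`), `circ` is smooth.
-/

open scoped Manifold ContDiff Topology
open Set Filter
open Complex (I)
open Pool.Agent.CSG (stp)
open Pool.Agent.RSG (E4 S3 S4 ex cj pS3)
open Pool.Agent.RBM (ThickT TwinP OnT Box Bundle frc)
open Pool.Agent.PTH (SP ISP Act Carries)
open Pool.Agent.COR (Equi EquiB TwoStrands half)
open Pool.Agent.KNT (Dom BalC Tubes Str)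
open Pool.Agent.CLG (io pol)

namespace Pool.Agent.KNH

theorem circ_add (s t : ℝ) : circ (s + t) = circ s * circ t := by
  unfold circ
  rw [mul_add, Circle.exp_add]

theorem circ_zero : circ 0 = 1 := by
  unfold circ
  rw [mul_zero, Circle.exp_zero]

theorem CirM_coe (t : ℝ) : ((circ t : Circle) : ℂ) = Complex.exp ((2 * Real.pi * t : ℝ) * I) := by
  unfold circ
  rw [Circle.coe_exp]

theorem circ_int (m : ℤ) : circ m = 1 := by
  apply Circle.ext
  rw [CirM_coe, Circle.coe_one, Complex.exp_eq_one_iff]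
  exact ⟨m, by push_cast; ring⟩

theorem circ_eq {s t : ℝ} : circ s = circ t ↔ ∃ m : ℤ, s = t + m := by
  constructor
  · intro h
    have h1 : ((circ s : Circle) : ℂ) = circ t := by rw [h]
    rw [CirM_coe, CirM_coe, Complex.exp_eq_exp_iff_exists_int] at h1
    obtain ⟨m, hm⟩ := h1
    refine ⟨m, ?_⟩
    have h2 := congrArg Complex.im hm
    have e1 : (((2 * Real.pi * s : ℝ) : ℂ) * I).im = 2 * Real.pi * s := by
      rw [Complex.im_ofReal_mul, Complex.I_im, mul_one]
    have e2 : (((2 * Real.pi * t : ℝ) : ℂ) * I + m * (2 * Real.pi * I)).im = 2 * Real.pi * (t + m) := by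
      have : ((2 * Real.pi * t : ℝ) : ℂ) * I + m * (2 * Real.pi * I) =
          ((2 * Real.pi * (t + m) : ℝ) : ℂ) * I := by push_cast; ring
      rw [this, Complex.im_ofReal_mul, Complex.I_im, mul_one]
    rw [e1, e2] at h2
    exact mul_left_cancel₀ (by positivity) h2
  · rintro ⟨m, rfl⟩
    rw [circ_add, circ_int, mul_one]

theorem CirM_arg (z : Circle) : circ (Complex.arg (z : ℂ) / (2 * Real.pi)) = z := by
  have e : 2 * Real.pi * (Complex.arg (z : ℂ) / (2 * Real.pi)) = Complex.arg (z : ℂ) := by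
    field_simp
  unfold circ
  rw [e]
  exact Circle.exp_arg z

theorem circ_surj (z : Circle) : ∃ t : ℝ, circ t = z := ⟨_, CirM_arg z⟩

theorem CirM_coe_smooth : ContMDiff (𝓡 1) 𝓘(ℝ, ℂ) ∞ (fun z : Circle => (z : ℂ)) := by
  have : Fact (Module.finrank ℝ ℂ = 1 + 1) := ⟨by rw [Complex.finrank_real_complex]⟩
  exact contMDiff_coe_sphere

theorem CirM_smooth : ContMDiff 𝓘(ℝ, ℝ) (𝓡 1) ∞ circ := by
  have h : ContMDiff 𝓘(ℝ, ℝ) 𝓘(ℝ, ℝ) ∞ (fun t : ℝ => 2 * Real.pi * t) :=
    (contDiff_const.mul contDiff_id).contMDiff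
  exact contMDiff_circleExp.comp h

/-- local inverse of `circ` at `t` -/
noncomputable def CirM_g (t : ℝ) (z : Circle) : ℝ :=
  t + (Complex.log ((z : ℂ) * ((circ t)⁻¹ : Circle))).im / (2 * Real.pi)

theorem circ_ld (t : ℝ) : IsLocalDiffeomorphAt 𝓘(ℝ, ℝ) (𝓡 1) ∞ circ t := by
  have hc : Continuous fun z : Circle => (z : ℂ) * ((circ t)⁻¹ : Circle) :=
    CirM_coe_smooth.continuous.mul continuous_const
  have hslit : ∀ᶠ z : Circle in 𝓝 (circ t), (z : ℂ) * ((circ t)⁻¹ : Circle) ∈ Complex.slitPlane := by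
    refine hc.continuousAt.eventually (Complex.isOpen_slitPlane.mem_nhds ?_)
    change ((circ t : Circle) : ℂ) * ((circ t)⁻¹ : Circle) ∈ Complex.slitPlane
    rw [← Circle.coe_mul, mul_inv_cancel, Circle.coe_one]
    exact Complex.one_mem_slitPlane
  refine Pool.Agent.RSG.ld_two (g := CirM_g t) (Eventually.of_forall fun y => CirM_smooth y) ?_ ?_ ?_
  · filter_upwards [hslit] with z hz
    have h1 : ContDiffAt ℝ ∞ (fun w : ℂ => t + (Complex.log (w * ((circ t)⁻¹ : Circle))).im / (2 * Real.pi)) (z : ℂ) := by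
      have h2 : ContDiffAt ℝ ∞ (fun w : ℂ => w * ((circ t)⁻¹ : Circle)) (z : ℂ) :=
        contDiffAt_id.mul contDiffAt_const
      have h3 : ContDiffAt ℝ ∞ Complex.log ((z : ℂ) * ((circ t)⁻¹ : Circle)) :=
        (Complex.contDiffAt_log hz).restrict_scalars ℝ
      have h4 := h3.comp (z : ℂ) h2
      exact contDiffAt_const.add ((Complex.imCLM.contDiff.contDiffAt.comp (z : ℂ) h4).div_const _)
    exact h1.contMDiffAt.comp z (CirM_coe_smooth z)
  · have hn : ∀ᶠ s : ℝ in 𝓝 t, |s - t| < 1 / 2 := by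
      have : ContinuousAt (fun s : ℝ => |s - t|) t := by fun_prop
      refine this.eventually (gt_mem_nhds ?_)
      simp
    filter_upwards [hn] with s hs
    have e1 : ((circ s : Circle) : ℂ) * ((circ t)⁻¹ : Circle) = Complex.exp ((2 * Real.pi * (s - t) : ℝ) * I) := by
      rw [← CirM_coe, ← Circle.coe_mul]
      congr 1
      have : circ s = circ (s - t) * circ t := by rw [← circ_add, sub_add_cancel]
      rw [this, mul_inv_cancel_right]
    obtain ⟨h1, h2⟩ := abs_lt.mp hs
    have hpi := Real.pi_pos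
    have e2 : (((2 * Real.pi * (s - t) : ℝ) : ℂ) * I).im = 2 * Real.pi * (s - t) := by
      rw [Complex.im_ofReal_mul, Complex.I_im, mul_one]
    unfold CirM_g
    rw [e1, Complex.log_exp (by rw [e2]; nlinarith) (by rw [e2]; nlinarith), e2]
    field_simp
    ring
  · refine Eventually.of_forall fun z => ?_
    unfold CirM_g
    rw [circ_add, Complex.log_im, ← Circle.coe_mul, CirM_arg, mul_comm, inv_mul_cancel_right]

theorem rot_act : Act ISP rot := by
  refine ⟨?_, ?_, ?_, ?_, ?_⟩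
  · intro x
    unfold rot
    rw [circ_zero, mul_one]
  · intro s t x
    unfold rot
    rw [circ_add, mul_assoc, mul_comm (circ t)]
  · intro x
    have h := circ_int 1
    rw [Int.cast_one] at h
    unfold rot
    rw [h, mul_one]
  · intro t x h
    have h1 : x.2 * circ t = x.2 := congrArg Prod.snd h
    have h2 : circ t = circ 0 := by rw [circ_zero]; exact mul_eq_left.mp h1
    obtain ⟨m, hm⟩ := circ_eq.mp h2
    exact ⟨m, by rw [hm, zero_add]⟩
  · have h1 : ContMDiff ((𝓘(ℝ, ℝ)).prod ISP) (𝓡 3) ∞ fun q : ℝ × SP => q.2.1 :=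
      contMDiff_fst.comp contMDiff_snd
    have h2 : ContMDiff ((𝓘(ℝ, ℝ)).prod ISP) (𝓡 1) ∞ fun q : ℝ × SP => q.2.2 :=
      contMDiff_snd.comp contMDiff_snd
    have h3 : ContMDiff ((𝓘(ℝ, ℝ)).prod ISP) (𝓡 1) ∞ fun q : ℝ × SP => circ q.1 :=
      CirM_smooth.comp contMDiff_fst
    exact h1.prodMk (h2.mul h3)

end Pool.Agent.KNH
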