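import Pool.Agent.KNH.BxM

/-!
# KNH/FamM: from tubes to a family of charts   (difficulty 2)

`Rem`: the part of the strands which is not in the range of `bx`; there `|s| ≥ 3/4` by `hr_surj`.
`fam_bx`: `smooth`: composition of `hb.smooth` with `(l, q) ↦ (l, (Rr q.1, hr q.2))` (`rh_smooth`, `bx_dom`); `imm`: chain rule, `rh_imm`,
`hb.imm`; `ends`: `hr_eighth`; `inj0, inj1`: `Rr_inj, hr_inj`; `sep`: if `|hr q.2| ≤ 1/2` by `Sep` (`hr_quarter`); otherwise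
`b l = b 0` at the point `(Rr q.1, hr q.2)` and `b 0` is injective on `Dom`, `|hr q.2| < |hr q'.2|` by `hr_lt_iff`; `dis`: for `Z` by `hZ`;
for a point `b 0 q'`, `q' ∈ Rem`: `|q'.2| ≥ 3/4` and `q'.2 ≠ hr q.2`: if `|hr q.2| ≤ 1/2` by `Sep`, otherwise by `ends` and injectivity.
`str_eq`: `(Rr z, hr u)` with `(z, u) ∈ Ss` is `(±1, hr u) ∈ Str` (`Rr_of_norm`, `hr_lt`), and a point of `Str` is of this form or in `Rem`.
`rem_eq`: `b 1 = b 0` on `Rem`.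
-/

open scoped Manifold ContDiff Topology
open Set Filter
open Complex (I)
open Pool.Agent.CSG (stp)
open Pool.Agent.RSG (E4 S3 S4 ex cj pS3)
open Pool.Agent.RBM (ThickT TwinP OnT Box Bundle frc)
open Pool.Agent.PTH (SP ISP Act Carries)
open Pool.Agent.COR (Equi EquiB TwoStrands half)
open Pool.Agent.KNT (Dom BalC Tubes Str)
open Pool.Agent.CLG (io pol)

namespace Pool.Agent.KNH

/-- the part of the strands which is not covered by `bx` -/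
def Rem : Set (ℂ × ℝ) := {q | q ∈ Str ∧ ∀ u, hr u ≠ q.2}

theorem FamM_rem_abs {q : ℂ × ℝ} (hq : q ∈ Rem) : 3 / 4 ≤ |q.2| := by
  by_contra h
  push Not at h
  obtain ⟨u, -, hu⟩ := hr_surj h.le
  exact hq.2 u hu

theorem FamM_str_dom {q : ℂ × ℝ} (hq : q ∈ Str) : q ∈ Dom := by
  refine ⟨?_, hq.2⟩
  rcases hq.1 with h | h <;> rw [h] <;> norm_num

theorem FamM_rem_dom {q : ℂ × ℝ} (hq : q ∈ Rem) : q ∈ Dom := FamM_str_dom hq.1

theorem FamM_inj {b : ℂ × ℝ → ℂ × ℝ} (hb : InjOn b Dom) : Function.Injective (bx b) := by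
  intro q q' h
  have h1 := hb (bx_dom q) (bx_dom q') h
  rw [Prod.mk.injEq] at h1
  exact Prod.ext (Rr_inj h1.1) (hr_inj h1.2)

theorem FamM_ball {b : ℂ × ℝ → ℂ × ℝ} (hb : InjOn b Dom) {Z : Set (ℂ × ℝ)} (hZ : Disjoint Z (b '' Dom)) (q : ℂ × ℝ) :
    bx b q ∉ Z ∪ b '' Rem := by
  rintro (h | ⟨q', hq', h⟩)
  · exact Set.disjoint_left.1 hZ h ⟨_, bx_dom q, rfl⟩
  · have h1 := hb (FamM_rem_dom hq') (bx_dom q) h
    apply hq'.2 q.2
    rw [h1]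

theorem FamM_imm {b : ℂ × ℝ → ℂ × ℝ} {q : ℂ × ℝ} (hs : ContDiffAt ℝ ∞ b (Rr q.1, hr q.2))
    (hi : Function.Injective (fderiv ℝ b (Rr q.1, hr q.2))) : Function.Injective (fderiv ℝ (bx b) q) := by
  have h1 : fderiv ℝ (bx b) q = (fderiv ℝ b (Rr q.1, hr q.2)).comp
      (fderiv ℝ (fun q : ℂ × ℝ => (Rr q.1, hr q.2)) q) := by
    have := fderiv_comp (𝕜 := ℝ) (g := b) (f := fun q : ℂ × ℝ => (Rr q.1, hr q.2)) q
      (hs.differentiableAt (by simp)) (rh_smooth.contDiffAt.differentiableAt (by simp))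
    exact this
  rw [h1]
  exact hi.comp (rh_imm q)

theorem fam_bx {b : ℝ → ℂ × ℝ → ℂ × ℝ} (hb : Tubes b) (hs : Sep b) {Z : Set (ℂ × ℝ)}
    (hZ : ∀ l ∈ Icc (0 : ℝ) 1, Disjoint Z (b l '' Dom)) : Fam (fun l => bx (b l)) (Z ∪ b 0 '' Rem) := by
  have hsl : ∀ l ∈ Icc (0 : ℝ) 1, ∀ q ∈ Dom, ContDiffAt ℝ ∞ (b l) q := by
    intro l hl q hq
    have h1 : ContDiffAt ℝ ∞ (fun q : ℂ × ℝ => (l, q)) q := by fun_prop
    exact ContDiffAt.comp q (f := fun q : ℂ × ℝ => (l, q)) (hb.smooth l hl q hq) h1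
  refine ⟨?_, ?_, ?_, FamM_inj hb.inj0, FamM_inj hb.inj1, ?_, ?_⟩
  · intro l hl q
    have h1 : ContDiffAt ℝ ∞ (fun p : ℝ × (ℂ × ℝ) => (p.1, (Rr p.2.1, hr p.2.2))) (l, q) := by
      apply ContDiffAt.prodMk contDiffAt_fst
      exact (rh_smooth.contDiffAt (x := q)).comp (l, q) (f := fun p : ℝ × (ℂ × ℝ) => p.2) contDiffAt_snd
    exact ContDiffAt.comp (l, q) (f := fun p : ℝ × (ℂ × ℝ) => (p.1, (Rr p.2.1, hr p.2.2)))
      (hb.smooth l hl _ (bx_dom q)) h1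
  · intro l hl q
    exact FamM_imm (hsl l hl _ (bx_dom q)) (hb.imm l hl _ (bx_dom q))
  · intro l hl q hq
    exact hb.ends l hl _ (bx_dom q) (hr_eighth hq)
  · intro l hl q q' hq hq' h
    by_cases hh : |hr q.2| ≤ 1 / 2
    · exact hs l hl _ (bx_dom q) hh _ (bx_dom q') (hr_quarter.2 hq') h
    · push Not at hh
      have h1 := hb.ends l hl _ (bx_dom q) hh.le
      have h2 := hb.inj0 (bx_dom q) (bx_dom q') (h1.symm.trans h)
      rw [Prod.mk.injEq] at h2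
      have h3 := hr_inj h2.2
      rw [h3] at hq
      linarith
  · rintro l hl q (h | ⟨q', hq', h⟩)
    · exact Set.disjoint_left.1 (hZ l hl) h ⟨_, bx_dom q, rfl⟩
    · by_cases hh : |hr q.2| ≤ 1 / 2
      · exact hs l hl _ (bx_dom q) hh _ (FamM_rem_dom hq') (FamM_rem_abs hq') h.symm
      · push Not at hh
        have h1 := hb.ends l hl _ (bx_dom q) hh.le
        have h2 := hb.inj0 (FamM_rem_dom hq') (bx_dom q) (h.trans h1)
        apply hq'.2 q.2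
        rw [h2]

theorem str_eq (Z : Set (ℂ × ℝ)) (b : ℂ × ℝ → ℂ × ℝ) : Z ∪ b '' Str = (Z ∪ b '' Rem) ∪ bx b '' Ss := by
  have hR : ∀ z : ℂ, z = 1 ∨ z = -1 → Rr z = z := by
    intro z hz
    apply Rr_of_norm
    rcases hz with h | h <;> rw [h] <;> norm_num
  ext x
  constructor
  · rintro (h | ⟨q, hq, rfl⟩)
    · exact Or.inl (Or.inl h)
    · by_cases h : q ∈ Rem
      · exact Or.inl (Or.inr ⟨q, h, rfl⟩)
      · have h1 : ∃ u, hr u = q.2 := by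
          by_contra hc
          push Not at hc
          exact h ⟨hq, hc⟩
        obtain ⟨u, hu⟩ := h1
        refine Or.inr ⟨(q.1, u), hq.1, ?_⟩
        show b (Rr q.1, hr u) = b q
        rw [hR _ hq.1, hu]
  · rintro ((h | ⟨q, hq, rfl⟩) | ⟨q, hq, rfl⟩)
    · exact Or.inl h
    · exact Or.inr ⟨q, hq.1, rfl⟩
    · refine Or.inr ⟨(Rr q.1, hr q.2), ⟨?_, ?_⟩, rfl⟩
      · show Rr q.1 = 1 ∨ Rr q.1 = -1
        rw [hR _ hq]
        exact hq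
      · have := hr_lt q.2
        show |hr q.2| < 1
        linarith

theorem rem_eq {b : ℝ → ℂ × ℝ → ℂ × ℝ} (hb : Tubes b) : b 1 '' Rem = b 0 '' Rem := by
  apply Set.image_congr
  intro q hq
  apply hb.ends 1 (by norm_num) q (FamM_rem_dom hq)
  have := FamM_rem_abs hq
  linarith

/-- for one chart -/
theorem bx_dis {b : ℂ × ℝ → ℂ × ℝ} (hb : BalC b) {Z : Set (ℂ × ℝ)} (hZ : Disjoint Z (b '' Dom)) (q : ℂ × ℝ) :
    bx b q ∉ Z ∪ b '' Rem := FamM_ball hb.inj hZ q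

theorem FamM_sm {β : ℝ → ℂ × ℝ → ℂ × ℝ} {Y : Set (ℂ × ℝ)} (h : Fam β Y) {l : ℝ} (hl : l ∈ Icc (0 : ℝ) 1) :
    ContDiff ℝ ∞ (β l) := by
  rw [contDiff_iff_contDiffAt]
  intro q
  have h1 : ContDiffAt ℝ ∞ (fun q : ℂ × ℝ => (l, q)) q := by fun_prop
  exact ContDiffAt.comp q (f := fun q : ℂ × ℝ => (l, q)) (h.smooth l hl q) h1

theorem fam_emb0 {β : ℝ → ℂ × ℝ → ℂ × ℝ} {Y : Set (ℂ × ℝ)} (h : Fam β Y) : Emb (β 0) :=
  ⟨FamM_sm h (by norm_num), h.inj0, h.imm 0 (by norm_num)⟩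

theorem fam_emb1 {β : ℝ → ℂ × ℝ → ℂ × ℝ} {Y : Set (ℂ × ℝ)} (h : Fam β Y) : Emb (β 1) :=
  ⟨FamM_sm h (by norm_num), h.inj1, h.imm 1 (by norm_num)⟩

end Pool.Agent.KNH
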