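import Pool.Agent.KNH.Defs
import Pool.Agent.CLG.IOb

/-!
# KNH/IoM: the stereographic projection (from squad CLG of helper95)
-/

open scoped Manifold ContDiff Topology
open Set Filter
open Complex (I)
open Pool.Agent.RSG (E4 S3 S4 ex cj pS3)
open Pool.Agent.CLG (io pol)

namespace Pool.Agent.KNH

theorem io_ld (q : ℂ × ℝ) : IsLocalDiffeomorphAt 𝓘(ℝ, ℂ × ℝ) (𝓡 3) ∞ io q := CLG.io_ld q

theorem io_inj : Function.Injective io := CLG.io_inj

theorem io_ne_pol (q : ℂ × ℝ) : io q ≠ pol := CLG.io_ne q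

theorem io_surj {x : S3} (hx : x ≠ pol) : ∃ q, io q = x := ⟨_, CLG.io_oi hx⟩

theorem hat_axis : Hat KNT.U = range fun l : ℝ => pS3 0 (ex l) := by
  ext x
  constructor
  · rintro (rfl | ⟨⟨w, h⟩, hw, rfl⟩)
    · refine ⟨0, ?_⟩
      have := CLG.Un_int 0
      simpa [CLG.Un] using this
    · have hw : w = 0 := hw
      subst hw
      refine ⟨CLG.act h, ?_⟩
      have h1 := CLG.act_mem h
      have h2 : Real.sin (Real.pi * CLG.act h) ≠ 0 := by
        apply ne_of_gt
        apply Real.sin_pos_of_pos_of_lt_pi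
        · exact mul_pos Real.pi_pos h1.1
        · have := mul_lt_mul_of_pos_left h1.2 Real.pi_pos
          linarith
      have h3 := CLG.io_ct h2
      rw [CLG.ct_act] at h3
      exact h3.symm
  · rintro ⟨l, rfl⟩
    by_cases hl : Real.sin (Real.pi * l) ≠ 0
    · right
      exact ⟨(0, CLG.ct l), rfl, CLG.io_ct hl⟩
    · left
      rw [not_not] at hl
      have h1 : ∃ m : ℤ, l = m := by
        by_contra hc
        exact (CLG.sin_ne_iff l).2 hc hl
      obtain ⟨m, rfl⟩ := h1
      exact CLG.Un_int m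

end Pool.Agent.KNH
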