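import Pool.Agent.KNH.CirM
import Pool.Agent.KNH.IoM

/-!
# KNH/PbM: product boxes   (difficulty 2)

`pb β = (io × circ) ∘ (β × id)` after reassociation.  `emb_ld`: `CSG.ld_of_fderiv` (same dimension).  `pb_ld`: product of local
diffeomorphisms (`RSG.ld_prodMap` or the like, RSG/LDc), `io_ld`, `circ_ld`, reassociation `(z, s, t) ↦ ((z, s), t)` is a linear
equivalence.  `box`: `inj` from `io_inj`, `hβ.inj`, `circ_eq`.
`iot_ld`: the map `E × ℝ → SP`, `(x, t) ↦ (io x, circ t)`.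
-/

open scoped Manifold ContDiff Topology
open Set Filter
open Complex (I)
open Pool.Agent.CSG (stp)
open Pool.Agent.RSG (E4 S3 S4 ex cj pS3)
open Pool.Agent.RBM (ThickT TwinP OnT Box Bundle frc)
open Pool.Agent.PTH (SP ISP Act Carries)
open Pool.Agent.COR (Equi EquiB TwoStrands half)
open Pool.Agent.KNT (Dom BalC Tubes Str)
open Pool.Agent.CLG (io pol)

namespace Pool.Agent.KNH

theorem emb_ld {β : ℂ × ℝ → ℂ × ℝ} (hβ : Emb β) (q : ℂ × ℝ) :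
    IsLocalDiffeomorphAt 𝓘(ℝ, ℂ × ℝ) 𝓘(ℝ, ℂ × ℝ) ∞ β q := by
  refine CSG.ld_of_fderiv (Eventually.of_forall fun y => hβ.smooth.contDiffAt) rfl ?_
  intro v hv
  exact hβ.imm q (by rw [hv, map_zero])

theorem iot_ld (q : (ℂ × ℝ) × ℝ) :
    IsLocalDiffeomorphAt 𝓘(ℝ, (ℂ × ℝ) × ℝ) ISP ∞ (fun q : (ℂ × ℝ) × ℝ => ((io q.1, circ q.2) : SP)) q := by
  have h := RSG.ld_prodMap (io_ld q.1) (circ_ld q.2)
  rw [← modelWithCornersSelf_prod, chartedSpaceSelf_prod] at h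
  exact h

theorem iot_inj {q q' : (ℂ × ℝ) × ℝ} (h : ((io q.1, circ q.2) : SP) = (io q'.1, circ q'.2)) :
    q'.1 = q.1 ∧ ∃ m : ℤ, q'.2 = q.2 + m := by
  have h1 : io q.1 = io q'.1 := congrArg Prod.fst h
  have h2 : circ q.2 = circ q'.2 := congrArg Prod.snd h
  exact ⟨(io_inj h1).symm, circ_eq.1 h2.symm⟩

theorem pb_box {β : ℂ × ℝ → ℂ × ℝ} (hβ : Emb β) (r : ℝ) : Box ISP (pb β) r where
  per := by
    intro z s t
    have h1 : circ (t + 1) = circ t := by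
      have := circ_int 1
      rw [Int.cast_one] at this
      rw [circ_add, this, mul_one]
    change ((io (β (z, s)), circ (t + 1)) : SP) = (io (β (z, s)), circ t)
    rw [h1]
  loc := by
    intro z s t _ _
    have h1 : IsLocalDiffeomorphAt (𝓘(ℝ, ℂ × ℝ).prod 𝓘(ℝ, ℝ)) (𝓘(ℝ, ℂ × ℝ).prod 𝓘(ℝ, ℝ)) ∞
        (Prod.map β (id : ℝ → ℝ)) ((z, s), t) :=
      RSG.ld_prodMap (emb_ld hβ (z, s)) (CSG.ld_id t)
    have h2 : IsLocalDiffeomorphAt 𝓘(ℝ, ℂ × ℝ × ℝ) (𝓘(ℝ, ℂ × ℝ).prod 𝓘(ℝ, ℝ)) ∞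
        (fun q : ℂ × ℝ × ℝ => ((q.1, q.2.1), q.2.2)) (z, s, t) := by
      rw [← modelWithCornersSelf_prod, chartedSpaceSelf_prod]
      refine CSG.ld_of_perm (f := (Equiv.prodAssoc ℂ ℝ ℝ).symm) ?_ ?_ (z, s, t)
      · exact (contDiff_fst.prodMk contDiff_snd.fst).prodMk contDiff_snd.snd
      · exact contDiff_fst.fst.prodMk (contDiff_fst.snd.prodMk contDiff_snd)
    have h3 := IsLocalDiffeomorphAt.comp (hf := h2) (g := Prod.map β (id : ℝ → ℝ)) (hg := h1)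
    exact IsLocalDiffeomorphAt.comp (hf := h3) (g := fun q : (ℂ × ℝ) × ℝ => ((io q.1, circ q.2) : SP))
      (hg := RSG.ld_prodMap (io_ld _) (circ_ld _))
  inj := by
    intro z s t z' s' t' _ _ _ _ h
    have h1 := iot_inj (q := (β (z, s), t)) (q' := (β (z', s'), t')) h
    have h2 := hβ.inj h1.1
    have h3 := Prod.ext_iff.1 h2
    exact ⟨h3.1.symm, h3.2.symm, h1.2⟩

theorem pb_equiv (β : ℂ × ℝ → ℂ × ℝ) : EquiB rot (pb β) := by
  intro z s t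
  change ((io (β (z, s)), circ t) : SP) = (io (β (z, s)), circ 0 * circ t)
  rw [circ_zero, one_mul]

end Pool.Agent.KNH
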