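import Pool.Agent.KNH.SwM
import Pool.Agent.KNH.PbM
import Pool.Agent.KNH.FamM

/-!
# KNH/CorM: the core of the new thick torus   (difficulty 3)

Notation as in HomM; `κ' = swp b b' κ`.  (`Box ISP b 4`, `Box ISP b' 4` as in HomM.)  If `κ (l, v, t) = b (z, s, t')` is in the box then (`Equi`) `κ (l, v, 0) = b (z, s, t' - t)` (`rot`
acts on `pb` by translation of `t`, `circ_add`), so `κ' (l, v, t) = b' (z, s, t')`, `κ' (l, v, 0) = b' (z, s, t' - t)` by `swp_box`; if `κ (l, v, t)` is not in the box neither is `κ (l, v, 0)`: `Equi rot κ'`.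
Core: `κ (l, 0, 0) = (c (φ l), 1)`.  If it is in the box: `= b (z, s, t')`, `c (φ l) = io (B₀ (cj σ z, s/2))`, `circ t' = 1`, so `κ' (l, 0, 0) = (io (B₁ (cj σ z, s/2)), 1)`.  Otherwise `κ' = κ`.  So
`κ' (l, 0, 0) = (c' l, 1)`.
Range of `c'`: `φ` is onto (continuous, `φ (l + 1) = φ l + 1`), so `range c ∘ φ = range c = Hat (Y ∪ B₀ '' Ss)`.  A point `c (φ l) = io (B₀ q)` with `‖q.1‖ < 4`, `|q.2| < 1/2` (i.e. in the box) has
`q ∈ Ss` (`B₀ q ∉ Y` by `Fam.dis`, injectivity, `io_ne_pol`), and `c' l = io (B₁ q)`; conversely all `q ∈ Ss`, `|q.2| < 1/2` occur.  The other points are `pol`, `io y` with `y ∈ Y`, and `io (B₀ q)`,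
`q ∈ Ss`, `|q.2| ≥ 1/2`, where `B₀ q = B₁ q`.  So `range c' = Hat (Y ∪ B₁ '' Ss)`.
-/

open scoped Manifold ContDiff Topology
open Set Filter
open Complex (I)
open Pool.Agent.CSG (stp)
open Pool.Agent.RSG (E4 S3 S4 ex cj pS3)
open Pool.Agent.RBM (ThickT TwinP OnT Box Bundle frc)
open Pool.Agent.PTH (SP ISP Act Carries)
open Pool.Agent.COR (Equi EquiB TwoStrands half)
open Pool.Agent.KNT (Dom BalC Tubes Str)
open Pool.Agent.CLG (io pol)

namespace Pool.Agent.KNH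

/-- the coordinate change of `half` -/
noncomputable def CorM_lin (σ : ℝ) (q : ℂ × ℝ × ℝ) : ℂ × ℝ × ℝ := (cj σ q.1, q.2.1 / 2, q.2.2)

theorem CorM_lin_ld {σ : ℝ} (hσ : σ = 1 ∨ σ = -1) (q : ℂ × ℝ × ℝ) :
    IsLocalDiffeomorphAt 𝓘(ℝ, ℂ × ℝ × ℝ) 𝓘(ℝ, ℂ × ℝ × ℝ) ∞ (CorM_lin σ) q := by
  have h1 : ContDiff ℝ ∞ (CorM_lin σ) :=
    ((RSG.cj_smooth σ).comp contDiff_fst).prodMk
      (((contDiff_fst.comp contDiff_snd).div_const _).prodMk (contDiff_snd.comp contDiff_snd))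
  have h2 : ContDiff ℝ ∞ fun q : ℂ × ℝ × ℝ => ((cj σ q.1, 2 * q.2.1, q.2.2) : ℂ × ℝ × ℝ) :=
    ((RSG.cj_smooth σ).comp contDiff_fst).prodMk
      ((contDiff_const.mul (contDiff_fst.comp contDiff_snd)).prodMk (contDiff_snd.comp contDiff_snd))
  let F : Equiv.Perm (ℂ × ℝ × ℝ) :=
    { toFun := CorM_lin σ
      invFun := fun q => (cj σ q.1, 2 * q.2.1, q.2.2)
      left_inv := by
        intro q
        show ((cj σ (cj σ q.1), 2 * (q.2.1 / 2), q.2.2) : ℂ × ℝ × ℝ) = q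
        rw [RSG.cj_cj hσ, mul_div_cancel₀ _ (two_ne_zero)]
      right_inv := by
        intro q
        show ((cj σ (cj σ q.1), (2 * q.2.1) / 2, q.2.2) : ℂ × ℝ × ℝ) = q
        rw [RSG.cj_cj hσ, mul_div_cancel_left₀ _ (two_ne_zero)] }
  exact CSG.ld_of_perm (f := F) h1 h2 q

theorem CorM_box {b : ℂ × ℝ × ℝ → SP} {σ : ℝ} (hσ : σ = 1 ∨ σ = -1) (hb : Box ISP b 4) :
    Box ISP (half σ b) 4 := by
  constructor
  · intro z s t
    exact hb.per _ _ _
  · intro z s t hz hs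
    have h1 : IsLocalDiffeomorphAt 𝓘(ℝ, ℂ × ℝ × ℝ) ISP ∞ b (CorM_lin σ (z, s, t)) := by
      apply hb.loc
      · rw [RSG.cj_norm hσ]; exact hz
      · show |s / 2| < 1
        rw [abs_div, abs_two]
        linarith [abs_nonneg s]
    exact IsLocalDiffeomorphAt.comp (hf := CorM_lin_ld hσ (z, s, t)) (hg := h1) ..
  · intro z s t z' s' t' hz hs hz' hs' he
    have he : b (cj σ z, s / 2, t) = b (cj σ z', s' / 2, t') := he
    obtain ⟨h1, h2, h3⟩ := hb.inj _ _ _ _ _ _ (by rw [RSG.cj_norm hσ]; exact hz)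
      (by rw [abs_div, abs_two]; linarith [abs_nonneg s]) (by rw [RSG.cj_norm hσ]; exact hz')
      (by rw [abs_div, abs_two]; linarith [abs_nonneg s']) he
    refine ⟨?_, by linarith, h3⟩
    rw [← RSG.cj_cj hσ z, h1, RSG.cj_cj hσ]

theorem CorM_rot (B : ℂ × ℝ → ℂ × ℝ) (σ : ℝ) (z : ℂ) (s t u : ℝ) :
    half σ (pb B) (z, s, t + u) = rot u (half σ (pb B) (z, s, t)) := by
  show ((io (B (cj σ z, s / 2)), circ (t + u)) : SP) = (io (B (cj σ z, s / 2)), circ t * circ u)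
  rw [circ_add]

theorem CorM_rot_inj {u : ℝ} {p q : SP} (h : rot u p = rot u q) : p = q := by
  have h1 : (rot u p).1 = (rot u q).1 := by rw [h]
  have h2 : (rot u p).2 = (rot u q).2 := by rw [h]
  have h1 : p.1 = q.1 := h1
  have h2 : p.2 * circ u = q.2 * circ u := h2
  exact Prod.ext h1 (mul_right_cancel h2)

theorem CorM_surj {φ : ℝ → ℝ} (hφ : Continuous φ) (hφ1 : ∀ l, φ (l + 1) = φ l + 1) (u : ℝ) :
    ∃ l, φ l = u := by
  have h1 : ∀ n : ℤ, φ n = φ 0 + n := by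
    intro n
    induction n using Int.induction_on with
    | zero => simp
    | succ n ih =>
      push_cast at ih ⊢
      rw [hφ1, ih]
      ring
    | pred n ih =>
      have := hφ1 (-(n : ℝ) - 1)
      rw [sub_add_cancel] at this
      push_cast at ih ⊢
      linarith
  have h2 := Int.floor_le (u - φ 0)
  have h3 := Int.lt_floor_add_one (u - φ 0)
  have h4 := h1 ⌊u - φ 0⌋
  have h5 := hφ1 (⌊u - φ 0⌋ : ℝ)
  have h6 := intermediate_value_Icc (show (⌊u - φ 0⌋ : ℝ) ≤ ⌊u - φ 0⌋ + 1 by linarith)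
    hφ.continuousOn
  have h7 : u ∈ Icc (φ (⌊u - φ 0⌋ : ℝ)) (φ ((⌊u - φ 0⌋ : ℝ) + 1)) := ⟨by linarith, by linarith⟩
  obtain ⟨l, -, hl⟩ := h6 h7
  exact ⟨l, hl⟩

theorem core_swap {β : ℝ → ℂ × ℝ → ℂ × ℝ} {Y : Set (ℂ × ℝ)} (h : Fam β Y) {w₀ δ : ℝ} (hw : ThinOK β w₀ δ)
    {σ ε₁ ε₂ : ℝ} (hσ : σ = 1 ∨ σ = -1) {κ : ℝ × ℂ × ℝ → SP}
    (hb : Bundle ISP κ (half σ (pb fun q => β 0 (thn w₀ q))) ε₁ ε₂) (heq : Equi rot κ)
    {c : ℝ → S3} {φ : ℝ → ℝ} (hφ : Continuous φ) (hφ1 : ∀ l, φ (l + 1) = φ l + 1)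
    (hcore : ∀ l, κ (l, 0, 0) = (c (φ l), 1))
    (hc : range c = Hat (Y ∪ (fun q => β 0 (thn w₀ q)) '' Ss)) :
    Equi rot (swp (half σ (pb fun q => β 0 (thn w₀ q))) (half σ (pb fun q => β 1 (thn w₀ q))) κ) ∧
    ∃ c' : ℝ → S3, range c' = Hat (Y ∪ (fun q => β 1 (thn w₀ q)) '' Ss) ∧
      ∀ l, swp (half σ (pb fun q => β 0 (thn w₀ q))) (half σ (pb fun q => β 1 (thn w₀ q))) κ (l, 0, 0) =
        (c' l, 1) := by
  set B₀ : ℂ × ℝ → ℂ × ℝ := fun q => β 0 (thn w₀ q) with hB₀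
  set B₁ : ℂ × ℝ → ℂ × ℝ := fun q => β 1 (thn w₀ q) with hB₁
  have hE1 : Emb B₁ := thn_emb (fam_emb1 h) hw.w_pos hw.w_le
  have hi0 : Function.Injective B₀ := (thn_emb (fam_emb0 h) hw.w_pos hw.w_le).inj
  have hbox : Box ISP (half σ (pb B₀)) 4 := hb.box
  have hbox' : Box ISP (half σ (pb B₁)) 4 := CorM_box hσ (pb_box hE1 4)
  have hend : ∀ q : ℂ × ℝ, 1 / 8 ≤ |q.2| → B₁ q = B₀ q := fun q hq =>
    h.ends 1 ⟨zero_le_one, le_rfl⟩ (thn w₀ q) hq
  have hY0 : ∀ q, B₀ q ∉ Y := fun q => h.dis 0 ⟨le_rfl, zero_le_one⟩ _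
  -- the value in the box
  have hbv : ∀ (B : ℂ × ℝ → ℂ × ℝ) (z : ℂ) (s t : ℝ),
      half σ (pb B) (z, s, t) = (io (B (cj σ z, s / 2)), circ t) := fun _ _ _ _ => rfl
  have hin : ∀ q : ℂ × ℝ, ‖q.1‖ = 1 → |q.2| < 1 / 2 → ‖cj σ q.1‖ < 4 ∧ |2 * q.2| < 1 ∧
      ∀ B : ℂ × ℝ → ℂ × ℝ, half σ (pb B) (cj σ q.1, 2 * q.2, 0) = (io (B q), 1) := by
    intro q h1 h2
    refine ⟨by rw [RSG.cj_norm hσ, h1]; norm_num, by rw [abs_mul, abs_two]; linarith, fun B => ?_⟩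
    rw [hbv, RSG.cj_cj hσ, mul_div_cancel_left₀ _ (two_ne_zero' ℝ), circ_zero]
  have hSs : ∀ q ∈ Ss, ‖q.1‖ = 1 := by
    rintro q (h1 | h1) <;> rw [h1] <;> simp
  refine ⟨?_, ?_⟩
  · intro l v t
    by_cases hc1 : ∃ (z : ℂ) (s t' : ℝ), ‖z‖ < 4 ∧ |s| < 1 ∧ κ (l, v, 0) = half σ (pb B₀) (z, s, t')
    · obtain ⟨z, s, t', hz, hs, he⟩ := hc1
      have he2 : κ (l, v, t) = half σ (pb B₀) (z, s, t' + t) := by
        rw [heq l v t, he, CorM_rot]
      rw [swp_box hbox hbox' hz hs he, swp_box hbox hbox' hz hs he2, CorM_rot]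
    · have h0 : ∀ (z : ℂ) (s t' : ℝ), ‖z‖ < 4 → |s| < 1 → κ (l, v, 0) ≠ half σ (pb B₀) (z, s, t') :=
        fun z s t' hz hs he => hc1 ⟨z, s, t', hz, hs, he⟩
      have h1 : ∀ (z : ℂ) (s t' : ℝ), ‖z‖ < 4 → |s| < 1 → κ (l, v, t) ≠ half σ (pb B₀) (z, s, t') := by
        intro z s t' hz hs he
        apply h0 z s (t' - t) hz hs
        apply CorM_rot_inj (u := t)
        rw [← CorM_rot, sub_add_cancel, ← he, ← heq]
      rw [swp_out h0, swp_out h1]
      exact heq l v t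
  · have hcase : ∀ l, (∃ q : ℂ × ℝ, q ∈ Ss ∧ |q.2| < 1 / 2 ∧ c (φ l) = io (B₀ q) ∧
        swp (half σ (pb B₀)) (half σ (pb B₁)) κ (l, 0, 0) = (io (B₁ q), 1)) ∨
        ((∀ q ∈ Ss, |q.2| < 1 / 2 → c (φ l) ≠ io (B₀ q)) ∧
        swp (half σ (pb B₀)) (half σ (pb B₁)) κ (l, 0, 0) = (c (φ l), 1)) := by
      intro l
      by_cases hc1 : ∃ (z : ℂ) (s t' : ℝ), ‖z‖ < 4 ∧ |s| < 1 ∧ κ (l, 0, 0) = half σ (pb B₀) (z, s, t')
      · obtain ⟨z, s, t', hz, hs, he⟩ := hc1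
        left
        have he2 := he
        rw [hcore, hbv] at he2
        have e1 : c (φ l) = io (B₀ (cj σ z, s / 2)) := congrArg Prod.fst he2
        have e2 : 1 = circ t' := congrArg Prod.snd he2
        refine ⟨(cj σ z, s / 2), ?_, ?_, e1, ?_⟩
        · have h1 : c (φ l) ∈ Hat (Y ∪ B₀ '' Ss) := by rw [← hc]; exact mem_range_self _
          rw [e1] at h1
          rcases h1 with h1 | ⟨y, hy, h1⟩
          · exact absurd h1 (io_ne_pol _)
          · have h2 := io_inj h1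
            rcases hy with hy | ⟨q, hq, hy⟩
            · exact absurd (h2 ▸ hy) (hY0 _)
            · rw [← hy] at h2
              rw [← hi0 h2]
              exact hq
        · show |s / 2| < 1 / 2
          rw [abs_div, abs_two]
          linarith
        · rw [swp_box hbox hbox' hz hs he, hbv, ← e2]
      · right
        have h0 : ∀ (z : ℂ) (s t' : ℝ), ‖z‖ < 4 → |s| < 1 → κ (l, 0, 0) ≠ half σ (pb B₀) (z, s, t') :=
          fun z s t' hz hs he => hc1 ⟨z, s, t', hz, hs, he⟩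
        refine ⟨?_, ?_⟩
        · intro q hq hq2 he
          obtain ⟨a1, a2, a3⟩ := hin q (hSs q hq) hq2
          apply h0 (cj σ q.1) (2 * q.2) 0 a1 a2
          rw [a3, hcore, he]
        · rw [swp_out h0, hcore]
    refine ⟨fun l => (swp (half σ (pb B₀)) (half σ (pb B₁)) κ (l, 0, 0)).1, ?_, ?_⟩
    · apply Subset.antisymm
      · rintro _ ⟨l, rfl⟩
        show (swp (half σ (pb B₀)) (half σ (pb B₁)) κ (l, 0, 0)).1 ∈ _
        rcases hcase l with ⟨q, hq, -, -, e⟩ | ⟨hno, e⟩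
        · rw [e]
          exact Or.inr ⟨B₁ q, Or.inr ⟨q, hq, rfl⟩, rfl⟩
        · rw [e]
          show c (φ l) ∈ _
          have h1 : c (φ l) ∈ Hat (Y ∪ B₀ '' Ss) := by rw [← hc]; exact mem_range_self _
          rcases h1 with h1 | ⟨y, hy, h1⟩
          · rw [h1]; exact Or.inl rfl
          · rcases hy with hy | ⟨q, hq, hy⟩
            · exact Or.inr ⟨y, Or.inl hy, h1⟩
            · rw [← hy] at h1
              rcases lt_or_ge |q.2| (1 / 2) with h2 | h2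
              · exact absurd h1.symm (hno q hq h2)
              · rw [← h1, ← hend q (by linarith)]
                exact Or.inr ⟨B₁ q, Or.inr ⟨q, hq, rfl⟩, rfl⟩
      · intro x hx
        -- every point of the old knot is a value
        have hval : ∀ y ∈ Hat (Y ∪ B₀ '' Ss), ∃ l, c (φ l) = y := by
          intro y hy
          rw [← hc] at hy
          obtain ⟨u, rfl⟩ := hy
          obtain ⟨l, rfl⟩ := CorM_surj hφ hφ1 u
          exact ⟨l, rfl⟩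
        rcases hx with hx | ⟨y, hy, hx⟩
        · obtain ⟨l, hl⟩ := hval pol (Or.inl rfl)
          refine ⟨l, ?_⟩
          show (swp (half σ (pb B₀)) (half σ (pb B₁)) κ (l, 0, 0)).1 = x
          rcases hcase l with ⟨q, -, -, e, -⟩ | ⟨-, e⟩
          · rw [hl] at e
            exact absurd e.symm (io_ne_pol _)
          · rw [e, hx]; exact hl
        · rcases hy with hy | ⟨q, hq, hy⟩
          · obtain ⟨l, hl⟩ := hval (io y) (Or.inr ⟨y, Or.inl hy, rfl⟩)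
            refine ⟨l, ?_⟩
            show (swp (half σ (pb B₀)) (half σ (pb B₁)) κ (l, 0, 0)).1 = x
            rcases hcase l with ⟨q, -, -, e, -⟩ | ⟨-, e⟩
            · rw [hl] at e
              exact absurd (io_inj e ▸ hy) (hY0 q)
            · rw [e, ← hx]; exact hl
          · obtain ⟨l, hl⟩ := hval (io (B₀ q)) (Or.inr ⟨B₀ q, Or.inr ⟨q, hq, rfl⟩, rfl⟩)
            refine ⟨l, ?_⟩
            show (swp (half σ (pb B₀)) (half σ (pb B₁)) κ (l, 0, 0)).1 = x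
            rcases hcase l with ⟨q', -, -, e1, e⟩ | ⟨hno, e⟩
            · rw [hl] at e1
              rw [e, ← hx, ← hy, hi0 (io_inj e1)]
            · rw [e, ← hx, ← hy]
              show c (φ l) = io (B₁ q)
              rcases lt_or_ge |q.2| (1 / 2) with h2 | h2
              · exact absurd hl (hno q hq h2)
              · rw [hend q (by linarith)]
                exact hl
    · intro l
      show swp (half σ (pb B₀)) (half σ (pb B₁)) κ (l, 0, 0) =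
        ((swp (half σ (pb B₀)) (half σ (pb B₁)) κ (l, 0, 0)).1, 1)
      rcases hcase l with ⟨q, -, -, -, e⟩ | ⟨-, e⟩ <;> rw [e]

end Pool.Agent.KNH
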