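import Pool.Agent.COR.Defs
import Pool.Agent.COR.Rmc
import Pool.Agent.RBH.Main
import Pool.Agent.KNT.Defs
import Pool.Agent.ISO.Cod0
import Pool.Agent.CLG.LnD

/-!
# KNH/Defs: the 4-dimensional bridge, definitions

`SP = S3 × Circle`, `rot t (x, z) = (x, z circ t)`.  `CLG.io : ℂ × ℝ → S3` is the inverse of the stereographic projection from the
point `pol = (0, 1)`; the axis `w = 0` goes to the circle `a = 0` (without `pol`).
`IsX K X`: the closed knot `io '' K ∪ {pol}` carries the 4-manifold `X`.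
`Emb β`: `β` is a smooth embedding of `ℂ × ℝ` onto an open subset of `ℂ × ℝ`.
`bx b (z, u) = b (Rr z, hr u)`: chart defined on the whole of `ℂ × ℝ`, contained in the ball chart `b`.
`Fam β Y`: family of charts, fixed for `1/8 ≤ |u|`, disjoint from `Y`.
-/

open scoped Manifold ContDiff Topology
open Set Filter
open Complex (I)
open Pool.Agent.CSG (stp)
open Pool.Agent.RSG (E4 S3 S4 ex cj pS3)
open Pool.Agent.RBM (ThickT TwinP OnT Box Bundle frc)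
open Pool.Agent.PTH (SP ISP Act Carries)
open Pool.Agent.COR (Equi EquiB TwoStrands half)
open Pool.Agent.KNT (Dom BalC Tubes Str)
open Pool.Agent.CLG (io pol)

namespace Pool.Agent.KNH

/-- the point of the circle with angle `2πt` -/
noncomputable def circ (t : ℝ) : Circle := Circle.exp (2 * Real.pi * t)

/-- rotation of the circle factor -/
noncomputable def rot (t : ℝ) (p : SP) : SP := (p.1, p.2 * circ t)

/-- the closed knot -/
def Hat (K : Set (ℂ × ℝ)) : Set S3 := insert pol (io '' K)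

/-- the knot `K` carries `X` (framing, twist and roll are arbitrary) -/
def IsX (K : Set (ℂ × ℝ)) (X : Type*) [TopologicalSpace X] [ChartedSpace E4 X] : Prop :=
  ∃ (c : ℝ → S3) (n : ℤ), range c = Hat K ∧ Carries ISP rot n (fun l => (c l, 1)) X

/-- smooth open embeddings of `ℂ × ℝ` -/
structure Emb (β : ℂ × ℝ → ℂ × ℝ) : Prop where
  smooth : ContDiff ℝ ∞ β
  inj : Function.Injective β
  imm : ∀ q, Function.Injective (fderiv ℝ β q)

/-- diffeomorphism of the plane onto the disc of radius `3`, the identity on the unit circle -/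
noncomputable def Rr (z : ℂ) : ℂ := ((3 / Real.sqrt (8 + ‖z‖ ^ 2) : ℝ) : ℂ) * z

/-- diffeomorphism of the line onto the interval `|s| < √3/2`, `hr (1/4) = 3/4` -/
noncomputable def hr (u : ℝ) : ℝ := 6 * u / Real.sqrt (1 + 48 * u ^ 2)

/-- chart of the whole space in the ball chart `b` -/
noncomputable def bx (b : ℂ × ℝ → ℂ × ℝ) (q : ℂ × ℝ) : ℂ × ℝ := b (Rr q.1, hr q.2)

/-- `w₀` for `|u| ≤ 1/8`, `1` for `|u| ≥ 1/4` -/
noncomputable def wf (w₀ u : ℝ) : ℝ := w₀ + (1 - w₀) * stp (1 / 64) (1 / 16) (u ^ 2)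

/-- contraction in the middle -/
noncomputable def thn (w₀ : ℝ) (q : ℂ × ℝ) : ℂ × ℝ := ((wf w₀ q.2 : ℂ) * q.1, q.2)

/-- product box -/
noncomputable def pb (β : ℂ × ℝ → ℂ × ℝ) (q : ℂ × ℝ × ℝ) : SP := (io (β (q.1, q.2.1)), circ q.2.2)

/-- the two lines `z = ±1` -/
def Ss : Set (ℂ × ℝ) := {q | q.1 = 1 ∨ q.1 = -1}

/-- the two lines `z = ±1`, after two full turns for `-1/16 ≤ u ≤ 1/32` -/
def Ss2 : Set (ℂ × ℝ) := {q | q.1 = ex (2 * RBM.gs (2 * q.2)) ∨ q.1 = -ex (2 * RBM.gs (2 * q.2))}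

/-- the moving part of the family of tubes does not meet the ends -/
def Sep (b : ℝ → ℂ × ℝ → ℂ × ℝ) : Prop :=
  ∀ l ∈ Icc (0 : ℝ) 1, ∀ q ∈ Dom, |q.2| ≤ 1 / 2 → ∀ q' ∈ Dom, 3 / 4 ≤ |q'.2| → b l q ≠ b 0 q'

/-- a family of charts -/
structure Fam (β : ℝ → ℂ × ℝ → ℂ × ℝ) (Y : Set (ℂ × ℝ)) : Prop where
  smooth : ∀ l ∈ Icc (0 : ℝ) 1, ∀ q, ContDiffAt ℝ ∞ (fun p : ℝ × (ℂ × ℝ) => β p.1 p.2) (l, q)
  imm : ∀ l ∈ Icc (0 : ℝ) 1, ∀ q, Function.Injective (fderiv ℝ (β l) q)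
  ends : ∀ l ∈ Icc (0 : ℝ) 1, ∀ q, 1 / 8 ≤ |q.2| → β l q = β 0 q
  inj0 : Function.Injective (β 0)
  inj1 : Function.Injective (β 1)
  sep : ∀ l ∈ Icc (0 : ℝ) 1, ∀ q q', |q.2| ≤ 1 / 8 → 1 / 4 ≤ |q'.2| → β l q ≠ β 0 q'
  dis : ∀ l ∈ Icc (0 : ℝ) 1, ∀ q, β l q ∉ Y

/-- `w₀` and `δ` are small enough for the family `β` -/
structure ThinOK (β : ℝ → ℂ × ℝ → ℂ × ℝ) (w₀ δ : ℝ) : Prop where
  w_pos : 0 < w₀
  w_le : w₀ ≤ 1
  d_pos : 0 < δ
  d_le : δ ≤ 1 / 64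
  inj : ∀ l ∈ Icc (0 : ℝ) 1, ∀ q q' : ℂ × ℝ, ‖q.1‖ ≤ 4 → ‖q'.1‖ ≤ 4 → |q.2 - q'.2| ≤ 16 * δ →
    β l (thn w₀ q) = β l (thn w₀ q') → q = q'

section swap
variable {P : Type*}

open Classical in
/-- the thick torus `κ`, with the box `b` replaced by the box `b'` -/
noncomputable def swp (b b' : ℂ × ℝ × ℝ → P) (κ : ℝ × ℂ × ℝ → P) (q : ℝ × ℂ × ℝ) : P :=
  if h : ∃ a : ℂ × ℝ × ℝ, ‖a.1‖ < 4 ∧ |a.2.1| < 1 ∧ κ q = b a then b' h.choose else κ q

end swap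

end Pool.Agent.KNH
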