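import Pool.Agent.KNH.CirM
import Pool.Agent.RSG.Main

/-!
# KNH/DicM: dictionary between `RollGluck` and `TwinP` over `S3 × Circle`   (difficulty 2)

`prd κ (l, v, t) = (κ (l, v), circ t)`.  `TwinP → TwinData`: `A (x, t) = A_P (x, circ t)`, the same `Q`; `OnT (prd κ) (x, circ t)` iff `OnKnot κ x`
(`circ_surj`).  `A_loc`: `(x, t) ↦ (x, circ t)` is a local diffeomorphism (`RSG.ld_prodMap`, `circ_ld`).  `A_inj`: `circ_eq`.  `glue`: the casts
`a₁ = 1, b₁ = 1 - j, a₂ = 1, b₂ = -j` (`push_cast; ring` inside `ex`).  `TwinData → TwinP`: `A_P (x, z) = A (x, t)` with `circ t = z` (choice, `circ_surj`; independent of the choice by `A_per`, `GerM_per`);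
`A_loc`: `A = A_P ∘ (id × circ)`, `CSG.ld_of_comp_left`.
-/

open scoped Manifold ContDiff Topology
open Set Filter
open Complex (I)
open Pool.Agent.CSG (stp)
open Pool.Agent.RSG (E4 S3 S4 ex cj pS3)
open Pool.Agent.RBM (ThickT TwinP OnT Box Bundle frc)
open Pool.Agent.PTH (SP ISP Act Carries)
open Pool.Agent.COR (Equi EquiB TwoStrands half)
open Pool.Agent.KNT (Dom BalC Tubes Str)
open Pool.Agent.CLG (io pol)
open Pool.Agent.RSG (c1 c2 fh)

namespace Pool.Agent.KNH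

/-- the product thick torus -/
noncomputable def prd (κ : ℝ × ℂ → S3) (q : ℝ × ℂ × ℝ) : SP := (κ (q.1, q.2.1), circ q.2.2)

theorem DicM_per (t : ℝ) : circ (t + 1) = circ t := circ_eq.2 ⟨1, by push_cast; ring⟩

theorem DicM_on {κ : ℝ × ℂ → S3} {x : S3} {z : Circle} : OnT (prd κ) (x, z) ↔ RSG.OnKnot κ x := by
  constructor
  · rintro ⟨l, t, h⟩
    exact ⟨l, congrArg Prod.fst h⟩
  · rintro ⟨l, h⟩
    obtain ⟨t, ht⟩ := circ_surj z
    exact ⟨l, t, Prod.ext h ht.symm⟩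

theorem prd_thick {κ : ℝ × ℂ → S3} (h : RSG.Thick κ) : ThickT ISP (prd κ) := by
  refine ⟨?_, ?_, ?_, ?_⟩
  · intro l v t
    unfold prd
    rw [h.per]
  · intro l v t
    unfold prd
    rw [DicM_per]
  · intro l v t hv
    have h1 : IsLocalDiffeomorphAt (𝓘(ℝ, ℝ × ℂ).prod 𝓘(ℝ, ℝ)) ISP ∞
        (Prod.map κ circ) ((l, v), t) := RSG.ld_prodMap (h.loc l v hv) (circ_ld t)
    have h2 : IsLocalDiffeomorphAt 𝓘(ℝ, ℝ × ℂ × ℝ) (𝓘(ℝ, ℝ × ℂ).prod 𝓘(ℝ, ℝ)) ∞
        (fun q : ℝ × ℂ × ℝ => ((q.1, q.2.1), q.2.2)) (l, v, t) := by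
      rw [← modelWithCornersSelf_prod, chartedSpaceSelf_prod]
      refine CSG.ld_of_perm (f := (Equiv.prodAssoc ℝ ℂ ℝ).symm) ?_ ?_ (l, v, t)
      · exact (contDiff_fst.prodMk contDiff_snd.fst).prodMk contDiff_snd.snd
      · exact contDiff_fst.fst.prodMk (contDiff_fst.snd.prodMk contDiff_snd)
    exact IsLocalDiffeomorphAt.comp (hf := h2) (hg := h1) ..
  · intro l v t l' v' t' hv hv' he
    unfold prd at he
    simp only [Prod.mk.injEq] at he
    obtain ⟨h1, h2⟩ := h.inj _ _ _ _ hv hv' he.1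
    exact ⟨h1, h2, circ_eq.1 he.2.symm⟩

theorem prd_equi (κ : ℝ × ℂ → S3) : Equi rot (prd κ) := by
  intro l v t
  unfold prd rot
  simp only
  rw [circ_zero, one_mul]

theorem dic {κ : ℝ × ℂ → S3} {n j : ℤ} {X : Type*} [TopologicalSpace X] [ChartedSpace E4 X] :
    Nonempty (TwinP ISP (prd κ) n j X) ↔ RSG.IsRollGluck κ n j X := by
  constructor
  · rintro ⟨D⟩
    refine ⟨{ A := fun p => D.A (p.1, circ p.2), Q := D.Q, A_per := ?_, A_loc := ?_, A_inj := ?_, Q_loc := D.Q_loc,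
              Q_inj := D.Q_inj, glue := ?_, disj := ?_, cover := ?_ }⟩
    · intro x t
      simp only
      rw [DicM_per]
    · intro x t hx
      have h1 : IsLocalDiffeomorphAt ((𝓡 3).prod 𝓘(ℝ, ℝ)) ISP ∞ (Prod.map (id : S3 → S3) circ) (x, t) :=
        RSG.ld_prodMap (CSG.ld_id x) (circ_ld t)
      have h2 := D.A_loc (x, circ t) (fun h => hx (DicM_on.1 h))
      exact IsLocalDiffeomorphAt.comp (hf := h1) (hg := h2) ..
    · intro x x' t t' hx hx' h
      have h1 := D.A_inj _ _ (fun h => hx (DicM_on.1 h)) (fun h => hx' (DicM_on.1 h)) h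
      simp only [Prod.mk.injEq] at h1
      exact ⟨h1.1, circ_eq.1 h1.2.symm⟩
    · intro z l m t hf h1 h2 e1 e2 e3
      have e1' : c1 z = ‖c1 z‖ * ex (m + (1 - j) * t) := by
        rw [show (m + (1 - j) * t : ℝ) = ((1 : ℤ) : ℝ) * m + ((1 - j : ℤ) : ℝ) * t by push_cast; ring]
        exact e1
      have e2' : c2 z = ‖c2 z‖ * ex (m - j * t) := by
        rw [show (m - j * t : ℝ) = ((1 : ℤ) : ℝ) * m + ((-j : ℤ) : ℝ) * t by push_cast; ring]
        exact e2
      exact D.glue z l m t hf h1 h2 e1' e2' e3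
    · intro z x t hf h hx
      exact D.disj z _ hf h (fun h => hx (DicM_on.1 h))
    · intro q
      rcases D.cover q with ⟨⟨x, z⟩, hp, hq⟩ | h
      · obtain ⟨t, ht⟩ := circ_surj z
        refine Or.inl ⟨x, t, fun h => hp (DicM_on.2 h), ?_⟩
        rw [hq]
        simp only
        rw [ht]
      · exact Or.inr h
  · rintro ⟨D⟩
    choose τ hτ using circ_surj
    have key : ∀ x t, D.A (x, τ (circ t)) = D.A (x, t) := by
      intro x t
      obtain ⟨m, hm⟩ := circ_eq.1 (hτ (circ t))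
      rw [hm]
      exact RSG.GerM_per (f := fun s => D.A (x, s)) (fun s => D.A_per _ _) t m
    refine ⟨{ A := fun p => D.A (p.1, τ p.2), Q := D.Q, A_loc := ?_, A_inj := ?_, Q_loc := D.Q_loc,
              Q_inj := D.Q_inj, glue := ?_, disj := ?_, cover := ?_ }⟩
    · rintro ⟨x, z⟩ hp
      have hx : ¬ RSG.OnKnot κ x := fun h => hp (DicM_on.2 h)
      have h1 : IsLocalDiffeomorphAt ((𝓡 3).prod 𝓘(ℝ, ℝ)) ISP ∞ (Prod.map (id : S3 → S3) circ) (x, τ z) :=
        RSG.ld_prodMap (CSG.ld_id x) (circ_ld (τ z))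
      have h2 : IsLocalDiffeomorphAt ((𝓡 3).prod 𝓘(ℝ, ℝ)) (𝓡 4) ∞
          ((fun p : SP => D.A (p.1, τ p.2)) ∘ (Prod.map (id : S3 → S3) circ)) (x, τ z) := by
        have e : ((fun p : SP => D.A (p.1, τ p.2)) ∘ (Prod.map (id : S3 → S3) circ)) = D.A := by
          funext p
          exact key p.1 p.2
        rw [e]
        exact D.A_loc x (τ z) hx
      have h3 := CSG.ld_of_comp_left h2 h1
      have e3 : Prod.map (id : S3 → S3) circ (x, τ z) = (x, z) := Prod.ext rfl (hτ z)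
      rw [e3] at h3
      exact h3
    · rintro ⟨x, z⟩ ⟨x', z'⟩ hp hp' h
      have hx : ¬ RSG.OnKnot κ x := fun h => hp (DicM_on.2 h)
      have hx' : ¬ RSG.OnKnot κ x' := fun h => hp' (DicM_on.2 h)
      obtain ⟨h1, h2⟩ := D.A_inj _ _ _ _ hx hx' h
      have h3 : z' = z := by
        have h4 := circ_eq.2 h2
        rw [hτ, hτ] at h4
        exact h4
      exact Prod.ext h1 h3.symm
    · intro z l m t hf h1 h2 e1 e2 e3
      have e1' : c1 z = ‖c1 z‖ * ex (((1 : ℤ) : ℝ) * m + ((1 - j : ℤ) : ℝ) * t) := by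
        rw [show ((1 : ℤ) : ℝ) * m + ((1 - j : ℤ) : ℝ) * t = (m + (1 - j) * t : ℝ) by push_cast; ring]
        exact e1
      have e2' : c2 z = ‖c2 z‖ * ex (((1 : ℤ) : ℝ) * m + ((-j : ℤ) : ℝ) * t) := by
        rw [show ((1 : ℤ) : ℝ) * m + ((-j : ℤ) : ℝ) * t = (m - j * t : ℝ) by push_cast; ring]
        exact e2
      have h3 := D.glue z l m t hf h1 h2 e1' e2' e3
      rw [h3]
      exact (key _ t).symm
    · rintro z ⟨x, w⟩ hf h hp
      exact D.disj z x (τ w) hf h (fun h => hp (DicM_on.2 h))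
    · intro q
      rcases D.cover q with ⟨x, t, hx, hq⟩ | h
      · refine Or.inl ⟨(x, circ t), fun h => hx (DicM_on.1 h), ?_⟩
        rw [hq]
        exact (key x t).symm
      · exact Or.inr h

end Pool.Agent.KNH
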