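import Pool.Agent.KNH.Defs

/-!
# KNH/QDef: properties of thick tori which are monotone under the moves

`Mono Q`: if every 4-manifold carried by `κ` is carried by `κ'` (same `n`, `j`) then `Q κ` implies `Q κ'`.
`CarQ Q K`: the curve `K` of `SP` is the core of an equivariant thick torus with the property `Q`.
`IsQ Q K`: the same for the closed knot `io '' K ∪ {pol}`.
-/

open scoped Manifold ContDiff Topology
open Set Filter
open Pool.Agent.RSG (E4 S3 S4)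
open Pool.Agent.RBM (ThickT TwinP)
open Pool.Agent.PTH (SP ISP Act)
open Pool.Agent.COR (Equi)

namespace Pool.Agent.KNH

universe u

/-- monotone properties of thick tori -/
def Mono (Q : (ℝ × ℂ × ℝ → SP) → Prop) : Prop :=
  ∀ κ κ' : ℝ × ℂ × ℝ → SP, ThickT ISP κ → ThickT ISP κ' →
    (∀ (X : Type u) [TopologicalSpace X] [ChartedSpace E4 X] [T2Space X] (n j : ℤ),
      Nonempty (TwinP ISP κ n j X) → Nonempty (TwinP ISP κ' n j X)) → Q κ → Q κ'

/-- the curve `K` carries `Q` -/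
def CarQ (Q : (ℝ × ℂ × ℝ → SP) → Prop) (K : ℝ → SP) : Prop :=
  ∃ κ : ℝ × ℂ × ℝ → SP, ThickT ISP κ ∧ Equi rot κ ∧ (∀ l, κ (l, 0, 0) = K l) ∧ Q κ

/-- the knot `K` carries `Q` -/
def IsQ (Q : (ℝ × ℂ × ℝ → SP) → Prop) (K : Set (ℂ × ℝ)) : Prop :=
  ∃ c : ℝ → S3, range c = Hat K ∧ CarQ Q fun l => (c l, 1)

/-- being carried by some `n, j` -/
def QX (X : Type u) [TopologicalSpace X] [ChartedSpace E4 X] (κ : ℝ × ℂ × ℝ → SP) : Prop :=
  ∃ n j : ℤ, Nonempty (TwinP ISP κ n j X)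

theorem mono_QX (X : Type u) [TopologicalSpace X] [ChartedSpace E4 X] [T2Space X] : Mono.{u} (QX X) := by
  rintro κ κ' - - h ⟨n, j, hD⟩
  exact ⟨n, j, h X n j hD⟩

/-- carrying the 4-sphere for all `n, j` -/
def QS (κ : ℝ × ℂ × ℝ → SP) : Prop := ∀ n j : ℤ, Nonempty (TwinP ISP κ n j S4)

theorem mono_QS : Mono.{0} QS := by
  intro κ κ' _ _ h hQ n j
  exact h S4 n j (hQ n j)

theorem carQ_map {Q : (ℝ × ℂ × ℝ → SP) → Prop} (hQ : Mono.{u} Q) {K : ℝ → SP} (Γ : Equiv.Perm SP)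
    (h : ∀ p, IsLocalDiffeomorphAt ISP ISP ∞ Γ p) (hc : ∀ t p, Γ (rot t p) = rot t (Γ p))
    (hK : CarQ Q K) : CarQ Q fun l => Γ (K l) := by
  obtain ⟨κ, hT, he, hk, hκ⟩ := hK
  refine ⟨fun q => Γ (κ q), COR.ThickT_diffeo Γ h hT, ?_, ?_, ?_⟩
  · intro l v t
    show Γ (κ (l, v, t)) = rot t (Γ (κ (l, v, 0)))
    rw [he l v t, hc]
  · intro l
    show Γ (κ (l, 0, 0)) = Γ (K l)
    rw [hk]
  · refine hQ _ _ hT (COR.ThickT_diffeo Γ h hT) ?_ hκ
    rintro X _ _ _ n j ⟨D⟩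
    exact COR.TwinP_diffeo Γ h D

end Pool.Agent.KNH
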