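import Pool.Agent.KNH.PbM
import Pool.Agent.KNH.QDef
import Pool.Agent.CLG.LCe
import Pool.Agent.ISO.LiftA

/-!
# KNH/DifQ: `IsQ` is invariant under compactly supported diffeomorphisms   (difficulty 2)

`F` is `ISO.Move ⊥ univ` (from `CD univ`).  `CLG.LC_move` (squad CLG, import Pool.Agent.CLG.LCe) gives `Φ : S3 ≃ₘ S3`, `Φ pol = pol`, `Φ (io y) = io (F y)`.  `Γ (x, z) = (Φ x, z)` is a permutation of `SP`, local
diffeomorphism everywhere (product of local diffeomorphisms; or `Diffeomorph.prodCongr`), and commutes with `rot`.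
`ISO.carries_map` (ISO/LiftA) gives `Carries ISP rot n (fun l => Γ (c l, 1)) X`, `Γ (c l, 1) = (Φ (c l), 1)`; the range of `Φ ∘ c` is
`Φ '' Hat K = Hat (F '' K)`.
-/

open scoped Manifold ContDiff Topology
open Set Filter
open Complex (I)
open Pool.Agent.CSG (stp)
open Pool.Agent.RSG (E4 S3 S4 ex cj pS3)
open Pool.Agent.RBM (ThickT TwinP OnT Box Bundle frc)
open Pool.Agent.PTH (SP ISP Act Carries)
open Pool.Agent.COR (Equi EquiB TwoStrands half)
open Pool.Agent.KNT (Dom BalC Tubes Str)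
open Pool.Agent.CLG (io pol)

namespace Pool.Agent.KNH

universe u

theorem isQ_diff {Q : (ℝ × ℂ × ℝ → SP) → Prop} (hQ : Mono.{u} Q) {K : Set (ℂ × ℝ)} {F : Equiv.Perm (ℂ × ℝ)}
    (hF : KNT.CD univ F) (h : IsQ Q K) : IsQ Q (F '' K) := by
  have hM : ISO.Move ⊥ univ F := by
    refine ⟨hF.smooth, hF.smooth_symm, ?_, ?_⟩
    · intro m hm x
      rw [AddSubgroup.mem_bot] at hm
      subst hm
      simp
    · obtain ⟨C, hC, hCO, hs⟩ := hF.supp
      refine ⟨C, hC, hCO, fun x hx => hs x ?_⟩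
      have := hx 0 (AddSubgroup.zero_mem _)
      simpa using this
  obtain ⟨Φ, hp, hio, -⟩ := CLG.LC_move hM
  obtain ⟨c, hc, hX⟩ := h
  let Γ : SP ≃ₘ⟮ISP, ISP⟯ SP := Diffeomorph.prodCongr Φ (Diffeomorph.refl (𝓡 1) Circle ∞)
  have h1 := carQ_map hQ Γ.toEquiv (fun p => Γ.isLocalDiffeomorph p) (fun t p => rfl) hX
  refine ⟨fun l => Φ (c l), ?_, h1⟩
  have h2 : range (fun l => Φ (c l)) = Φ '' range c := by
    rw [← range_comp]; rfl
  rw [h2, hc]
  ext x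
  simp only [Hat, mem_image, mem_insert_iff]
  constructor
  · rintro ⟨y, (rfl | ⟨z, hz, rfl⟩), rfl⟩
    · left; exact hp
    · right; exact ⟨F z, ⟨z, hz, rfl⟩, (hio z).symm⟩
  · rintro (rfl | ⟨z, ⟨w, hw, rfl⟩, rfl⟩)
    · exact ⟨pol, Or.inl rfl, hp⟩
    · exact ⟨io w, Or.inr ⟨w, hw, rfl⟩, hio w⟩

end Pool.Agent.KNH
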