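import Pool.Agent.KNH.Defs
import Pool.Agent.CSG.GamAbs
import Pool.Agent.CSG.LDa
import Pool.Agent.CSG.LDb

/-!
# KNH/ExtM: extension of a move in a chart   (difficulty 2)

`Γ p = β (F x)` if `p = β x`, `x ∈ O` (choice), `Γ p = p` otherwise.  Well defined: `β x = β x'` gives `x' = x + m`, `F x' = F x + m`.
`F` maps `O` onto `O`: the support is `C + Λ ⊆ O` (`LiftA_moveW`, `LiftA_moveW'` in ISO/LiftA, or directly); so `F.symm` gives the
inverse.  Local diffeomorphism at `β x`, `x ∈ O`: `Γ ∘ β = β ∘ F` near `x`, use `CSG.ld_of_comp_left`, `CSG.ld_of_perm` for `F`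
(`ContDiff` with `ContDiff` inverse).  At the other points: `Γ = id` off `β '' (C + Λ)`; this set is closed: every point of it is
`β x` with `x ∈ C` (periodicity of `β` and of `O`), so it is `β '' C`, compact (`β` is continuous on `O`), and `P` is Hausdorff.
(The same proof as `ISO.exists_lift` in ISO/LiftA.lean.)
-/

open scoped Manifold ContDiff Topology
open Set Filter
open Complex (I)
open Pool.Agent.CSG (stp)
open Pool.Agent.RSG (E4 S3 S4 ex cj pS3)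
open Pool.Agent.RBM (ThickT TwinP OnT Box Bundle frc)
open Pool.Agent.PTH (SP ISP Act Carries)
open Pool.Agent.COR (Equi EquiB TwoStrands half)
open Pool.Agent.KNT (Dom BalC Tubes Str)
open Pool.Agent.CLG (io pol)

namespace Pool.Agent.KNH

theorem ExtM_symm {EP : Type*} [NormedAddCommGroup EP] [NormedSpace ℝ EP] {HP : Type*} [TopologicalSpace HP]
    {IP : ModelWithCorners ℝ EP HP} {P : Type*} [TopologicalSpace P] [ChartedSpace HP P]
    {F : Equiv.Perm P} (hF : ∀ p, IsLocalDiffeomorphAt IP IP ∞ F p) (p : P) :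
    IsLocalDiffeomorphAt IP IP ∞ F.symm p := by
  have h1 := CSG.ld_of_comp_left (I := IP) (J := IP) (K := IP) (n := ∞) (f := F) (g := F.symm)
    (x := F.symm p) ?_ (hF (F.symm p))
  · rw [Equiv.apply_symm_apply] at h1
    exact h1
  · have h2 : (F.symm ∘ F : P → P) = id := by
      funext x
      simp
    rw [h2]
    exact CSG.ld_id (F.symm p)

theorem ExtM_moveW {V : Type*} [NormedAddCommGroup V] [NormedSpace ℝ V] {Λ : AddSubgroup V} {W : Set V}
    (hW : ∀ x ∈ W, ∀ m ∈ Λ, x + m ∈ W) {F : Equiv.Perm V} (hF : ISO.Move Λ W F) :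
    ∀ x ∈ W, F x ∈ W := by
  obtain ⟨S, hS, hSW, hFS⟩ := hF.supp
  intro x hx
  by_cases h : ∀ m ∈ Λ, F x + m ∉ S
  · have h1 := hFS _ h
    have h2 : F x = x := F.injective h1
    rw [h2]
    exact hx
  · push Not at h
    obtain ⟨m, hm, h⟩ := h
    have := hW _ (hSW h) (-m) (Λ.neg_mem hm)
    simpa using this

theorem ExtM_moveW' {V : Type*} [NormedAddCommGroup V] [NormedSpace ℝ V] {Λ : AddSubgroup V} {W : Set V}
    (hW : ∀ x ∈ W, ∀ m ∈ Λ, x + m ∈ W) {F : Equiv.Perm V} (hF : ISO.Move Λ W F) :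
    ∀ x ∈ W, F.symm x ∈ W := by
  obtain ⟨S, hS, hSW, hFS⟩ := hF.supp
  intro x hx
  by_cases h : ∀ m ∈ Λ, F.symm x + m ∉ S
  · have h1 := hFS _ h
    rw [Equiv.apply_symm_apply] at h1
    rw [← h1]
    exact hx
  · push Not at h
    obtain ⟨m, hm, h⟩ := h
    have := hW _ (hSW h) (-m) (Λ.neg_mem hm)
    simpa using this

theorem ext_perm {V : Type*} [NormedAddCommGroup V] [NormedSpace ℝ V]
    {EP : Type*} [NormedAddCommGroup EP] [NormedSpace ℝ EP] {HP : Type*} [TopologicalSpace HP]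
    {IP : ModelWithCorners ℝ EP HP} {P : Type*} [TopologicalSpace P] [ChartedSpace HP P] [T2Space P]
    {Λ : AddSubgroup V} {β : V → P} {O : Set V} (hOo : IsOpen O) (hO : ∀ x ∈ O, ∀ m ∈ Λ, x + m ∈ O)
    (hper : ∀ x ∈ O, ∀ m ∈ Λ, β (x + m) = β x)
    (hld : ∀ x ∈ O, IsLocalDiffeomorphAt 𝓘(ℝ, V) IP ∞ β x)
    (hinj : ∀ x ∈ O, ∀ x' ∈ O, β x = β x' → ∃ m ∈ Λ, x' = x + m)
    {F : Equiv.Perm V} (hF : ISO.Move Λ O F) :
    ∃ Γ : Equiv.Perm P, (∀ p, IsLocalDiffeomorphAt IP IP ∞ Γ p) ∧ (∀ x ∈ O, Γ (β x) = β (F x)) ∧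
      ∀ p, p ∉ β '' O → Γ p = p := by
  obtain ⟨S, hS, hSO, hFS⟩ := hF.supp
  have hFO := ExtM_moveW hO hF
  have hFO' := ExtM_moveW' hO hF
  have hcomm' : ∀ m ∈ Λ, ∀ x, F.symm (x + m) = F.symm x + m := by
    intro m hm x
    apply F.injective
    rw [hF.comm m hm]
    simp
  have hCO : {x : V | ∃ m ∈ Λ, x + m ∈ S} ⊆ O := by
    rintro x ⟨m, hm, h⟩
    have := hO _ (hSO h) (-m) (Λ.neg_mem hm)
    simpa using this
  have hcl : IsClosed (β '' {x : V | ∃ m ∈ Λ, x + m ∈ S}) := by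
    have e : β '' {x : V | ∃ m ∈ Λ, x + m ∈ S} = β '' S := by
      apply Subset.antisymm
      · rintro _ ⟨x, ⟨m, hm, hx⟩, rfl⟩
        exact ⟨x + m, hx, hper x (hCO ⟨m, hm, hx⟩) m hm⟩
      · apply image_mono
        intro x hx
        exact ⟨0, Λ.zero_mem, by simpa using hx⟩
    rw [e]
    refine IsCompact.isClosed (IsCompact.image_of_continuousOn hS ?_)
    intro x hx
    exact (CSG.ld_continuousAt (hld x (hSO hx))).continuousWithinAt
  obtain ⟨Γ, g1, g2, g3, -⟩ := CSG.exists_gamma (J := IP) β O {x : V | ∃ m ∈ Λ, x + m ∈ S} ∅ F F.symm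
    hOo hld (fun z _ => by simp)
    (fun z _ => (Diffeomorph.isLocalDiffeomorph (I := 𝓘(ℝ, V)) (J := 𝓘(ℝ, V)) (n := ∞)
        ⟨F, hF.smooth.contMDiff, hF.smooth_symm.contMDiff⟩) z)
    (fun z _ => by simp) (fun z _ => by simp)
    (fun z hz => hFO z hz) (fun z hz => hFO' z hz)
    (fun z hz z' hz' he => by
      obtain ⟨m, hm, rfl⟩ := hinj z hz z' hz' he
      rw [hF.comm m hm, hper _ (hFO z hz) m hm])
    (fun z hz z' hz' he => by
      obtain ⟨m, hm, rfl⟩ := hinj z hz z' hz' he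
      rw [hcomm' m hm, hper _ (hFO' z hz) m hm])
    (fun z _ hzC => hFS z (fun m hm h => hzC ⟨m, hm, h⟩))
    (by rw [union_empty]; exact hcl) hCO
  exact ⟨Γ, fun p => g1 p (by simp), g2, g3⟩

/-- The same in `ℂ × ℝ`. -/
theorem exists_CD {β : ℂ × ℝ → ℂ × ℝ} (hβ : Emb β) {Ψ : Equiv.Perm (ℂ × ℝ)} (hΨ : ISO.Move ⊥ univ Ψ) :
    ∃ F : Equiv.Perm (ℂ × ℝ), KNT.CD univ F ∧ (∀ q, F (β q) = β (Ψ q)) ∧ ∀ x, x ∉ range β → F x = x := by
  have hld : ∀ x ∈ (univ : Set (ℂ × ℝ)), IsLocalDiffeomorphAt 𝓘(ℝ, ℂ × ℝ) 𝓘(ℝ, ℂ × ℝ) ∞ β x := by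
    intro q _
    refine CSG.ld_of_fderiv (Eventually.of_forall fun y => hβ.smooth.contDiffAt) rfl ?_
    intro v hv
    exact hβ.imm q (by rw [hv, map_zero])
  obtain ⟨Γ, g1, g2, g3⟩ := ext_perm (IP := 𝓘(ℝ, ℂ × ℝ)) (Λ := ⊥) (β := β) (O := univ) isOpen_univ
    (fun _ _ _ _ => trivial)
    (fun x _ m hm => by
      rw [AddSubgroup.mem_bot] at hm
      rw [hm, add_zero])
    hld
    (fun x _ x' _ h => ⟨0, AddSubgroup.zero_mem _, by rw [add_zero]; exact (hβ.inj h).symm⟩) hΨ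
  obtain ⟨S, hS, -, hΨS⟩ := hΨ.supp
  refine ⟨Γ, ⟨?_, ?_, β '' S, hS.image hβ.smooth.continuous, subset_univ _, ?_⟩, fun q => g2 q trivial,
    fun x hx => g3 x (by rwa [image_univ])⟩
  · rw [contDiff_iff_contDiffAt]
    intro x
    exact contMDiffAt_iff_contDiffAt.1 (g1 x).contMDiffAt
  · rw [contDiff_iff_contDiffAt]
    intro x
    exact contMDiffAt_iff_contDiffAt.1 (ExtM_symm g1 x).contMDiffAt
  · intro x hx
    by_cases h : x ∈ range β
    · obtain ⟨q, rfl⟩ := h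
      rw [g2 q trivial, hΨS q ?_]
      intro m hm hq
      rw [AddSubgroup.mem_bot] at hm
      rw [hm, add_zero] at hq
      exact hx ⟨q, hq, rfl⟩
    · exact g3 x (by rwa [image_univ])

end Pool.Agent.KNH
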