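import Pool.Agent.KNH.DifQ
import Pool.Agent.KNH.BxM
import Pool.Agent.KNH.ExtM

/-!
# KNH/ThnQ: thinning the two strands   (difficulty 3)

`ISO.cod0` with `V = E = ℂ × ℝ`, `Λ = Λ' = ⊥`, `O = W = univ`, `C = {±1} × [-1/4, 1/4]`, `e s (z, u) = ((1 - s + s * wf w₀ u) * z, u)` (for `s ∈ [0, 1]` the factor is positive: `wf_pos`): smooth in
`(s, z, u)`, derivative bijective (in every direction: block triangular; or `e s` has the smooth inverse `(z / factor, u)`), injective.  Result: `Ψ : Move ⊥ univ Ψ`,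
`Ψ (±1, u) = (±wf w₀ u, u)` for `|u| ≤ 1/4`; for `|u| > 1/4` the point `(±1, u)` is stationary (`wf w₀ u = 1`, `wf_end`: `e s (z, u) = (z, u)` for all `s`), so `Ψ` fixes it, and
`wf w₀ u = 1`.  So `Ψ q = thn w₀ q` for all `q ∈ Ss`.  `exists_CD` gives `F` with `F ∘ β = β ∘ Ψ`, `F = id` off `range β ⊇` complement of `Y`: `F '' (Y ∪ β '' Ss) = Y ∪ (β ∘ thn w₀) '' Ss`.
`isQ_diff` for `F`, and for `F.symm` (also `CD univ`) for the other direction.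
-/

open scoped Manifold ContDiff Topology
open Set Filter
open Complex (I)
open Pool.Agent.CSG (stp)
open Pool.Agent.RSG (E4 S3 S4 ex cj pS3)
open Pool.Agent.RBM (ThickT TwinP OnT Box Bundle frc)
open Pool.Agent.PTH (SP ISP Act Carries)
open Pool.Agent.COR (Equi EquiB TwoStrands half)
open Pool.Agent.KNT (Dom BalC Tubes Str)
open Pool.Agent.CLG (io pol)

namespace Pool.Agent.KNH

theorem CD_symm {F : Equiv.Perm (ℂ × ℝ)} (hF : KNT.CD univ F) : KNT.CD univ F.symm := by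
  obtain ⟨C, hC, hCu, hx⟩ := hF.supp
  refine ⟨hF.smooth_symm, ?_, C, hC, hCu, fun x h => ?_⟩
  · rw [Equiv.symm_symm]
    exact hF.smooth
  · rw [Equiv.symm_apply_eq]
    exact (hx x h).symm

universe u

theorem isQ_diff_iff {Q : (ℝ × ℂ × ℝ → SP) → Prop} (hQ : Mono.{u} Q) {K : Set (ℂ × ℝ)}
    {F : Equiv.Perm (ℂ × ℝ)} (hF : KNT.CD univ F) : IsQ Q K ↔ IsQ Q (F '' K) := by
  refine ⟨isQ_diff hQ hF, fun h => ?_⟩
  have h1 := isQ_diff hQ (CD_symm hF) h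
  rw [← Set.image_comp] at h1
  have h2 : (F.symm ∘ F : ℂ × ℝ → ℂ × ℝ) = id := by
    funext x
    simp
  rw [h2, Set.image_id] at h1
  exact h1

theorem ThnM_fd {f g : ℂ × ℝ → ℂ × ℝ} {x : ℂ × ℝ} (hf : DifferentiableAt ℝ f x)
    (hg : DifferentiableAt ℝ g (f x)) (h : ∀ y, g (f y) = y) : Function.Bijective (fderiv ℝ f x) := by
  have h1 : HasFDerivAt (fun y => g (f y)) ((fderiv ℝ g (f x)).comp (fderiv ℝ f x)) x :=
    hg.hasFDerivAt.comp x hf.hasFDerivAt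
  have h2 : HasFDerivAt (fun y : ℂ × ℝ => g (f y)) (ContinuousLinearMap.id ℝ (ℂ × ℝ)) x := by
    have : (fun y : ℂ × ℝ => g (f y)) = id := funext h
    rw [this]
    exact hasFDerivAt_id x
  have h3 := h1.unique h2
  have hi : Function.Injective (fderiv ℝ f x) := by
    intro v w hvw
    have e1 := congrArg (fun L : (ℂ × ℝ) →L[ℝ] (ℂ × ℝ) => L v) h3
    have e2 := congrArg (fun L : (ℂ × ℝ) →L[ℝ] (ℂ × ℝ) => L w) h3
    simp only [ContinuousLinearMap.comp_apply, ContinuousLinearMap.id_apply] at e1 e2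
    rw [← e1, ← e2, hvw]
  refine ⟨hi, ?_⟩
  have := LinearMap.injective_iff_surjective (f := (fderiv ℝ f x : (ℂ × ℝ) →ₗ[ℝ] (ℂ × ℝ)))
  exact this.1 hi

theorem ThnM_wfs (w₀ : ℝ) : ContDiff ℝ ∞ (wf w₀) := by
  unfold wf
  have h1 : ContDiff ℝ ∞ fun u : ℝ => stp (1 / 64) (1 / 16) (u ^ 2) :=
    (CSG.stp_smooth _ _).comp (contDiff_id.pow 2)
  exact contDiff_const.add (contDiff_const.mul h1)

/-- the isotopy of the two strands -/
theorem ThnM_move {w₀ : ℝ} (h0 : 0 < w₀) (h1 : w₀ ≤ 1) :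
    ∃ Ψ : Equiv.Perm (ℂ × ℝ), ISO.Move ⊥ univ Ψ ∧ ∀ q ∈ Ss, Ψ q = thn w₀ q := by
  have hfp : ∀ s ∈ Icc (0 : ℝ) 1, ∀ u, 0 < 1 - s + s * wf w₀ u := by
    intro s hs u
    have h2 := wf_pos h0 h1 u
    rcases hs.1.eq_or_lt with h | h
    · rw [← h]; norm_num
    · have := mul_pos h h2
      linarith [hs.2]
  let e : ℝ → ℂ × ℝ → ℂ × ℝ := fun s q => (((1 - s + s * wf w₀ q.2 : ℝ) : ℂ) * q.1, q.2)
  have hes : ContDiff ℝ ∞ fun q : ℝ × (ℂ × ℝ) => e q.1 q.2 := by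
    have a1 : ContDiff ℝ ∞ fun q : ℝ × (ℂ × ℝ) => (1 - q.1 + q.1 * wf w₀ q.2.2 : ℝ) :=
      (contDiff_const.sub contDiff_fst).add (contDiff_fst.mul ((ThnM_wfs w₀).comp
        (contDiff_snd.comp contDiff_snd)))
    exact ((Complex.ofRealCLM.contDiff.comp a1).mul (contDiff_fst.comp contDiff_snd)).prodMk
      (contDiff_snd.comp contDiff_snd)
  let g : ℝ → ℂ × ℝ → ℂ × ℝ := fun s q => ((((1 - s + s * wf w₀ q.2)⁻¹ : ℝ) : ℂ) * q.1, q.2)
  have hgs : ∀ s ∈ Icc (0 : ℝ) 1, ContDiff ℝ ∞ (g s) := by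
    intro s hs
    have a1 : ContDiff ℝ ∞ fun q : ℂ × ℝ => ((1 - s + s * wf w₀ q.2)⁻¹ : ℝ) :=
      (contDiff_const.add (contDiff_const.mul ((ThnM_wfs w₀).comp contDiff_snd))).inv
        fun q => (hfp s hs q.2).ne'
    exact ((Complex.ofRealCLM.contDiff.comp a1).mul contDiff_fst).prodMk contDiff_snd
  have hge : ∀ s ∈ Icc (0 : ℝ) 1, ∀ q, g s (e s q) = q := by
    intro s hs q
    have h2 := (hfp s hs q.2).ne'
    apply Prod.ext
    · show (((1 - s + s * wf w₀ q.2)⁻¹ : ℝ) : ℂ) * (((1 - s + s * wf w₀ q.2 : ℝ) : ℂ) * q.1) = q.1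
      rw [← mul_assoc, ← Complex.ofReal_mul, inv_mul_cancel₀ h2, Complex.ofReal_one, one_mul]
    · rfl
  have hC : IsCompact ((({1, -1} : Set ℂ)) ×ˢ Icc (-(1 / 4) : ℝ) (1 / 4)) :=
    ((Set.finite_singleton _).insert _).isCompact.prod isCompact_Icc
  obtain ⟨Ψ, U, hM, -, hCU, hΨ, hfix⟩ := ISO.cod0 (Λ := (⊥ : AddSubgroup (ℂ × ℝ)))
    (Λ' := (⊥ : AddSubgroup (ℂ × ℝ))) (O := univ) (W := univ) (e := e)
    (C := (({1, -1} : Set ℂ)) ×ˢ Icc (-(1 / 4) : ℝ) (1 / 4))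
    (by
      intro R
      apply (Set.finite_singleton (0 : ℂ × ℝ)).subset
      rintro m ⟨hm, -⟩
      exact AddSubgroup.mem_bot.1 hm) isOpen_univ isOpen_univ (fun _ _ _ _ => mem_univ _)
    (fun s _ x _ => hes.contDiffAt)
    (by
      intro m hm
      refine ⟨0, AddSubgroup.zero_mem _, fun s _ x _ => ?_⟩
      rw [AddSubgroup.mem_bot.1 hm, add_zero, add_zero]) hC (subset_univ _)
    (by
      intro s hs x _
      have a1 : ContDiff ℝ ∞ (e s) := hes.comp (contDiff_const.prodMk contDiff_id)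
      exact ThnM_fd (a1.differentiable (by simp) x) ((hgs s hs).differentiable (by simp) _) (hge s hs))
    (by
      intro s hs x _ x' _ m hm h
      refine ⟨0, AddSubgroup.zero_mem _, ?_⟩
      rw [AddSubgroup.mem_bot.1 hm, add_zero] at h
      rw [add_zero, ← hge s hs x, h, hge s hs x'])
    (fun _ _ _ _ => mem_univ _)
  refine ⟨Ψ, hM, ?_⟩
  rintro ⟨z, u⟩ hz
  have hz : z = 1 ∨ z = -1 := hz
  rcases le_total |u| (1 / 4) with hu | hu
  · have hmem : ((z, u) : ℂ × ℝ) ∈ (({1, -1} : Set ℂ)) ×ˢ Icc (-(1 / 4) : ℝ) (1 / 4) := by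
      refine ⟨?_, abs_le.1 hu⟩
      simpa using hz
    have h2 := hΨ _ (hCU hmem)
    have e0 : e 0 (z, u) = (z, u) := by
      show ((((1 - 0 + 0 * wf w₀ u : ℝ) : ℂ) * z, u) : ℂ × ℝ) = (z, u)
      simp
    have e1 : e 1 (z, u) = thn w₀ (z, u) := by
      show ((((1 - 1 + 1 * wf w₀ u : ℝ) : ℂ) * z, u) : ℂ × ℝ) = ((wf w₀ u : ℂ) * z, u)
      simp
    rw [e0, e1] at h2
    exact h2
  · have hw1 := wf_end (w₀ := w₀) hu
    have e1 : thn w₀ (z, u) = (z, u) := by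
      show (((wf w₀ u : ℂ) * z, u) : ℂ × ℝ) = (z, u)
      rw [hw1]; simp
    rw [e1]
    apply hfix
    intro s _ x _ m hm h s' _
    rw [AddSubgroup.mem_bot.1 hm, add_zero] at h ⊢
    have h2 : x.2 = u := congrArg Prod.snd h
    have h3 : ((1 - s + s * wf w₀ x.2 : ℝ) : ℂ) * x.1 = z := congrArg Prod.fst h
    rw [h2, hw1] at h3
    apply Prod.ext
    · show ((1 - s' + s' * wf w₀ x.2 : ℝ) : ℂ) * x.1 = z
      rw [h2, hw1, ← h3]
      norm_num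
    · exact h2

theorem isQ_thin {Q : (ℝ × ℂ × ℝ → SP) → Prop} (hQ : Mono.{u} Q) {β : ℂ × ℝ → ℂ × ℝ} (hβ : Emb β)
    {Y : Set (ℂ × ℝ)} (hY : ∀ q, β q ∉ Y) {w₀ : ℝ} (h0 : 0 < w₀) (h1 : w₀ ≤ 1) :
    IsQ Q (Y ∪ β '' Ss) ↔ IsQ Q (Y ∪ (fun q => β (thn w₀ q)) '' Ss) := by
  obtain ⟨Ψ, hΨ, hΨS⟩ := ThnM_move h0 h1
  obtain ⟨F, hF, hFβ, hFx⟩ := exists_CD hβ hΨ
  have e : F '' (Y ∪ β '' Ss) = Y ∪ (fun q => β (thn w₀ q)) '' Ss := by
    rw [image_union]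
    congr 1
    · have : EqOn F id Y := by
        intro y hy
        apply hFx
        rintro ⟨q, rfl⟩
        exact hY q hy
      rw [this.image_eq, image_id]
    · rw [image_image]
      apply image_congr
      intro q hq
      rw [hFβ, hΨS q hq]
  rw [← e]
  exact isQ_diff_iff hQ hF

end Pool.Agent.KNH
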