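import Pool.Agent.KNH.FouSQ
import Pool.Agent.KNH.ThnQ
import Pool.Agent.KNH.FamM
import Pool.Agent.KNH.ExtM

/-!
# KNH/FouRQ: the 4-move, set form   (difficulty 3)

(1) Forward.  `β = bx b`, `Y = Z ∪ b '' Rem`: `Z ∪ b '' Str = Y ∪ β '' Ss` (`str_eq`), `four_step`: `IsX (Y ∪ β '' Ss2)`.  Rotation: `Ψ (z, u) = (ex (θ u * (1 - stp 1 4 (‖z‖²))) * z, u)`,
`θ u = 2 (gs (hr u) - gs (2u))`: smooth, zero for `u ≤ -1/8` and for `u ≥ 1/16` (`hr_gs_one`, `hr_gs_zero`); inverse with `-θ` (same `‖z‖`); `ISO.Move ⊥ univ` (support in `‖z‖ ≤ 2`, `|u| ≤ 1/8`).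
`exists_CD` gives `F`; `F '' (Y ∪ β '' Ss2) = Y ∪ β '' {(±ex (2 gs (hr u)), u)}` (`ex_add`; `stp 1 4 1 = 0`).  And this is `Z ∪ b '' Str2`: `β (ζ, u) = b (Rr ζ, hr u) = b (ζ, hr u)` for `‖ζ‖ = 1`; the points
of `Str2` with `s ≠ hr u` for all `u`: `|s| ≥ 3/4` (`hr_surj`), so `ex (2 gs s) = 1`, these are the points of `Rem`.  (For `Str2` note `KNT.gs = RBM.gs` by definition.)
(2) Backward.  `b₃ (z, s) = b (ex (2 gs s) * conj z, s)` is a `BalC` (`(z, s) ↦ (ex (2 gs s) conj z, s)` is a smooth involution of `ℂ × ℝ` preserving `Dom`), `b₃ '' Dom = b '' Dom`,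
`b₃ '' Str = b '' Str2`, `b₃ '' Str2 = b '' Str` (`ex x * conj (ex x) = 1`).  Apply (1) to `b₃`.
-/

open scoped Manifold ContDiff Topology
open Set Filter
open Complex (I)
open Pool.Agent.CSG (stp)
open Pool.Agent.RSG (E4 S3 S4 ex cj pS3)
open Pool.Agent.RBM (ThickT TwinP OnT Box Bundle frc)
open Pool.Agent.PTH (SP ISP Act Carries)
open Pool.Agent.COR (Equi EquiB TwoStrands half)
open Pool.Agent.KNT (Dom BalC Tubes Str)
open Pool.Agent.CLG (io pol)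

namespace Pool.Agent.KNH

theorem FouR_gs {s : ℝ} (hs : 1 / 8 ≤ |s|) : ex (2 * RBM.gs s) = 1 := by
  rcases le_total 0 s with h | h
  · rw [abs_of_nonneg h] at hs
    have h1 : RBM.gs s = 1 := Pool.Agent.CSG.stp_one (by norm_num) (by linarith)
    rw [h1]
    have h2 := RSG.ex_int 2
    norm_num at h2 ⊢
    exact h2
  · rw [abs_of_nonpos h] at hs
    have h1 : RBM.gs s = 0 := Pool.Agent.CSG.stp_zero (by norm_num) (by linarith)
    rw [h1, mul_zero, RSG.ex_zero]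

/-- the angle -/
noncomputable def FouR_th (u : ℝ) : ℝ := 2 * (RBM.gs (hr u) - RBM.gs (2 * u))

theorem FouR_th_smooth : ContDiff ℝ ∞ FouR_th := by
  have h1 : ContDiff ℝ ∞ RBM.gs := Pool.Agent.CSG.stp_smooth _ _
  have h2 : ContDiff ℝ ∞ (fun u => RBM.gs (hr u)) := h1.comp hr_smooth
  have h3 : ContDiff ℝ ∞ (fun u : ℝ => RBM.gs (2 * u)) := h1.comp (contDiff_const.mul contDiff_id)
  exact contDiff_const.mul (h2.sub h3)

theorem FouR_th_zero {u : ℝ} (hu : 1 / 8 ≤ |u|) : FouR_th u = 0 := by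
  unfold FouR_th
  rcases le_total 0 u with h | h
  · rw [abs_of_nonneg h] at hu
    obtain ⟨h1, h2⟩ := hr_gs_one (u := u) (by linarith)
    rw [h1, h2]
    ring
  · rw [abs_of_nonpos h] at hu
    obtain ⟨h1, h2⟩ := hr_gs_zero (u := u) (by linarith)
    rw [h1, h2]
    ring

/-- the rotation -/
noncomputable def FouR_f (o : ℝ) (q : ℂ × ℝ) : ℂ × ℝ :=
  (ex (o * FouR_th q.2 * (1 - stp 1 4 (‖q.1‖ ^ 2))) * q.1, q.2)

theorem FouR_f_smooth (o : ℝ) : ContDiff ℝ ∞ (FouR_f o) := by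
  have h1 : ContDiff ℝ ∞ (fun q : ℂ × ℝ => o * FouR_th q.2) :=
    contDiff_const.mul (FouR_th_smooth.comp contDiff_snd)
  have h2 : ContDiff ℝ ∞ (fun q : ℂ × ℝ => ‖q.1‖ ^ 2) := (contDiff_norm_sq ℝ).comp contDiff_fst
  have h3 : ContDiff ℝ ∞ (fun q : ℂ × ℝ => stp 1 4 (‖q.1‖ ^ 2)) :=
    (Pool.Agent.CSG.stp_smooth 1 4).comp h2
  have h4 : ContDiff ℝ ∞ (fun q : ℂ × ℝ => ex (o * FouR_th q.2 * (1 - stp 1 4 (‖q.1‖ ^ 2)))) :=
    RSG.ex_smooth.comp (h1.mul (contDiff_const.sub h3))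
  exact (h4.mul contDiff_fst).prodMk contDiff_snd

theorem FouR_f_norm (o : ℝ) (q : ℂ × ℝ) : ‖(FouR_f o q).1‖ = ‖q.1‖ := by
  show ‖ex (o * FouR_th q.2 * (1 - stp 1 4 (‖q.1‖ ^ 2))) * q.1‖ = ‖q.1‖
  rw [norm_mul, RSG.ex_norm, one_mul]

theorem FouR_f_inv {o o' : ℝ} (h : o + o' = 0) (q : ℂ × ℝ) : FouR_f o (FouR_f o' q) = q := by
  have h1 := FouR_f_norm o' q
  refine Prod.ext ?_ rfl
  show ex (o * FouR_th q.2 * (1 - stp 1 4 (‖(FouR_f o' q).1‖ ^ 2))) *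
    (ex (o' * FouR_th q.2 * (1 - stp 1 4 (‖q.1‖ ^ 2))) * q.1) = q.1
  rw [h1, ← mul_assoc, ← RSG.ex_add]
  have h2 : o * FouR_th q.2 * (1 - stp 1 4 (‖q.1‖ ^ 2)) + o' * FouR_th q.2 * (1 - stp 1 4 (‖q.1‖ ^ 2))
      = 0 := by
    have h3 : o' = -o := by linarith
    rw [h3]
    ring
  rw [h2, RSG.ex_zero, one_mul]

/-- the rotation as a permutation -/
noncomputable def FouR_P : Equiv.Perm (ℂ × ℝ) where
  toFun := FouR_f 1
  invFun := FouR_f (-1)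
  left_inv q := FouR_f_inv (by norm_num) q
  right_inv q := FouR_f_inv (by norm_num) q

theorem FouR_move : ISO.Move ⊥ univ FouR_P := by
  refine ⟨FouR_f_smooth 1, FouR_f_smooth (-1), ?_, ?_⟩
  · intro m hm x
    have h1 : m = 0 := hm
    rw [h1, add_zero, add_zero]
  · refine ⟨Metric.closedBall 0 2 ×ˢ Icc (-(1 / 8)) (1 / 8),
      (isCompact_closedBall 0 2).prod isCompact_Icc, subset_univ _, ?_⟩
    intro x hx
    have h1 := hx 0 (zero_mem _)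
    rw [add_zero] at h1
    show FouR_f 1 x = x
    refine Prod.ext ?_ rfl
    show ex (1 * FouR_th x.2 * (1 - stp 1 4 (‖x.1‖ ^ 2))) * x.1 = x.1
    have h2 : 1 * FouR_th x.2 * (1 - stp 1 4 (‖x.1‖ ^ 2)) = 0 := by
      by_cases h3 : ‖x.1‖ ≤ 2
      · have h4 : ¬ |x.2| ≤ 1 / 8 := by
          intro h5
          apply h1
          refine ⟨?_, abs_le.1 h5⟩
          rw [mem_closedBall_zero_iff]
          exact h3
        rw [FouR_th_zero (not_le.1 h4).le]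
        ring
      · have h4 : (4 : ℝ) ≤ ‖x.1‖ ^ 2 := by
          have := not_le.1 h3
          nlinarith
        rw [Pool.Agent.CSG.stp_one (by norm_num) h4]
        ring
    rw [h2, RSG.ex_zero, one_mul]

theorem FouR_unit {ζ : ℂ} {x : ℝ} (h : ζ = ex x ∨ ζ = -ex x) : ‖ζ‖ = 1 := by
  rcases h with rfl | rfl
  · exact RSG.ex_norm x
  · rw [norm_neg, RSG.ex_norm]

theorem FouR_val {ζ : ℂ} {u : ℝ} (h : ‖ζ‖ = 1) : FouR_P (ζ, u) = (ex (FouR_th u) * ζ, u) := by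
  show (ex (1 * FouR_th u * (1 - stp 1 4 (‖ζ‖ ^ 2))) * ζ, u) = _
  rw [h, Pool.Agent.CSG.stp_zero (by norm_num) (by norm_num)]
  norm_num

theorem FouR_mul (u : ℝ) : ex (FouR_th u) * ex (2 * RBM.gs (2 * u)) = ex (2 * RBM.gs (hr u)) := by
  rw [← RSG.ex_add]
  congr 1
  unfold FouR_th
  ring

universe u

theorem FouR_fwd {Q : (ℝ × ℂ × ℝ → SP) → Prop} (hQ : Mono.{u} Q) {Z : Set (ℂ × ℝ)} {b : ℂ × ℝ → ℂ × ℝ}
    (hb : BalC b) (hZ : Disjoint Z (b '' Dom)) (h : IsQ Q (Z ∪ b '' Str)) :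
    IsQ Q (Z ∪ b '' KNT.Str2) := by
  rw [str_eq] at h
  have hE := bx_emb hb
  have hY := bx_dis hb hZ
  have h1 := four_stepQ hQ hE hY h
  obtain ⟨F, hF, hFb, hFo⟩ := exists_CD hE FouR_move
  have h2 := isQ_diff hQ hF h1
  have hYF : ∀ x ∈ Z ∪ b '' Rem, F x = x := by
    intro x hx
    apply hFo
    rintro ⟨q, rfl⟩
    exact hY q hx
  have hset : F '' ((Z ∪ b '' Rem) ∪ bx b '' Ss2) = Z ∪ b '' KNT.Str2 := by
    ext x
    constructor
    · rintro ⟨y, hy, rfl⟩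
      rcases hy with hy | ⟨⟨ζ, u⟩, hq, rfl⟩
      · rw [hYF y hy]
        rcases hy with hy | ⟨⟨ζ, s⟩, ⟨⟨hq1, hq2⟩, hq3⟩, rfl⟩
        · exact Or.inl hy
        · refine Or.inr ⟨(ζ, s), ⟨?_, hq2⟩, rfl⟩
          have h3 : 3 / 4 < |s| := by
            by_contra h4
            obtain ⟨u, -, hu⟩ := hr_surj (not_lt.1 h4)
            exact hq3 u hu
          have h5 : ex (2 * KNT.gs s) = 1 := FouR_gs (s := s) (by linarith)
          show ζ = ex (2 * KNT.gs s) ∨ ζ = -ex (2 * KNT.gs s)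
          rw [h5]
          exact hq1
      · have hq' : ζ = ex (2 * RBM.gs (2 * u)) ∨ ζ = -ex (2 * RBM.gs (2 * u)) := hq
        have hn := FouR_unit hq'
        rw [hFb, FouR_val hn]
        have hn2 : ‖ex (FouR_th u) * ζ‖ = 1 := by rw [norm_mul, RSG.ex_norm, hn, one_mul]
        refine Or.inr ⟨(ex (FouR_th u) * ζ, hr u), ⟨?_, ?_⟩, ?_⟩
        · show ex (FouR_th u) * ζ = ex (2 * RBM.gs (hr u)) ∨ ex (FouR_th u) * ζ = -ex (2 * RBM.gs (hr u))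
          rcases hq' with hq' | hq'
          · left
            rw [hq', FouR_mul]
          · right
            rw [hq', mul_neg, FouR_mul]
        · have := hr_lt u
          show |hr u| < 1
          linarith
        · show b (ex (FouR_th u) * ζ, hr u) = b (Rr (ex (FouR_th u) * ζ), hr u)
          rw [Rr_of_norm hn2]
    · rintro (hx | ⟨⟨ζ, s⟩, ⟨hq1, hq2⟩, rfl⟩)
      · exact ⟨x, Or.inl (Or.inl hx), hYF x (Or.inl hx)⟩
      · have hq' : ζ = ex (2 * RBM.gs s) ∨ ζ = -ex (2 * RBM.gs s) := hq1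
        by_cases hu : ∃ u, hr u = s
        · obtain ⟨u, rfl⟩ := hu
          have hn := FouR_unit hq'
          -- the preimage
          have hpre : ∃ ξ : ℂ, (ξ = ex (2 * RBM.gs (2 * u)) ∨ ξ = -ex (2 * RBM.gs (2 * u))) ∧
              ex (FouR_th u) * ξ = ζ := by
            rcases hq' with hq' | hq'
            · exact ⟨_, Or.inl rfl, by rw [FouR_mul, hq']⟩
            · exact ⟨_, Or.inr rfl, by rw [mul_neg, FouR_mul, hq']⟩
          obtain ⟨ξ, hξ, hξζ⟩ := hpre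
          refine ⟨bx b (ξ, u), Or.inr ⟨(ξ, u), hξ, rfl⟩, ?_⟩
          rw [hFb, FouR_val (FouR_unit hξ), hξζ]
          show b (Rr ζ, hr u) = b (ζ, hr u)
          rw [Rr_of_norm hn]
        · have h3 : 3 / 4 < |s| := by
            by_contra h4
            obtain ⟨u, -, hu'⟩ := hr_surj (not_lt.1 h4)
            exact hu ⟨u, hu'⟩
          rw [FouR_gs (by linarith)] at hq'
          have h5 : b (ζ, s) ∈ Z ∪ b '' Rem :=
            Or.inr ⟨(ζ, s), ⟨⟨hq', hq2⟩, fun u hu' => hu ⟨u, hu'⟩⟩, rfl⟩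
          exact ⟨b (ζ, s), Or.inl h5, hYF _ h5⟩
  rwa [hset] at h2

/-- the reflected chart -/
noncomputable def FouR_J (q : ℂ × ℝ) : ℂ × ℝ := (ex (2 * RBM.gs q.2) * (starRingEnd ℂ) q.1, q.2)

theorem FouR_J_smooth : ContDiff ℝ ∞ FouR_J := by
  have h1 : ContDiff ℝ ∞ RBM.gs := Pool.Agent.CSG.stp_smooth _ _
  have h2 : ContDiff ℝ ∞ (fun q : ℂ × ℝ => ex (2 * RBM.gs q.2)) :=
    RSG.ex_smooth.comp (contDiff_const.mul (h1.comp contDiff_snd))
  have h3 : ContDiff ℝ ∞ (fun q : ℂ × ℝ => (starRingEnd ℂ) q.1) :=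
    Complex.conjCLE.contDiff.comp contDiff_fst
  exact (h2.mul h3).prodMk contDiff_snd

theorem FouR_JJ (q : ℂ × ℝ) : FouR_J (FouR_J q) = q := by
  refine Prod.ext ?_ rfl
  show ex (2 * RBM.gs q.2) * (starRingEnd ℂ) (ex (2 * RBM.gs q.2) * (starRingEnd ℂ) q.1) = q.1
  rw [map_mul, Complex.conj_conj, ← mul_assoc, RSG.ex_mul_conj, one_mul]

theorem FouR_J_dom {q : ℂ × ℝ} (hq : q ∈ Dom) : FouR_J q ∈ Dom := by
  refine ⟨?_, hq.2⟩
  show ‖ex (2 * RBM.gs q.2) * (starRingEnd ℂ) q.1‖ < 4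
  rw [norm_mul, RSG.ex_norm, one_mul, RCLike.norm_conj]
  exact hq.1

theorem FouR_J_imm (q : ℂ × ℝ) : Function.Injective (fderiv ℝ FouR_J q) := by
  have hd : Differentiable ℝ FouR_J := FouR_J_smooth.differentiable (by simp)
  have h1 : FouR_J ∘ FouR_J = id := funext FouR_JJ
  have h2 : fderiv ℝ (FouR_J ∘ FouR_J) q = (fderiv ℝ FouR_J (FouR_J q)).comp (fderiv ℝ FouR_J q) :=
    fderiv_comp q (hd _) (hd _)
  rw [h1, fderiv_id] at h2
  intro v w hvw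
  have h3 : (ContinuousLinearMap.id ℝ (ℂ × ℝ)) v = (ContinuousLinearMap.id ℝ (ℂ × ℝ)) w := by
    rw [h2]
    show fderiv ℝ FouR_J (FouR_J q) (fderiv ℝ FouR_J q v) =
      fderiv ℝ FouR_J (FouR_J q) (fderiv ℝ FouR_J q w)
    rw [hvw]
  exact h3

theorem FouR_balC {b : ℂ × ℝ → ℂ × ℝ} (hb : BalC b) : BalC (b ∘ FouR_J) := by
  have hd : Differentiable ℝ FouR_J := FouR_J_smooth.differentiable (by simp)
  refine ⟨?_, ?_, ?_⟩
  · intro q hq
    exact (hb.smooth _ (FouR_J_dom hq)).comp q FouR_J_smooth.contDiffAt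
  · intro q hq
    have h1 : fderiv ℝ (b ∘ FouR_J) q = (fderiv ℝ b (FouR_J q)).comp (fderiv ℝ FouR_J q) :=
      fderiv_comp q ((hb.smooth _ (FouR_J_dom hq)).differentiableAt (by simp)) (hd _)
    rw [h1]
    intro v w hvw
    exact FouR_J_imm q (hb.imm _ (FouR_J_dom hq) hvw)
  · intro q hq q' hq' h
    have h1 := hb.inj (FouR_J_dom hq) (FouR_J_dom hq') h
    rw [← FouR_JJ q, h1, FouR_JJ]

theorem FouR_J_str : FouR_J '' Str = KNT.Str2 := by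
  ext ⟨ζ, s⟩
  constructor
  · rintro ⟨⟨ξ, u⟩, ⟨h1, h2⟩, h3⟩
    have e1 : ex (2 * RBM.gs u) * (starRingEnd ℂ) ξ = ζ := congrArg Prod.fst h3
    have e2 : u = s := congrArg Prod.snd h3
    subst e2
    refine ⟨?_, h2⟩
    show ζ = ex (2 * RBM.gs u) ∨ ζ = -ex (2 * RBM.gs u)
    have h1' : ξ = 1 ∨ ξ = -1 := h1
    rcases h1' with h1' | h1'
    · left
      rw [← e1, h1', map_one, mul_one]
    · right
      rw [← e1, h1', map_neg, map_one, mul_neg, mul_one]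
  · rintro ⟨h1, h2⟩
    have h1' : ζ = ex (2 * RBM.gs s) ∨ ζ = -ex (2 * RBM.gs s) := h1
    rcases h1' with h1' | h1'
    · refine ⟨(1, s), ⟨Or.inl rfl, h2⟩, ?_⟩
      show (ex (2 * RBM.gs s) * (starRingEnd ℂ) 1, s) = (ζ, s)
      rw [map_one, mul_one, h1']
    · refine ⟨(-1, s), ⟨Or.inr rfl, h2⟩, ?_⟩
      show (ex (2 * RBM.gs s) * (starRingEnd ℂ) (-1), s) = (ζ, s)
      rw [map_neg, map_one, mul_neg, mul_one, h1']

theorem FouR_J_image (A : Set (ℂ × ℝ)) : FouR_J '' (FouR_J '' A) = A := by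
  rw [← image_comp]
  have h1 : FouR_J ∘ FouR_J = id := funext FouR_JJ
  rw [h1, image_id]

theorem isQ_four {Q : (ℝ × ℂ × ℝ → SP) → Prop} (hQ : Mono.{u} Q) {Z : Set (ℂ × ℝ)}
    {b : ℂ × ℝ → ℂ × ℝ} (hb : BalC b) (hZ : Disjoint Z (b '' Dom)) :
    IsQ Q (Z ∪ b '' Str) ↔ IsQ Q (Z ∪ b '' KNT.Str2) := by
  constructor
  · exact FouR_fwd hQ hb hZ
  · intro h
    have h1 : (b ∘ FouR_J) '' Str = b '' KNT.Str2 := by rw [image_comp, FouR_J_str]
    have h2 : (b ∘ FouR_J) '' KNT.Str2 = b '' Str := by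
      rw [image_comp, ← FouR_J_str, FouR_J_image]
    have h3 : (b ∘ FouR_J) '' Dom ⊆ b '' Dom := by
      rintro _ ⟨q, hq, rfl⟩
      exact ⟨FouR_J q, FouR_J_dom hq, rfl⟩
    have h4 := FouR_fwd hQ (FouR_balC hb) (hZ.mono_right h3)
    rw [h1, h2] at h4
    exact h4 h

end Pool.Agent.KNH
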