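import Pool.Agent.KNH.StrM
import Pool.Agent.KNH.QDef
import Pool.Agent.COR.Rmc

/-!
# KNH/FouSQ: the 4-move, core form   (difficulty 3)

`h`: `c, n`, `Carries`: `κ₀, j`.  `exists_strands` (`hS`: `io (β q) ∈ Hat (Y ∪ β '' Ss)` iff `q ∈ Ss`, by `io_inj`, `io_ne_pol`, `hY`, `hβ.inj`).  `four_core` for `b = pb β`,
`o = 1`: `M`, `IsM 4 (half 1 (pb β)) (MsDo 1) M`, `half 1 (pb β) (y, s, t) = (io (β (y, s/2)), circ t)` (`cj 1 y = y`).  `Carries` for `l ↦ M (c l, 1)`.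
`M (c l, 1)`: if `(c l, 1) = half 1 (pb β) (y, s, t)`, `‖y‖ < 4`, `|s| < 1/8`, then `c l = io (β (y, s/2))`, so `y = ±1`, `circ t = 1`, and `M (c l, 1) = (io (β (MsDo 1 (y, s), s/2)), 1)`,
`MsDo 1 (±1, s) = ±ex (2 gs s)` (`stp .. = 0` as `(1/8)² ≤ 1849/10000`).  Otherwise `M` fixes `(c l, 1)`.  So `M (c l, 1) = (c' l, 1)` and the range of `c'` is `pol`, `io '' Y`,
`io (β (±1, u))` with `|u| ≥ 1/16`, and `io (β (±ex (2 gs (2u)), u))` with `|u| < 1/16`.  For `u ≥ 1/16`: `gs (2u) = 1`, `ex 2 = 1`; for `u ≤ -1/16`: `gs (2u) = 0`.  So it is `Hat (Y ∪ β '' Ss2)`.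
-/

open scoped Manifold ContDiff Topology
open Set Filter
open Complex (I)
open Pool.Agent.CSG (stp)
open Pool.Agent.RSG (E4 S3 S4 ex cj pS3)
open Pool.Agent.RBM (ThickT TwinP OnT Box Bundle frc)
open Pool.Agent.PTH (SP ISP Act Carries)
open Pool.Agent.COR (Equi EquiB TwoStrands half)
open Pool.Agent.KNT (Dom BalC Tubes Str)
open Pool.Agent.CLG (io pol)

namespace Pool.Agent.KNH

theorem FouS_cj (y : ℂ) : cj 1 y = y := by
  unfold cj
  apply Complex.ext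
  · rfl
  · show 1 * y.im = y.im
    ring

theorem FouS_half (β : ℂ × ℝ → ℂ × ℝ) (y : ℂ) (s t : ℝ) :
    half 1 (pb β) (y, s, t) = (io (β (y, s / 2)), circ t) := by
  show (io (β (cj 1 y, s / 2)), circ t) = _
  rw [FouS_cj]

theorem FouS_gs {u : ℝ} (hu : 1 / 16 ≤ |u|) : ex (2 * RBM.gs (2 * u)) = 1 := by
  rcases le_total 0 u with h | h
  · rw [abs_of_nonneg h] at hu
    have h1 : RBM.gs (2 * u) = 1 := Pool.Agent.CSG.stp_one (by norm_num) (by linarith)
    rw [h1]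
    have h2 := RSG.ex_int 2
    norm_num at h2 ⊢
    exact h2
  · rw [abs_of_nonpos h] at hu
    have h1 : RBM.gs (2 * u) = 0 := Pool.Agent.CSG.stp_zero (by norm_num) (by linarith)
    rw [h1, mul_zero, RSG.ex_zero]

theorem FouS_norm {y : ℂ} (hy : y = 1 ∨ y = -1) : ‖y‖ = 1 := by
  rcases hy with rfl | rfl
  · exact norm_one
  · rw [norm_neg, norm_one]

universe u

/-- the 4-move for the curve `K` -/
theorem four_coreQ {Q : (ℝ × ℂ × ℝ → SP) → Prop} (hQ : Mono.{u} Q) {K : ℝ → SP}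
    {b : ℂ × ℝ × ℝ → SP} (hb : Box ISP b 5) (heqb : EquiB rot b) {f₁ f₂ : ℝ → ℝ} {ε₁ ε₂ : ℝ}
    (hs : TwoStrands b K f₁ f₂ ε₁ ε₂) {o : ℝ} (ho : o = 1 ∨ o = -1) :
    ∃ M : Equiv.Perm SP, RBM.IsM 4 (half 1 b) (RBM.MsDo o) M ∧ (CarQ Q K → CarQ Q fun l => M (K l)) := by
  have hbox : Box ISP (half 1 b) 4 := COR.Rmc_half hb
  obtain ⟨La, R, hLa, hMs⟩ := RBM.exists_LaDo ho
  obtain ⟨M, hM⟩ := RBM.exists_M hbox (r' := 39 / 10) (by norm_num) hMs
  refine ⟨M, hM, ?_⟩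
  rintro ⟨κ₀, hκ₀, heq₀, hK₀, hD⟩
  obtain ⟨κ, φ, σ, hσ, heqκ, hBu, hφ, hφ1, hφ', hcore, -, -, -, htwin⟩ :=
    COR.exists_bundle rot_act hκ₀ heq₀ hK₀ hb heqb hs (Fc := ∅) isClosed_empty (fun l hl t h => h)
  have heqh : EquiB rot (half 1 b) := fun z s t => heqb (cj 1 z) (s / 2) t
  have hrb : COR.refl σ (half 1 b) = half σ b := by
    funext q
    show b (cj 1 (cj σ q.1), q.2.1 / 2, q.2.2) = b (cj σ q.1, q.2.1 / 2, q.2.2)
    rw [COR.Rmc_cj1]
  have hM' : RBM.IsM 4 (half σ b) (RBM.MsDo (σ * o)) M := by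
    rw [← hrb]
    exact COR.Rmc_refl hσ (fun y s => COR.Rmc_MsDo o hσ y s) hM
  have ho' := COR.Rmc_sign hσ ho
  obtain ⟨La', R', hLa', hMs'⟩ := RBM.exists_LaDo ho'
  have hth := RBM.thick_M (r' := 39 / 10) hBu (RBM.pieces_self hBu) (by norm_num) hMs' hM'
  obtain ⟨ψ, hψ, hψ1, hψ', hinv⟩ := COR.Rmc_inv hφ hφ1 hφ'
  have hth2 : ThickT ISP (fun q : ℝ × ℂ × ℝ => M (κ (ψ q.1, q.2))) := COR.thick_rep hth hψ hψ1 hψ'
  refine ⟨fun q => M (κ (ψ q.1, q.2)), hth2, ?_, ?_, ?_⟩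
  · intro l v t
    show M (κ (ψ l, v, t)) = rot t (M (κ (ψ l, v, 0)))
    rw [heqκ, COR.Rmc_equi rot_act heqh hM t]
  · intro l
    show M (κ (ψ l, 0, 0)) = M (K l)
    rw [hcore, hinv]
  · refine hQ κ₀ _ hκ₀ hth2 ?_ hD
    intro X _ _ _ n j hX
    obtain ⟨D⟩ := RBM.four_twin hBu ho' hM' (htwin X n j hX)
    exact COR.rep hth hψ hψ1 hψ' D

theorem four_stepQ {Q : (ℝ × ℂ × ℝ → SP) → Prop} (hQ : Mono.{u} Q) {β : ℂ × ℝ → ℂ × ℝ} (hβ : Emb β)
    {Y : Set (ℂ × ℝ)} (hY : ∀ q, β q ∉ Y) (h : IsQ Q (Y ∪ β '' Ss)) : IsQ Q (Y ∪ β '' Ss2) := by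
  obtain ⟨c, hr, hC⟩ := h
  have hC0 := hC
  obtain ⟨κ, hκ, -, hκc, -⟩ := hC0
  have hS : ∀ q, (∃ l, c l = io (β q)) ↔ q ∈ Ss := by
    intro q
    have h1 : (∃ l, c l = io (β q)) ↔ io (β q) ∈ range c := Iff.rfl
    rw [h1, hr]
    constructor
    · rintro (h2 | ⟨x, hx, h2⟩)
      · exact absurd h2 (io_ne_pol _)
      · have h3 : x = β q := io_inj h2
        subst h3
        rcases hx with hx | ⟨q', hq', h4⟩
        · exact absurd hx (hY q)
        · rw [← hβ.inj h4]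
          exact hq'
    · intro hq
      exact Or.inr ⟨β q, Or.inr ⟨q, hq, rfl⟩, rfl⟩
  obtain ⟨f₁, f₂, ε₁, ε₂, hs, -, -, -⟩ := exists_strands hκ hκc hβ hS
  obtain ⟨M, hM, hMC⟩ := four_coreQ hQ (pb_box hβ 5) (pb_equiv β) hs (o := 1) (Or.inl rfl)
  have hC' := hMC hC
  -- the value of M
  have hA : ∀ (y : ℂ) (u : ℝ), (y = 1 ∨ y = -1) → |u| < 1 / 16 →
      M (io (β (y, u)), 1) = (io (β (ex (2 * RBM.gs (2 * u)) * y, u)), 1) := by
    intro y u hy hu
    have h1 := hM.ball y (2 * u) 0 (by rw [FouS_norm hy]; norm_num)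
      (by rw [abs_mul, abs_of_pos (by norm_num : (0 : ℝ) < 2)]; linarith)
    rw [FouS_half, FouS_half, RBM.MsDo_low (by rw [FouS_norm hy]; norm_num), circ_zero,
      mul_div_cancel_left₀ u (by norm_num : (2 : ℝ) ≠ 0)] at h1
    rw [h1]
    norm_num
  have hB : ∀ l, (∀ (y : ℂ) (u : ℝ), (y = 1 ∨ y = -1) → |u| < 1 / 16 → c l ≠ io (β (y, u))) →
      M (c l, 1) = (c l, 1) := by
    intro l hl
    apply hM.out
    intro y s t hy hs' heq
    rw [FouS_half] at heq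
    have h1 : c l = io (β (y, s / 2)) := congrArg Prod.fst heq
    have h2 : (y, s / 2) ∈ Ss := (hS _).1 ⟨l, h1⟩
    refine hl y (s / 2) h2 ?_ h1
    rw [abs_div, abs_of_pos (by norm_num : (0 : ℝ) < 2)]
    linarith
  have hcase : ∀ l, (∃ (y : ℂ) (u : ℝ), (y = 1 ∨ y = -1) ∧ |u| < 1 / 16 ∧ c l = io (β (y, u))) ∨
      (∀ (y : ℂ) (u : ℝ), (y = 1 ∨ y = -1) → |u| < 1 / 16 → c l ≠ io (β (y, u))) := by
    intro l
    by_cases h1 : ∃ (y : ℂ) (u : ℝ), (y = 1 ∨ y = -1) ∧ |u| < 1 / 16 ∧ c l = io (β (y, u))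
    · exact Or.inl h1
    · right
      intro y u hy hu he
      exact h1 ⟨y, u, hy, hu, he⟩
  have hsnd : ∀ l, M (c l, 1) = ((M (c l, 1)).1, 1) := by
    intro l
    rcases hcase l with ⟨y, u, hy, hu, he⟩ | hl
    · rw [he, hA y u hy hu]
    · rw [hB l hl]
  refine ⟨fun l => (M (c l, 1)).1, ?_, ?_⟩
  · ext x
    constructor
    · rintro ⟨l, rfl⟩
      show (M (c l, 1)).1 ∈ _
      rcases hcase l with ⟨y, u, hy, hu, he⟩ | hl
      · rw [he, hA y u hy hu]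
        refine Or.inr ⟨β (ex (2 * RBM.gs (2 * u)) * y, u), Or.inr ⟨_, ?_, rfl⟩, rfl⟩
        rcases hy with rfl | rfl
        · left
          show ex (2 * RBM.gs (2 * u)) * 1 = ex (2 * RBM.gs (2 * u))
          rw [mul_one]
        · right
          show ex (2 * RBM.gs (2 * u)) * -1 = -ex (2 * RBM.gs (2 * u))
          rw [mul_neg, mul_one]
      · rw [hB l hl]
        show c l ∈ _
        have h1 : c l ∈ Hat (Y ∪ β '' Ss) := by
          rw [← hr]
          exact ⟨l, rfl⟩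
        rcases h1 with h1 | ⟨x, hx, h1⟩
        · exact Or.inl h1
        · rcases hx with hx | ⟨⟨y, u⟩, hq, rfl⟩
          · exact Or.inr ⟨x, Or.inl hx, h1⟩
          · have hq' : y = 1 ∨ y = -1 := hq
            have hu : 1 / 16 ≤ |u| := by
              by_contra hu
              exact hl y u hq' (not_le.1 hu) h1.symm
            refine Or.inr ⟨β (y, u), Or.inr ⟨(y, u), ?_, rfl⟩, h1⟩
            show y = ex (2 * RBM.gs (2 * u)) ∨ y = -ex (2 * RBM.gs (2 * u))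
            rw [FouS_gs hu]
            exact hq'
    · have hrc : ∀ x, x ∈ Hat (Y ∪ β '' Ss) → ∃ l, c l = x := by
        intro x hx
        rw [← hr] at hx
        exact hx
      rintro (hx | ⟨z, hz, hx⟩)
      · obtain ⟨l, hl⟩ := hrc pol (Or.inl rfl)
        refine ⟨l, ?_⟩
        show (M (c l, 1)).1 = x
        rw [hB l (fun y u _ _ he => io_ne_pol _ (he.symm.trans hl)), hx]
        exact hl
      · rcases hz with hz | ⟨⟨y, u⟩, hq, rfl⟩
        · obtain ⟨l, hl⟩ := hrc (io z) (Or.inr ⟨z, Or.inl hz, rfl⟩)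
          refine ⟨l, ?_⟩
          show (M (c l, 1)).1 = x
          rw [hB l (fun y u _ _ he => hY (y, u) (by
            rw [← io_inj (hl.symm.trans he)]
            exact hz)), ← hx]
          exact hl
        · have hq' : y = ex (2 * RBM.gs (2 * u)) ∨ y = -ex (2 * RBM.gs (2 * u)) := hq
          by_cases hu : |u| < 1 / 16
          · rcases hq' with rfl | rfl
            · obtain ⟨l, hl⟩ := (hS (1, u)).2 (Or.inl rfl)
              refine ⟨l, ?_⟩
              show (M (c l, 1)).1 = x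
              rw [hl, hA 1 u (Or.inl rfl) hu, mul_one]
              exact hx
            · obtain ⟨l, hl⟩ := (hS (-1, u)).2 (Or.inr rfl)
              refine ⟨l, ?_⟩
              show (M (c l, 1)).1 = x
              rw [hl, hA (-1) u (Or.inr rfl) hu, mul_neg, mul_one]
              exact hx
          · rw [FouS_gs (not_lt.1 hu)] at hq'
            obtain ⟨l, hl⟩ := (hS (y, u)).2 hq'
            refine ⟨l, ?_⟩
            show (M (c l, 1)).1 = x
            rw [hB l (fun y' u' _ hu' he => hu (by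
              have h3 := hβ.inj (io_inj (hl.symm.trans he))
              rw [show u = u' from congrArg Prod.snd h3]
              exact hu'))]
            exact hl.trans hx
  · have he : (fun l => ((M (c l, 1)).1, (1 : Circle))) = fun l => M (c l, 1) :=
      funext fun l => (hsnd l).symm
    rw [he]
    exact hC'

end Pool.Agent.KNH
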