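import Pool.Agent.KNH.PbM
import Pool.Agent.KNH.ExtM
import Pool.Agent.KNH.BxM
import Pool.Agent.ISO.Small

/-!
# KNH/HolM: the diffeomorphism `G` (isotopy of the hole)   (difficulty 3)

`V = (ℂ × ℝ) × ℝ` with coordinates `((z, s), t')`, `E' = (ℂ × ℝ) × ℝ`, `Λ = AddSubgroup.zmultiples ((0, 0), 1)` (`ISO.Lat`), `Λ' = ⊥`,
`e l ((z, s), t') = (β l (thn w₀ (cj σ z, s / 2)), s / 4 + 1 / 2 + t')`, `O = interior Mp × ℝ`,
`W = {‖z‖ < 4, |s| < 1, |t'| < 3 δ}`, `C = {‖z‖ ≤ 13/4, |s| ≤ 1/4, |t'| ≤ 2 δ}` (compact).  `ISO.cod0`: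
* `he`: `Fam.smooth`, `thn_smooth`, `cj σ` is linear (real).  `hbij`: injective (chain rule; block form: `((z,s),t') ↦ (A (z, s), s/4 + t')` with `A`
  injective) + equal dimension; or write `e l = (β l × id) ∘ (shear)` with `(shear) ((z,s),t') = (thn w₀ (cj σ z, s/2), s/4 + 1/2 + t')`.
* injectivity modulo `Λ` on `W` (call it (inj), all `l ∈ [0, 1]`): `e l x = e l x' + (0, m)`: `(s - s')/4 + (t' - t'') = m`, `|(s - s')/4| < 1/2`, `|t' - t''| < 6 δ < 1/4`, so `m = 0` and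
  `|s - s'| / 2 < 12 δ`, `ThinOK.inj` gives `(cj σ z, s/2) = (cj σ z', s'/2)`, hence `x = x'` (`cj σ (cj σ z) = z` as `σ = ±1`; `‖cj σ z‖ = ‖z‖`).
* `hCO`: `hM` with `q = (cj σ z, s/2)`, `|s/2| ≤ 1/8`.
Result: `F : Move Λ O F`, `U ⊇ C` open, `F (e 0 x) = e 1 x` on `U`, `F y = y` for stationary `y`.  For `x ∈ W` with `|s| > 1/4`: `y = e 0 x` is stationary: if `e l x' = y + m`, `x' ∈ W`, then as `e l x = e 0 x = y`
(`Fam.ends`, `|s/2| ≥ 1/8`), `x' = x` by (inj) (and `m = 0`), and `e l' x = y` for all `l'`.  So `F (e 0 x) = e 1 x` for all `x` with `‖z‖ ≤ 13/4`, `|s| < 1`,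
`|t'| ≤ 2 δ`.
`ext_perm` with `β (x, t) = (io x, circ t)` (`iot_ld`, `iot_inj`), its `O = univ` (`Move Λ univ F` by `Move.mono`) gives `G` with
`G (io x, circ t) = (io × circ) (F (x, t))`, `G p = p` for `p.1 = pol`.  If `p.1 ∉ io '' Mp`: `p = (io x, circ t)`, `x ∉ Mp` (`io_surj`, `circ_surj`) or `p.1 = pol`; `F (x, t) = (x, t)` as `(x, t) + m ∉ O ⊇ C`.
Hole: `1/2 - 2δ ≤ |frc (t - s/4)|`, `frc x = x - round x ∈ [-1/2, 1/2]`: `t - s/4 = k + 1/2 + t'` or `k - 1/2 + t'`, `|t'| ≤ 2 δ`, `k ∈ ℤ`; so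
`half σ (pb B₀) (z, s, t) = (io (B₀ (cj σ z, s/2)), circ (s/4 + 1/2 + t'))` (`circ` has period 1) `= (io × circ) (e 0 x)`.
-/

open scoped Manifold ContDiff Topology
open Set Filter
open Complex (I)
open Pool.Agent.CSG (stp)
open Pool.Agent.RSG (E4 S3 S4 ex cj pS3)
open Pool.Agent.RBM (ThickT TwinP OnT Box Bundle frc)
open Pool.Agent.PTH (SP ISP Act Carries)
open Pool.Agent.COR (Equi EquiB TwoStrands half)
open Pool.Agent.KNT (Dom BalC Tubes Str)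
open Pool.Agent.CLG (io pol)

namespace Pool.Agent.KNH

/-- the lattice -/
def HolM_Lam : AddSubgroup ((ℂ × ℝ) × ℝ) := AddSubgroup.zmultiples (((0 : ℂ × ℝ), (1 : ℝ)))

theorem HolM_mem {m : (ℂ × ℝ) × ℝ} : m ∈ HolM_Lam ↔ ∃ n : ℤ, m = ((0 : ℂ × ℝ), (n : ℝ)) := by
  unfold HolM_Lam
  rw [AddSubgroup.mem_zmultiples_iff]
  constructor
  · rintro ⟨n, rfl⟩
    refine ⟨n, ?_⟩
    rw [Prod.smul_mk, smul_zero, zsmul_eq_mul, mul_one]
  · rintro ⟨n, rfl⟩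
    refine ⟨n, ?_⟩
    rw [Prod.smul_mk, smul_zero, zsmul_eq_mul, mul_one]

theorem HolM_lat : ISO.Lat HolM_Lam := by
  intro R
  refine ((Set.finite_Icc (-⌈R⌉) ⌈R⌉).image fun n : ℤ => (((0 : ℂ × ℝ), (n : ℝ)))).subset ?_
  rintro m ⟨hm, hR⟩
  obtain ⟨n, rfl⟩ := HolM_mem.1 hm
  have h1 : |(n : ℝ)| ≤ R := by
    refine le_trans ?_ hR
    rw [Prod.norm_def]
    exact le_max_right _ _
  have h2 : |(n : ℝ)| ≤ ⌈R⌉ := h1.trans (Int.le_ceil R)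
  have h3 : |n| ≤ ⌈R⌉ := by exact_mod_cast h2
  exact ⟨n, abs_le.1 h3, rfl⟩

/-- the linear map `((z, s), t) ↦ (cj σ z, s / 2)` -/
noncomputable def HolM_L (σ : ℝ) : ((ℂ × ℝ) × ℝ) →L[ℝ] (ℂ × ℝ) :=
  LinearMap.toContinuousLinearMap
    { toFun := fun x => (cj σ x.1.1, x.1.2 / 2)
      map_add' := by
        intro x y
        refine Prod.ext ?_ ?_
        · show cj σ (x.1.1 + y.1.1) = cj σ x.1.1 + cj σ y.1.1
          apply Complex.ext <;> simp [cj]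
          ring
        · show (x.1.2 + y.1.2) / 2 = x.1.2 / 2 + y.1.2 / 2
          ring
      map_smul' := by
        intro c x
        refine Prod.ext ?_ ?_
        · show cj σ (c • x.1.1) = c • cj σ x.1.1
          apply Complex.ext <;> simp [cj]
          ring
        · show (c * x.1.2) / 2 = c * (x.1.2 / 2)
          ring }

theorem HolM_L_apply (σ : ℝ) (x : (ℂ × ℝ) × ℝ) : HolM_L σ x = (cj σ x.1.1, x.1.2 / 2) := rfl

/-- the linear map `((z, s), t) ↦ s / 4 + t` -/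
noncomputable def HolM_T : ((ℂ × ℝ) × ℝ) →L[ℝ] ℝ :=
  LinearMap.toContinuousLinearMap
    { toFun := fun x => x.1.2 / 4 + x.2
      map_add' := by
        intro x y
        show (x.1.2 + y.1.2) / 4 + (x.2 + y.2) = (x.1.2 / 4 + x.2) + (y.1.2 / 4 + y.2)
        ring
      map_smul' := by
        intro c x
        show (c * x.1.2) / 4 + c * x.2 = c * (x.1.2 / 4 + x.2)
        ring }

theorem HolM_T_apply (x : (ℂ × ℝ) × ℝ) : HolM_T x = x.1.2 / 4 + x.2 := rfl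

/-- the family -/
noncomputable def HolM_e (β : ℝ → ℂ × ℝ → ℂ × ℝ) (w₀ σ : ℝ) (l : ℝ) (x : (ℂ × ℝ) × ℝ) : (ℂ × ℝ) × ℝ :=
  (β l (thn w₀ (HolM_L σ x)), HolM_T x + 1 / 2)

theorem HolM_id : Emb (id : ℂ × ℝ → ℂ × ℝ) where
  smooth := contDiff_id
  inj := Function.injective_id
  imm q := by
    rw [fderiv_id]
    exact Function.injective_id

theorem HolM_bij {β : ℝ → ℂ × ℝ → ℂ × ℝ} {Y : Set (ℂ × ℝ)} (h : Fam β Y) {w₀ σ : ℝ} (h0 : 0 < w₀)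
    (h1 : w₀ ≤ 1) (hσ : σ = 1 ∨ σ = -1) {l : ℝ} (hl : l ∈ Icc (0 : ℝ) 1) (x : (ℂ × ℝ) × ℝ) :
    Function.Bijective (fderiv ℝ (HolM_e β w₀ σ l) x) := by
  have ht := thn_emb HolM_id h0 h1
  have ht1 : HasFDerivAt (thn w₀) (fderiv ℝ (thn w₀) (HolM_L σ x)) (HolM_L σ x) :=
    (((thn_smooth w₀).differentiable (by simp)) _).hasFDerivAt
  have hβ : ContDiffAt ℝ ∞ (β l) (thn w₀ (HolM_L σ x)) := by
    have h2 := h.smooth l hl (thn w₀ (HolM_L σ x))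
    have h3 : ContDiffAt ℝ ∞ (fun q : ℂ × ℝ => ((l, q) : ℝ × (ℂ × ℝ))) (thn w₀ (HolM_L σ x)) :=
      contDiffAt_const.prodMk contDiffAt_id
    exact h2.comp _ h3
  have hβ1 : HasFDerivAt (β l) (fderiv ℝ (β l) (thn w₀ (HolM_L σ x))) (thn w₀ (HolM_L σ x)) :=
    (hβ.differentiableAt (by simp)).hasFDerivAt
  have hA : HasFDerivAt (fun x => β l (thn w₀ (HolM_L σ x)))
      ((fderiv ℝ (β l) (thn w₀ (HolM_L σ x))).comp
        ((fderiv ℝ (thn w₀) (HolM_L σ x)).comp (HolM_L σ))) x :=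
    hβ1.comp x (ht1.comp x (HolM_L σ).hasFDerivAt)
  have hB : HasFDerivAt (fun x => HolM_T x + 1 / 2) HolM_T x := (HolM_T).hasFDerivAt.add_const _
  have hAB := hA.prodMk hB
  have hfd : fderiv ℝ (HolM_e β w₀ σ l) x = _ := hAB.fderiv
  have hinj : Function.Injective (fderiv ℝ (HolM_e β w₀ σ l) x) := by
    rw [injective_iff_map_eq_zero]
    intro v hv
    rw [hfd] at hv
    have e1 : fderiv ℝ (β l) (thn w₀ (HolM_L σ x)) (fderiv ℝ (thn w₀) (HolM_L σ x) (HolM_L σ v)) = 0 :=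
      congrArg Prod.fst hv
    have e2 : HolM_T v = 0 := congrArg Prod.snd hv
    have e3 : fderiv ℝ (thn w₀) (HolM_L σ x) (HolM_L σ v) = 0 :=
      (injective_iff_map_eq_zero _).1 (h.imm l hl _) _ e1
    have e4 : HolM_L σ v = 0 := (injective_iff_map_eq_zero _).1 (ht.imm _) _ e3
    rw [HolM_L_apply] at e4
    have e5 : cj σ v.1.1 = 0 := congrArg Prod.fst e4
    have e6 : v.1.2 / 2 = 0 := congrArg Prod.snd e4
    rw [HolM_T_apply] at e2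
    have e7 : v.1.2 = 0 := by linarith
    have e8 : v.1.1 = 0 := by
      rw [← norm_eq_zero, ← RSG.cj_norm hσ, e5, norm_zero]
    exact Prod.ext (Prod.ext e8 e7) (by
      show v.2 = 0
      linarith)
  refine ⟨hinj, ?_⟩
  exact (LinearMap.injective_iff_surjective (f := (fderiv ℝ (HolM_e β w₀ σ l) x).toLinearMap)).1 hinj

theorem HolM_inj {β : ℝ → ℂ × ℝ → ℂ × ℝ} {w₀ δ : ℝ} (hw : ThinOK β w₀ δ) {σ : ℝ}
    (hσ : σ = 1 ∨ σ = -1) {l : ℝ} (hl : l ∈ Icc (0 : ℝ) 1) {x x' m : (ℂ × ℝ) × ℝ} (hm : m ∈ HolM_Lam)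
    (hx : ‖x.1.1‖ < 4 ∧ |x.1.2| < 1 ∧ |x.2| < 3 * δ) (hx' : ‖x'.1.1‖ < 4 ∧ |x'.1.2| < 1 ∧ |x'.2| < 3 * δ)
    (he : HolM_e β w₀ σ l x = HolM_e β w₀ σ l x' + m) : x = x' := by
  obtain ⟨n, rfl⟩ := HolM_mem.1 hm
  obtain ⟨a1, a2, a3⟩ := hx
  obtain ⟨b1, b2, b3⟩ := hx'
  have hd := hw.d_le
  have hd0 := hw.d_pos
  have e1 : β l (thn w₀ (HolM_L σ x)) = β l (thn w₀ (HolM_L σ x')) + 0 := congrArg Prod.fst he
  have e2 : HolM_T x + 1 / 2 = HolM_T x' + 1 / 2 + n := congrArg Prod.snd he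
  rw [add_zero] at e1
  rw [HolM_T_apply, HolM_T_apply] at e2
  rw [abs_lt] at a2 a3 b2 b3
  have hn : n = 0 := by
    have h1 : |(n : ℝ)| < 1 := by
      rw [abs_lt]
      constructor <;> linarith
    have h2 : |n| < 1 := by exact_mod_cast h1
    exact Int.abs_lt_one_iff.1 h2
  rw [hn] at e2
  push_cast at e2
  have e3 : HolM_L σ x = HolM_L σ x' := by
    refine hw.inj l hl _ _ ?_ ?_ ?_ e1
    · rw [HolM_L_apply]
      show ‖cj σ x.1.1‖ ≤ 4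
      rw [RSG.cj_norm hσ]
      exact a1.le
    · rw [HolM_L_apply]
      show ‖cj σ x'.1.1‖ ≤ 4
      rw [RSG.cj_norm hσ]
      exact b1.le
    · rw [HolM_L_apply, HolM_L_apply]
      show |x.1.2 / 2 - x'.1.2 / 2| ≤ 16 * δ
      rw [abs_le]
      constructor <;> linarith
  rw [HolM_L_apply, HolM_L_apply] at e3
  have e4 : cj σ x.1.1 = cj σ x'.1.1 := congrArg Prod.fst e3
  have e5 : x.1.2 / 2 = x'.1.2 / 2 := congrArg Prod.snd e3
  have e6 : x.1.1 = x'.1.1 := by rw [← RSG.cj_cj hσ x.1.1, e4, RSG.cj_cj hσ]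
  exact Prod.ext (Prod.ext e6 (by linarith)) (by linarith)

/-- the isotopy in `(ℂ × ℝ) × ℝ` -/
theorem HolM_move {β : ℝ → ℂ × ℝ → ℂ × ℝ} {Y : Set (ℂ × ℝ)} (h : Fam β Y) {w₀ δ : ℝ} (hw : ThinOK β w₀ δ)
    {Mp : Set (ℂ × ℝ)} (hM : ∀ l ∈ Icc (0 : ℝ) 1, ∀ q : ℂ × ℝ, ‖q.1‖ ≤ 4 → |q.2| ≤ 1 / 8 →
      β l (thn w₀ q) ∈ interior Mp) {σ : ℝ} (hσ : σ = 1 ∨ σ = -1) :
    ∃ F : Equiv.Perm ((ℂ × ℝ) × ℝ), ISO.Move HolM_Lam (interior Mp ×ˢ (univ : Set ℝ)) F ∧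
      ∀ x : (ℂ × ℝ) × ℝ, ‖x.1.1‖ ≤ 13 / 4 → |x.1.2| < 1 → |x.2| ≤ 2 * δ →
        F (HolM_e β w₀ σ 0 x) = HolM_e β w₀ σ 1 x := by
  have hd0 := hw.d_pos
  set W : Set ((ℂ × ℝ) × ℝ) := {x | ‖x.1.1‖ < 4 ∧ |x.1.2| < 1 ∧ |x.2| < 3 * δ} with hWd
  set C : Set ((ℂ × ℝ) × ℝ) := (Metric.closedBall (0 : ℂ) (13 / 4) ×ˢ Icc (-(1 / 4) : ℝ) (1 / 4)) ×ˢ
    Icc (-(2 * δ)) (2 * δ) with hCd
  have hC : IsCompact C := ((isCompact_closedBall _ _).prod isCompact_Icc).prod isCompact_Icc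
  have hmC : ∀ x : (ℂ × ℝ) × ℝ, x ∈ C ↔ ‖x.1.1‖ ≤ 13 / 4 ∧ |x.1.2| ≤ 1 / 4 ∧ |x.2| ≤ 2 * δ := by
    intro x
    rw [hCd, mem_prod, mem_prod, mem_closedBall_zero_iff, mem_Icc, mem_Icc, ← abs_le, ← abs_le,
      and_assoc]
  have hCW : C ⊆ W := by
    intro x hx
    obtain ⟨h1, h2, h3⟩ := (hmC x).1 hx
    exact ⟨by linarith, by linarith, by linarith⟩
  have hW : IsOpen W := by
    have h1 : IsOpen {x : (ℂ × ℝ) × ℝ | ‖x.1.1‖ < 4} := isOpen_lt (by fun_prop) continuous_const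
    have h2 : IsOpen {x : (ℂ × ℝ) × ℝ | |x.1.2| < 1} := isOpen_lt (by fun_prop) continuous_const
    have h3 : IsOpen {x : (ℂ × ℝ) × ℝ | |x.2| < 3 * δ} := isOpen_lt (by fun_prop) continuous_const
    exact h1.inter (h2.inter h3)
  have hfixend : ∀ l ∈ Icc (0 : ℝ) 1, ∀ x : (ℂ × ℝ) × ℝ, 1 / 4 ≤ |x.1.2| →
      HolM_e β w₀ σ l x = HolM_e β w₀ σ 0 x := by
    intro l hl x hx
    unfold HolM_e
    rw [h.ends l hl (thn w₀ (HolM_L σ x)) (by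
      show 1 / 8 ≤ |x.1.2 / 2|
      rw [abs_div]
      norm_num
      linarith)]
  obtain ⟨F, Uo, hF, -, hCU, hFU, hst⟩ := ISO.cod0 HolM_lat (Λ' := ⊥) (O := interior Mp ×ˢ (univ : Set ℝ))
    (isOpen_interior.prod isOpen_univ) hW (by
      intro x hx m hm
      rw [AddSubgroup.mem_bot] at hm
      rw [hm, add_zero]
      exact hx) (e := HolM_e β w₀ σ) (by
      intro l hl x _
      have h2 := h.smooth l hl (thn w₀ (HolM_L σ x))
      have h3 : ContDiffAt ℝ ∞ (fun q : ℝ × ((ℂ × ℝ) × ℝ) =>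
          ((q.1, thn w₀ (HolM_L σ q.2)) : ℝ × (ℂ × ℝ))) (l, x) := by
        have h4 : ContDiff ℝ ∞ (fun q : ℝ × ((ℂ × ℝ) × ℝ) => thn w₀ (HolM_L σ q.2)) :=
          (thn_smooth w₀).comp ((HolM_L σ).contDiff.comp contDiff_snd)
        exact (contDiff_fst.prodMk h4).contDiffAt
      have h5 : ContDiff ℝ ∞ (fun q : ℝ × ((ℂ × ℝ) × ℝ) => HolM_T q.2 + 1 / 2) :=
        (HolM_T.contDiff.comp contDiff_snd).add contDiff_const
      exact (ContDiffAt.comp (l, x) h2 h3).prodMk h5.contDiffAt) (by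
      intro m' hm'
      rw [AddSubgroup.mem_bot] at hm'
      refine ⟨0, zero_mem _, fun s _ x _ => ?_⟩
      rw [hm', add_zero, add_zero]) hC hCW (by
      intro l hl x _
      exact HolM_bij h hw.w_pos hw.w_le hσ hl x) (by
      intro l hl x hx x' hx' m hm he
      refine ⟨0, zero_mem _, ?_⟩
      rw [add_zero]
      exact HolM_inj hw hσ hl hm (hCW hx) (hCW hx') he) (by
      intro l hl x hx
      obtain ⟨h1, h2, -⟩ := (hmC x).1 hx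
      refine mem_prod.2 ⟨hM l hl (HolM_L σ x) ?_ ?_, mem_univ _⟩
      · show ‖cj σ x.1.1‖ ≤ 4
        rw [RSG.cj_norm hσ]
        linarith
      · show |x.1.2 / 2| ≤ 1 / 8
        rw [abs_div]
        norm_num
        linarith)
  refine ⟨F, hF, ?_⟩
  intro x h1 h2 h3
  rcases le_or_gt |x.1.2| (1 / 4) with h4 | h4
  · exact hFU x (hCU ((hmC x).2 ⟨h1, h4, h3⟩))
  · have hxW : x ∈ W := ⟨by linarith, h2, by linarith⟩
    rw [hfixend 1 ⟨zero_le_one, le_rfl⟩ x h4.le]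
    apply hst
    intro l hl x' hx' m hm he l' hl'
    rw [← hfixend l hl x h4.le] at he
    have e1 : x' = x := HolM_inj hw hσ hl hm hx' hxW he
    rw [e1] at he
    have e2 : m = 0 := by
      have := he
      rw [left_eq_add] at this
      exact this
    rw [e1, e2, add_zero, hfixend l' hl' x h4.le]

theorem HolM_frc {x δ : ℝ} (h : 1 / 2 - 2 * δ ≤ |frc x|) :
    ∃ (t' : ℝ) (k : ℤ), |t'| ≤ 2 * δ ∧ x = 1 / 2 + t' + k := by
  have h1 : |frc x| ≤ 1 / 2 := abs_sub_round x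
  have h2 : x = frc x + round x := by
    unfold RBM.frc
    ring
  rcases le_or_gt 0 (frc x) with h3 | h3
  · rw [abs_of_nonneg h3] at h h1
    refine ⟨frc x - 1 / 2, round x, ?_, ?_⟩
    · rw [abs_le]
      constructor <;> linarith
    · linarith
  · rw [abs_of_neg h3] at h h1
    refine ⟨frc x + 1 / 2, round x - 1, ?_, ?_⟩
    · rw [abs_le]
      constructor <;> linarith
    · push_cast
      linarith

theorem exists_hole {β : ℝ → ℂ × ℝ → ℂ × ℝ} {Y : Set (ℂ × ℝ)} (h : Fam β Y) {w₀ δ : ℝ} (hw : ThinOK β w₀ δ)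
    {Mp : Set (ℂ × ℝ)} (hM : ∀ l ∈ Icc (0 : ℝ) 1, ∀ q : ℂ × ℝ, ‖q.1‖ ≤ 4 → |q.2| ≤ 1 / 8 →
      β l (thn w₀ q) ∈ interior Mp) {σ : ℝ} (hσ : σ = 1 ∨ σ = -1) :
    ∃ G : Equiv.Perm SP, (∀ p, IsLocalDiffeomorphAt ISP ISP ∞ G p) ∧ (∀ p : SP, p.1 ∉ io '' Mp → G p = p) ∧
      ∀ (z : ℂ) (s t : ℝ), ‖z‖ ≤ 13 / 4 → |s| < 1 → 1 / 2 - 2 * δ ≤ |frc (t - s / 4)| →
        G (half σ (pb fun q => β 0 (thn w₀ q)) (z, s, t)) = half σ (pb fun q => β 1 (thn w₀ q)) (z, s, t) := by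
  obtain ⟨F, hF, hFe⟩ := HolM_move h hw hM hσ
  have hcp : ∀ (t : ℝ) (n : ℤ), circ (t + n) = circ t := by
    intro t n
    rw [circ_add, circ_int, mul_one]
  obtain ⟨G, hG1, hG2, hG3⟩ := ext_perm (P := SP) (IP := ISP) (Λ := HolM_Lam)
    (β := fun q : (ℂ × ℝ) × ℝ => ((io q.1, circ q.2) : SP)) (O := univ) isOpen_univ
    (fun _ _ _ _ => mem_univ _) (by
      intro x _ m hm
      obtain ⟨n, rfl⟩ := HolM_mem.1 hm
      refine Prod.ext ?_ ?_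
      · show io (x.1 + 0) = io x.1
        rw [add_zero]
      · show circ (x.2 + n) = circ x.2
        exact hcp x.2 n) (fun x _ => iot_ld x) (by
      intro x _ x' _ he
      obtain ⟨e1, n, e2⟩ := iot_inj he
      refine ⟨((0 : ℂ × ℝ), (n : ℝ)), HolM_mem.2 ⟨n, rfl⟩, ?_⟩
      refine Prod.ext ?_ ?_
      · show x'.1 = x.1 + 0
        rw [add_zero]
        exact e1
      · exact e2) (hF.mono (subset_univ _))
  refine ⟨G, hG1, ?_, ?_⟩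
  · intro p hp
    by_cases hpol : p.1 = pol
    · apply hG3
      rintro ⟨q, -, hq⟩
      apply io_ne_pol q.1
      rw [← hpol, ← hq]
    · obtain ⟨q, hq⟩ := io_surj hpol
      obtain ⟨t, ht⟩ := circ_surj p.2
      have e : p = (fun q : (ℂ × ℝ) × ℝ => ((io q.1, circ q.2) : SP)) (q, t) :=
        Prod.ext hq.symm ht.symm
      have hfix : F (q, t) = (q, t) := by
        obtain ⟨C, -, hCO, hCf⟩ := hF.supp
        apply hCf
        intro m hm hc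
        obtain ⟨n, rfl⟩ := HolM_mem.1 hm
        have h1 := (mem_prod.1 (hCO hc)).1
        have h2 : q + 0 ∈ Mp := interior_subset h1
        rw [add_zero] at h2
        exact hp ⟨q, h2, hq⟩
      rw [e, hG2 _ (mem_univ _), hfix]
  · intro z s t hz hs ht
    obtain ⟨t', k, h1, h2⟩ := HolM_frc ht
    have e0 : ∀ l : ℝ, half σ (pb fun q => β l (thn w₀ q)) (z, s, t) =
        (fun q : (ℂ × ℝ) × ℝ => ((io q.1, circ q.2) : SP)) (HolM_e β w₀ σ l ((z, s), t')) := by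
      intro l
      refine Prod.ext rfl ?_
      show circ t = circ (s / 4 + t' + 1 / 2)
      rw [← hcp (s / 4 + t' + 1 / 2) k]
      congr 1
      linarith
    rw [e0, e0, hG2 _ (mem_univ _), hFe _ hz hs h1]

end Pool.Agent.KNH
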