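import Pool.Agent.KNH.SwM
import Pool.Agent.KNH.PbM
import Pool.Agent.KNH.FamM

/-!
# KNH/HomM: the hypotheses of the ribbon homotopy theorem   (difficulty 3)

`B i q = β i (thn w₀ q)` (`i = 0, 1`; `Emb` by `fam_emb0, fam_emb1, thn_emb`), `b = half σ (pb B₀)`, `b' = half σ (pb B₁)`:
`half σ b (z, s, t) = b (cj σ z, s / 2, t)`.  `‖cj σ z‖ = ‖z‖`, `cj σ (cj σ z) = z`.  `B₁ q = B₀ q` for `|q.2| ≥ 1/8` (`Fam.ends`, `(thn w₀ q).2 = q.2`).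
* `Box ISP b' 4`: from `pb_box` (any radius; `(z, s, t) ↦ (cj σ z, s/2, t)` is a linear isomorphism preserving `‖z‖`).
* `hends` of `swap_bundle`: `|s| ≥ 1/4` gives `|s/2| ≥ 1/8`.
* `hrest` of `swap_bundle`: let `Rest l`, `κ (l, v, t) = b' (z, s, t') = pb B₁ (z', u, t')`, `z' = cj σ z`, `u = s/2`, `|u| < 1/2`.  By `hr`: (a) `(κ ..).1 ∉ io '' (..)`: then `|u| > 1/4`
  (otherwise it is `io (B₁ (z', u))`), so `B₁ (z', u) = B₀ (z', u)` and `κ (l, v, t) = b (z, s, t')`, contradiction to `hb.rest`.  (b) `κ (l, v, t) = pb B₀ (z₂, s₂, t₂)`,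
  `1/2 ≤ |s₂|`: `= pb B₁ (z₂, s₂, t₂)`, so `(z', u) = (z₂, s₂)` by injectivity (`io_inj`, `B₁`), but `|u| < 1/2`.
* `RibHom`: `tau`: `s / 4`; `G_rest`: `swp = κ` there, and `G (κ ..) = κ ..` by `hG2`: in case (a) clear; in case (b) `(κ ..).1 = io (B₀ (z₂, s₂)) ∉ io '' Mp` by `hMp`, `io_inj`.
  `G_ends`: `1/2 ≤ |s| < 1`: `b (z, s, t) = pb B₀ (cj σ z, s/2, t)`, `1/4 ≤ |s/2| < 1/2`: not in `io '' Mp` by `hMp`, so `G` fixes it, and it is `b' (z, s, t)`.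
  `G_hole`: `hG3`.
-/

open scoped Manifold ContDiff Topology
open Set Filter
open Complex (I)
open Pool.Agent.CSG (stp)
open Pool.Agent.RSG (E4 S3 S4 ex cj pS3)
open Pool.Agent.RBM (ThickT TwinP OnT Box Bundle frc)
open Pool.Agent.PTH (SP ISP Act Carries)
open Pool.Agent.COR (Equi EquiB TwoStrands half)
open Pool.Agent.KNT (Dom BalC Tubes Str)
open Pool.Agent.CLG (io pol)

namespace Pool.Agent.KNH

/-- the linear isomorphism of `half` -/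
noncomputable def HomM_L (σ : ℝ) (hσ : σ = 1 ∨ σ = -1) : (ℂ × ℝ × ℝ) ≃ (ℂ × ℝ × ℝ) where
  toFun q := (cj σ q.1, q.2.1 / 2, q.2.2)
  invFun q := (cj σ q.1, 2 * q.2.1, q.2.2)
  left_inv q := by
    obtain ⟨z, s, t⟩ := q
    refine Prod.ext (RSG.cj_cj hσ z) (Prod.ext ?_ rfl)
    show 2 * (s / 2) = s
    ring
  right_inv q := by
    obtain ⟨z, s, t⟩ := q
    refine Prod.ext (RSG.cj_cj hσ z) (Prod.ext ?_ rfl)
    show 2 * s / 2 = s
    ring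

theorem HomM_half {EP : Type*} [NormedAddCommGroup EP] [NormedSpace ℝ EP] {HP : Type*}
    [TopologicalSpace HP] {J : ModelWithCorners ℝ EP HP} {P : Type*} [TopologicalSpace P]
    [ChartedSpace HP P] {b : ℂ × ℝ × ℝ → P} (hb : Box J b 4) {σ : ℝ} (hσ : σ = 1 ∨ σ = -1) :
    Box J (half σ b) 4 where
  per z s t := hb.per _ _ _
  loc z s t hz hs := by
    have h1 : IsLocalDiffeomorphAt 𝓘(ℝ, ℂ × ℝ × ℝ) 𝓘(ℝ, ℂ × ℝ × ℝ) ∞ (HomM_L σ hσ) (z, s, t) := by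
      refine CSG.ld_of_perm ?_ ?_ _
      · show ContDiff ℝ ∞ fun q : ℂ × ℝ × ℝ => (cj σ q.1, q.2.1 / 2, q.2.2)
        exact ((RSG.cj_smooth σ).comp contDiff_fst).prodMk (by fun_prop)
      · show ContDiff ℝ ∞ fun q : ℂ × ℝ × ℝ => (cj σ q.1, 2 * q.2.1, q.2.2)
        exact ((RSG.cj_smooth σ).comp contDiff_fst).prodMk (by fun_prop)
    have h2 : IsLocalDiffeomorphAt 𝓘(ℝ, ℂ × ℝ × ℝ) J ∞ (b ∘ HomM_L σ hσ) (z, s, t) := by
      refine IsLocalDiffeomorphAt.comp (hf := h1) (hg := ?_) ..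
      refine hb.loc _ _ _ ?_ ?_
      · rw [RSG.cj_norm hσ]
        exact hz
      · rw [abs_div]
        norm_num
        linarith [abs_nonneg s]
    exact h2
  inj z s t z' s' t' hz hs hz' hs' he := by
    have h2 : ∀ s : ℝ, |s| < 1 → |s / 2| < 1 := by
      intro s hs
      rw [abs_div]
      norm_num
      linarith [abs_nonneg s]
    obtain ⟨e1, e2, m, e3⟩ := hb.inj _ _ _ _ _ _ (by rwa [RSG.cj_norm hσ]) (h2 s hs)
      (by rwa [RSG.cj_norm hσ]) (h2 s' hs') he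
    refine ⟨?_, by linarith, m, e3⟩
    rw [← RSG.cj_cj hσ z, e1, RSG.cj_cj hσ]

theorem rib_hom {β : ℝ → ℂ × ℝ → ℂ × ℝ} {Y : Set (ℂ × ℝ)} (h : Fam β Y) {w₀ δ : ℝ} (hw : ThinOK β w₀ δ)
    {Mp : Set (ℂ × ℝ)}
    (hMp : ∀ q : ℂ × ℝ, ‖q.1‖ ≤ 5 → 1 / 4 ≤ |q.2| → |q.2| ≤ 1 → β 0 (thn w₀ q) ∉ Mp)
    {σ ε₁ ε₂ : ℝ} (hσ : σ = 1 ∨ σ = -1) {κ : ℝ × ℂ × ℝ → SP}
    (hb : Bundle ISP κ (half σ (pb fun q => β 0 (thn w₀ q))) ε₁ ε₂)
    (hr : ∀ (l : ℝ) (v : ℂ) (t : ℝ), ‖v‖ < 1 → RBH.Rest l →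
      (κ (l, v, t)).1 ∉ io '' (Mp ∪ (fun q => β 1 (thn w₀ q)) '' {q | ‖q.1‖ ≤ 5 ∧ |q.2| ≤ 1 / 4}) ∨
      ∃ (z : ℂ) (s t' : ℝ), ‖z‖ < 4 ∧ 1 / 2 ≤ |s| ∧ |s| < 1 ∧
        κ (l, v, t) = pb (fun q => β 0 (thn w₀ q)) (z, s, t'))
    {G : Equiv.Perm SP} (hG1 : ∀ p, IsLocalDiffeomorphAt ISP ISP ∞ G p)
    (hG2 : ∀ p : SP, p.1 ∉ io '' Mp → G p = p)
    (hG3 : ∀ (z : ℂ) (s t : ℝ), ‖z‖ ≤ 13 / 4 → |s| < 1 → 1 / 2 - 2 * δ ≤ |frc (t - s / 4)| →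
        G (half σ (pb fun q => β 0 (thn w₀ q)) (z, s, t)) = half σ (pb fun q => β 1 (thn w₀ q)) (z, s, t)) :
    RBH.RibHom ISP κ
      (swp (half σ (pb fun q => β 0 (thn w₀ q))) (half σ (pb fun q => β 1 (thn w₀ q))) κ)
      (half σ (pb fun q => β 0 (thn w₀ q))) (half σ (pb fun q => β 1 (thn w₀ q))) ε₁ ε₂ (fun s => s / 4) δ G := by
  have hE1 : Emb fun q => β 1 (thn w₀ q) := thn_emb (fam_emb1 h) hw.w_pos hw.w_le
  have hB' : Box ISP (half σ (pb fun q => β 1 (thn w₀ q))) 4 := HomM_half (pb_box hE1 4) hσ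
  -- the two charts agree for `1/8 ≤ |u|`
  have hag : ∀ q : ℂ × ℝ, 1 / 8 ≤ |q.2| → β 1 (thn w₀ q) = β 0 (thn w₀ q) := by
    intro q hq
    exact h.ends 1 ⟨zero_le_one, le_rfl⟩ (thn w₀ q) hq
  have hagp : ∀ (z : ℂ) (s t : ℝ), 1 / 8 ≤ |s| →
      pb (fun q => β 1 (thn w₀ q)) (z, s, t) = pb (fun q => β 0 (thn w₀ q)) (z, s, t) := by
    intro z s t hs
    unfold pb
    simp only
    rw [hag (z, s) hs]
  have habs : ∀ s : ℝ, |s / 2| = |s| / 2 := by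
    intro s
    rw [abs_div]
    norm_num
  have hends : ∀ (z : ℂ) (s t : ℝ), ‖z‖ < 4 → 1 / 4 ≤ |s| → |s| < 1 →
      half σ (pb fun q => β 1 (thn w₀ q)) (z, s, t) = half σ (pb fun q => β 0 (thn w₀ q)) (z, s, t) := by
    intro z s t _ hs _
    refine hagp _ _ _ ?_
    rw [habs]
    linarith
  have hrest : ∀ (l : ℝ) (v : ℂ) (t : ℝ), ‖v‖ < 1 → RBH.Rest l → ∀ (z : ℂ) (s t' : ℝ), ‖z‖ < 4 → |s| < 1 →
      κ (l, v, t) ≠ half σ (pb fun q => β 1 (thn w₀ q)) (z, s, t') := by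
    intro l v t hv hl z s t' hz hs he
    have he' : κ (l, v, t) = pb (fun q => β 1 (thn w₀ q)) (cj σ z, s / 2, t') := he
    rcases hr l v t hv hl with h1 | ⟨z₂, s₂, t₂, h2, h3, h4, h5⟩
    · have h6 : 1 / 4 < |s / 2| := by
        by_contra hc
        apply h1
        refine ⟨β 1 (thn w₀ (cj σ z, s / 2)), Or.inr ⟨(cj σ z, s / 2), ⟨?_, not_lt.1 hc⟩, rfl⟩, ?_⟩
        · show ‖cj σ z‖ ≤ 5
          rw [RSG.cj_norm hσ]
          linarith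
        · rw [he']
          rfl
      refine hb.rest l v t hv hl z s t' hz hs ?_
      rw [he', hagp _ _ _ (by linarith)]
      rfl
    · rw [h5, ← hagp _ _ _ (by linarith)] at he'
      have h6 : io (β 1 (thn w₀ (z₂, s₂))) = io (β 1 (thn w₀ (cj σ z, s / 2))) := congrArg Prod.fst he'
      have h7 := hE1.inj (io_inj h6)
      have h8 : s₂ = s / 2 := congrArg Prod.snd h7
      rw [h8, habs] at h3
      linarith
  obtain ⟨hbun', hRest⟩ := swap_bundle hb hB' hends hrest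
  have hfix : ∀ (z : ℂ) (s t : ℝ), ‖z‖ ≤ 5 → 1 / 4 ≤ |s| → |s| ≤ 1 →
      G (pb (fun q => β 0 (thn w₀ q)) (z, s, t)) = pb (fun q => β 0 (thn w₀ q)) (z, s, t) := by
    intro z s t hz hs hs1
    apply hG2
    rintro ⟨m, hm, hm'⟩
    have h1 : m = β 0 (thn w₀ (z, s)) := io_inj hm'
    rw [h1] at hm
    exact hMp (z, s) hz hs hs1 hm
  exact
    { bun := hb
      bun' := hbun'
      tau := contDiff_id.div_const 4
      pos := hw.d_pos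
      G_ld := hG1
      G_rest := by
        intro l v t hv hl
        rw [hRest l v t hv hl]
        rcases hr l v t hv hl with h1 | ⟨z₂, s₂, t₂, h2, h3, h4, h5⟩
        · apply hG2
          rintro ⟨m, hm, hm'⟩
          exact h1 ⟨m, Or.inl hm, hm'⟩
        · rw [h5]
          exact hfix z₂ s₂ t₂ (by linarith) (by linarith) h4.le
      G_ends := by
        intro z s t hz hs hs1
        rw [hends z s t hz (by linarith) hs1]
        refine hfix _ _ _ ?_ ?_ ?_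
        · rw [RSG.cj_norm hσ]
          linarith
        · rw [habs]
          linarith
        · rw [habs]
          linarith
      G_hole := hG3 }

end Pool.Agent.KNH
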