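import Pool.Agent.KNH.DicM
import Pool.Agent.KNH.IoM
import Pool.Agent.CLG.A0m

/-!
# KNH/LonM: from a thick knot of `S3` to a long knot
-/

open scoped Manifold ContDiff Topology
open Set Filter
open Complex (I)
open Pool.Agent.CSG (stp)
open Pool.Agent.RSG (E4 S3 S4 ex cj pS3)
open Pool.Agent.RBM (ThickT TwinP OnT Box Bundle frc)
open Pool.Agent.PTH (SP ISP Act Carries)
open Pool.Agent.COR (Equi EquiB TwoStrands half)
open Pool.Agent.KNT (Dom BalC Tubes Str)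
open Pool.Agent.CLG (io pol)

namespace Pool.Agent.KNH

theorem embS_of_thick {κ : ℝ × ℂ → S3} (h : RSG.Thick κ) : CLG.EmbS fun l => κ (l, 0) := by
  have hld : ∀ l : ℝ, IsLocalDiffeomorphAt 𝓘(ℝ, ℝ × ℂ) (𝓡 3) ∞ κ (l, 0) := fun l => h.loc l 0 (by simp)
  have hj : ∀ l : ℝ, ContMDiffAt 𝓘(ℝ, ℝ) 𝓘(ℝ, ℝ × ℂ) ∞ (fun l : ℝ => ((l, 0) : ℝ × ℂ)) l := fun l =>
    (contDiff_id.prodMk contDiff_const).contMDiff.contMDiffAt
  have hs : ContMDiff 𝓘(ℝ, ℝ) (𝓡 3) ∞ fun l => κ (l, 0) := by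
    intro l
    exact ContMDiffAt.comp l (hld l).contMDiffAt (hj l)
  refine ⟨hs, fun l => h.per l 0, ?_, ?_⟩
  · intro l l' he
    exact (h.inj l 0 l' 0 (by simp) (by simp) he).2
  · intro l
    have hl := hld l
    rw [CLG.emb_imm_iff (hs l)]
    -- the local inverse
    intro hz
    have h2 := hl.localInverse_contMDiffAt
    have h3 : ∀ᶠ q in 𝓝 ((l, 0) : ℝ × ℂ), (hl.localInverse ∘ κ) q = id q := hl.localInverse_eventuallyEq_left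
    have h4 : (fun x : ℝ => hl.localInverse (κ (x, 0))) =ᶠ[𝓝 l] fun x => (x, 0) := by
      have h5 : ContinuousAt (fun x : ℝ => ((x, 0) : ℝ × ℂ)) l := by fun_prop
      filter_upwards [h5.eventually h3] with x hx using hx
    have h6 : mfderiv 𝓘(ℝ, ℝ) 𝓘(ℝ, ℝ × ℂ) (fun x : ℝ => hl.localInverse (κ (x, 0))) l =
        mfderiv 𝓘(ℝ, ℝ) 𝓘(ℝ, ℝ × ℂ) (fun x : ℝ => ((x, 0) : ℝ × ℂ)) l := h4.mfderiv_eq
    have h7 : mfderiv 𝓘(ℝ, ℝ) 𝓘(ℝ, ℝ × ℂ) (fun x : ℝ => hl.localInverse (κ (x, 0))) l =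
        (mfderiv (𝓡 3) 𝓘(ℝ, ℝ × ℂ) hl.localInverse (κ (l, 0))).comp
          (mfderiv 𝓘(ℝ, ℝ) (𝓡 3) (fun x => κ (x, 0)) l) :=
      mfderiv_comp l (h2.mdifferentiableAt (by simp)) ((hs l).mdifferentiableAt (by simp))
    have h8 : mfderiv 𝓘(ℝ, ℝ) 𝓘(ℝ, ℝ × ℂ) (fun x : ℝ => ((x, 0) : ℝ × ℂ)) l (1 : ℝ) = ((1, 0) : ℝ × ℂ) := by
      rw [mfderiv_eq_fderiv]
      have h9 : HasFDerivAt (fun x : ℝ => ((x, 0) : ℝ × ℂ))
          ((ContinuousLinearMap.id ℝ ℝ).prod (0 : ℝ →L[ℝ] ℂ)) l :=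
        (hasFDerivAt_id l).prodMk (hasFDerivAt_const (0 : ℂ) l)
      rw [h9.fderiv]
      rfl
    have h10 := congrArg (fun L => L (1 : ℝ)) (h6.symm.trans h7)
    have h11 : ((1, 0) : ℝ × ℂ) = 0 := by
      rw [← h8]
      refine h10.trans ?_
      show (mfderiv (𝓡 3) 𝓘(ℝ, ℝ × ℂ) hl.localInverse (κ (l, 0)))
        ((mfderiv 𝓘(ℝ, ℝ) (𝓡 3) (fun x => κ (x, 0)) l) (1 : ℝ)) = 0
      rw [hz, map_zero]
    exact one_ne_zero (congrArg Prod.fst h11)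

theorem range_LC (k : ℝ → ℂ × ℝ) : range (CLG.LC k) = Hat (range k) := by
  classical
  ext x
  constructor
  · rintro ⟨l, rfl⟩
    unfold CLG.LC
    split_ifs with hl
    · left; rfl
    · right; exact ⟨_, mem_range_self _, rfl⟩
  · rintro (rfl | ⟨_, ⟨s, rfl⟩, rfl⟩)
    · refine ⟨0, ?_⟩
      unfold CLG.LC
      rw [if_pos ⟨0, by simp⟩]
    · refine ⟨CLG.act s, ?_⟩
      have h1 := CLG.act_mem s
      have h2 : ¬ ∃ m : ℤ, CLG.act s = m := by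
        rintro ⟨m, hm⟩
        rw [hm] at h1
        have h3 : (0 : ℤ) < m := by exact_mod_cast h1.1
        have h4 : m < (1 : ℤ) := by exact_mod_cast h1.2
        omega
      unfold CLG.LC
      rw [if_neg h2, CLG.ct_act]

theorem exists_long {κ : ℝ × ℂ → S3} (h : RSG.Thick κ) {n j : ℤ} {X : Type*} [TopologicalSpace X]
    [ChartedSpace E4 X] (hX : RSG.IsRollGluck κ n j X) : ∃ K, KNT.LongK K ∧ IsX K X := by
  obtain ⟨Φ, T, k, hT, hk, hΦ⟩ := CLG.A0 (embS_of_thick h)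
  refine ⟨range k, ⟨k, hk.smooth, hk.inj, hk.imm, ⟨T, hk.line⟩, rfl⟩, ?_⟩
  obtain ⟨D⟩ := hX
  have h1 := RSG.diffeo_data D Φ
  have h2 := dic.2 h1
  have ht : RSG.Thick (Φ ∘ κ) := by
    refine ⟨fun l v => ?_, fun l v hv => ?_, fun l v l' v' hv hv' he => ?_⟩
    · show Φ (κ (l + 1, v)) = Φ (κ (l, v))
      rw [h.per]
    · exact IsLocalDiffeomorphAt.comp (hf := h.loc l v hv) (hg := Φ.isLocalDiffeomorph _) ..
    · exact h.inj l v l' v' hv hv' (Φ.injective he)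
  refine ⟨CLG.LC k, n, range_LC k, prd (Φ ∘ κ), j, prd_thick ht, prd_equi _, ?_, h2⟩
  intro l
  show ((Φ (κ (l, 0)), circ 0) : SP) = (CLG.LC k l, 1)
  rw [← hΦ l, circ_zero]

end Pool.Agent.KNH
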