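import Pool.Agent.KNH.BxM

/-!
# KNH/MpM: a compact neighbourhood of the moving part   (difficulty 2)

`Mv = {β l (thn w₀ q) | l ∈ [0, 1], ‖q.1‖ ≤ 4, |q.2| ≤ 1/8}` is compact (image of a compact set under a continuous map: `Fam.smooth`,
`thn_smooth`), `T' = {β 0 (thn w₀ q) | ‖q.1‖ ≤ 5, 1/4 ≤ |q.2| ≤ 1}` is compact, hence closed.  `Mv` is disjoint from `T` (`hTd`; `(thn w₀ q).2 = q.2`) and from
`T'` (`Fam.sep`).  `exists_compact_between` in the open set `(T ∪ T')ᶜ`.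
-/

open scoped Manifold ContDiff Topology
open Set Filter
open Complex (I)
open Pool.Agent.CSG (stp)
open Pool.Agent.RSG (E4 S3 S4 ex cj pS3)
open Pool.Agent.RBM (ThickT TwinP OnT Box Bundle frc)
open Pool.Agent.PTH (SP ISP Act Carries)
open Pool.Agent.COR (Equi EquiB TwoStrands half)
open Pool.Agent.KNT (Dom BalC Tubes Str)
open Pool.Agent.CLG (io pol)

namespace Pool.Agent.KNH

theorem MpM_cont {β : ℝ → ℂ × ℝ → ℂ × ℝ} {Y : Set (ℂ × ℝ)} (h : Fam β Y) (w₀ : ℝ) :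
    ContinuousOn (fun p : ℝ × (ℂ × ℝ) => β p.1 (thn w₀ p.2)) (Icc (0 : ℝ) 1 ×ˢ (univ : Set (ℂ × ℝ))) := by
  intro p hp
  have h1 : ContinuousAt (fun p : ℝ × (ℂ × ℝ) => β p.1 p.2) (p.1, thn w₀ p.2) :=
    (h.smooth p.1 hp.1 (thn w₀ p.2)).continuousAt
  have h2 : Continuous fun p : ℝ × (ℂ × ℝ) => (p.1, thn w₀ p.2) :=
    continuous_fst.prodMk ((thn_smooth w₀).continuous.comp continuous_snd)
  have h3 : ContinuousAt ((fun p : ℝ × (ℂ × ℝ) => β p.1 p.2) ∘ fun p : ℝ × (ℂ × ℝ) => (p.1, thn w₀ p.2)) p :=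
    ContinuousAt.comp (f := fun p : ℝ × (ℂ × ℝ) => (p.1, thn w₀ p.2))
      (g := fun p : ℝ × (ℂ × ℝ) => β p.1 p.2) h1 h2.continuousAt
  exact h3.continuousWithinAt

theorem exists_Mp {β : ℝ → ℂ × ℝ → ℂ × ℝ} {Y : Set (ℂ × ℝ)} (h : Fam β Y) (w₀ : ℝ) {T : Set (ℂ × ℝ)}
    (hT : IsClosed T) (hTd : ∀ l ∈ Icc (0 : ℝ) 1, ∀ q : ℂ × ℝ, |q.2| ≤ 1 / 8 → β l q ∉ T) :
    ∃ Mp : Set (ℂ × ℝ), IsCompact Mp ∧ (∀ l ∈ Icc (0 : ℝ) 1, ∀ q : ℂ × ℝ, ‖q.1‖ ≤ 4 → |q.2| ≤ 1 / 8 →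
      β l (thn w₀ q) ∈ interior Mp) ∧ Disjoint Mp T ∧
      ∀ q : ℂ × ℝ, ‖q.1‖ ≤ 5 → 1 / 4 ≤ |q.2| → |q.2| ≤ 1 → β 0 (thn w₀ q) ∉ Mp := by
  have hc := MpM_cont h w₀
  have hball : ∀ r : ℝ, IsCompact {z : ℂ | ‖z‖ ≤ r} := by
    intro r
    have : {z : ℂ | ‖z‖ ≤ r} = Metric.closedBall (0 : ℂ) r := by
      ext z; simp
    rw [this]
    exact isCompact_closedBall _ _
  have habs : ∀ r : ℝ, IsCompact {u : ℝ | |u| ≤ r} := by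
    intro r
    have : {u : ℝ | |u| ≤ r} = Icc (-r) r := by
      ext u; simp [abs_le]
    rw [this]
    exact isCompact_Icc
  have hshell : IsCompact {u : ℝ | 1 / 4 ≤ |u| ∧ |u| ≤ 1} := by
    refine (habs 1).of_isClosed_subset ?_ (fun u hu => hu.2)
    exact (isClosed_le continuous_const continuous_abs).inter (isClosed_le continuous_abs continuous_const)
  set A : Set (ℝ × (ℂ × ℝ)) := Icc (0 : ℝ) 1 ×ˢ ({z : ℂ | ‖z‖ ≤ 4} ×ˢ {u : ℝ | |u| ≤ 1 / 8}) with hA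
  have hAc : IsCompact A := isCompact_Icc.prod ((hball 4).prod (habs (1 / 8)))
  set B : Set (ℝ × (ℂ × ℝ)) := ({0} : Set ℝ) ×ˢ ({z : ℂ | ‖z‖ ≤ 5} ×ˢ {u : ℝ | 1 / 4 ≤ |u| ∧ |u| ≤ 1}) with hB
  have hBc : IsCompact B := isCompact_singleton.prod ((hball 5).prod hshell)
  set F : ℝ × (ℂ × ℝ) → ℂ × ℝ := fun p => β p.1 (thn w₀ p.2) with hF
  have hAi : IsCompact (F '' A) := hAc.image_of_continuousOn (hc.mono fun p hp => ⟨hp.1, mem_univ _⟩)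
  have hBi : IsCompact (F '' B) := hBc.image_of_continuousOn (hc.mono fun p hp => by
    refine ⟨?_, mem_univ _⟩
    have : p.1 = 0 := hp.1
    rw [this]
    exact ⟨le_refl _, zero_le_one⟩)
  have hopen : IsOpen ((T ∪ F '' B)ᶜ) := (hT.union hBi.isClosed).isOpen_compl
  have hsub : F '' A ⊆ (T ∪ F '' B)ᶜ := by
    rintro x ⟨p, hp, rfl⟩ hx
    rcases hx with hx | ⟨p', hp', he⟩
    · exact hTd p.1 hp.1 (thn w₀ p.2) hp.2.2 hx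
    · have h0 : p'.1 = 0 := hp'.1
      have he' : β p.1 (thn w₀ p.2) = β 0 (thn w₀ p'.2) := by
        have : F p' = F p := he
        simp only [hF, h0] at this
        exact this.symm
      exact h.sep p.1 hp.1 (thn w₀ p.2) (thn w₀ p'.2) hp.2.2 hp'.2.2.1 he'
  obtain ⟨Mp, hMc, hM1, hM2⟩ := exists_compact_between hAi hopen hsub
  refine ⟨Mp, hMc, ?_, ?_, ?_⟩
  · intro l hl q hq1 hq2
    exact hM1 ⟨(l, q), ⟨hl, hq1, hq2⟩, rfl⟩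
  · rw [Set.disjoint_left]
    intro x hx hxT
    exact hM2 hx (Or.inl hxT)
  · intro q hq1 hq2 hq3 hx
    exact hM2 hx (Or.inr ⟨(0, q), ⟨rfl, hq1, hq2, hq3⟩, rfl⟩)

end Pool.Agent.KNH
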