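import Pool.Agent.KNH.QDef
import Pool.Agent.COR.Frm
import Pool.Agent.COR.CorB

/-!
# KNH/RevQ: reversal of the core, and thick tori with the same core

`rev_twin`: a `TwinP` for `κ`, `n`, `j` gives one for `κ (-l, v, t)`, `-n`, `j`: `A' = A`, `Q' z = Q (c1 z, c2 z, - ht z)`
(`fh` is conjugated).
-/

open scoped Manifold ContDiff Topology
open Set Filter
open Complex (I)
open Pool.Agent.RSG (E4 S3 S4 ex c1 c2 ht fh cj)
open Pool.Agent.RBM (ThickT TwinP OnT)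
open Pool.Agent.PTH (SP ISP Act)
open Pool.Agent.COR (Equi)

namespace Pool.Agent.KNH

universe u

section
variable {EP : Type*} [NormedAddCommGroup EP] [NormedSpace ℝ EP] {HP : Type*} [TopologicalSpace HP]
  {IP : ModelWithCorners ℝ EP HP} {P : Type*} [TopologicalSpace P] [ChartedSpace HP P]
  {κ : ℝ × ℂ × ℝ → P} {X : Type u} [TopologicalSpace X] [ChartedSpace E4 X] {n j : ℤ}

/-- the symmetry of the twin which fixes the angles of the spheres -/
noncomputable def RevQ_sw (z : S4) : S4 :=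
  Pool.Agent.RSG.pS4 (c1 z) (c2 z) (-ht z)

theorem RevQ_coord (z : S4) : c1 (RevQ_sw z) = c1 z ∧
    c2 (RevQ_sw z) = c2 z ∧ ht (RevQ_sw z) = -ht z := by
  refine Pool.Agent.RSG.pS4_c ?_
  rw [neg_sq]
  have h1 := Pool.Agent.RSG.S4_sq z
  linarith

theorem RevQ_fh (z : S4) : fh (RevQ_sw z) = (starRingEnd ℂ) (fh z) := by
  obtain ⟨h1, h2, h3⟩ := RevQ_coord z
  unfold fh
  rw [h1, h2, h3]
  apply Complex.ext
  · simp
  · simp

theorem RevQ_inv (z : S4) : RevQ_sw (RevQ_sw z) = z := by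
  obtain ⟨h1, h2, h3⟩ := RevQ_coord z
  obtain ⟨h4, h5, h6⟩ := RevQ_coord (RevQ_sw z)
  refine Pool.Agent.RSG.S4_ext ?_ ?_ ?_
  · rw [h4, h1]
  · rw [h5, h2]
  · rw [h6, h3, neg_neg]

theorem RevQ_smooth (z : S4) : ContMDiffAt (𝓡 4) (𝓡 4) ∞ RevQ_sw z := by
  have hn : ContMDiff 𝓘(ℝ, ℝ) 𝓘(ℝ, ℝ) ∞ (fun w : ℝ => -w) :=
    contMDiff_iff_contDiff.2 contDiff_neg
  refine Pool.Agent.RSG.pS4_smooth (Pool.Agent.RSG.c1_smooth z)
    (Pool.Agent.RSG.c2_smooth z)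
    (hn.contMDiffAt.comp z (Pool.Agent.RSG.ht_smooth z)) ?_
  rw [neg_sq]
  have h1 := Pool.Agent.RSG.S4_sq z
  linarith

theorem RevQ_ld (z : S4) : IsLocalDiffeomorphAt (𝓡 4) (𝓡 4) ∞ RevQ_sw z :=
  Pool.Agent.RSG.ld_two (g := RevQ_sw) (Eventually.of_forall RevQ_smooth)
    (Eventually.of_forall RevQ_smooth) (Eventually.of_forall RevQ_inv)
    (Eventually.of_forall RevQ_inv)

omit [TopologicalSpace P] in
theorem RevQ_on (κ : ℝ × ℂ × ℝ → P) (p : P) :
    OnT (fun q => κ (-q.1, q.2)) p ↔ OnT κ p := by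
  unfold OnT
  constructor
  · rintro ⟨l, t, h⟩
    exact ⟨_, t, h⟩
  · rintro ⟨l, t, h⟩
    refine ⟨-l, t, ?_⟩
    show p = κ (- -l, 0, t)
    rw [neg_neg]
    exact h

theorem rev_twin (D : TwinP IP κ n j X) :
    Nonempty (TwinP IP (fun q => κ (-q.1, q.2)) (-n) j X) := by
  have hf6 : ∀ {z : S4}, fh z ≠ 0 → fh (RevQ_sw z) ≠ 0 := by
    intro z hz
    rw [RevQ_fh]
    exact (map_ne_zero _).2 hz
  refine ⟨{ A := D.A
            Q := fun z => D.Q (RevQ_sw z)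
            A_loc := ?_
            A_inj := ?_
            Q_loc := ?_
            Q_inj := ?_
            glue := ?_
            disj := ?_
            cover := ?_ }⟩
  · intro p hp
    exact D.A_loc p (fun h => hp ((RevQ_on κ p).2 h))
  · intro p p' hp hp' he
    exact D.A_inj p p' (fun h => hp ((RevQ_on κ p).2 h)) (fun h => hp' ((RevQ_on κ p').2 h)) he
  · intro z hz
    exact IsLocalDiffeomorphAt.comp (hf := RevQ_ld z) (g := D.Q) (hg := D.Q_loc _ (hf6 hz))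
  · intro z z' hz hz' he
    have h1 := D.Q_inj _ _ (hf6 hz) (hf6 hz') he
    rw [← RevQ_inv z, h1, RevQ_inv]
  · intro z l m t hf h1 h2 e1 e2 e3
    obtain ⟨b1, b2, b3⟩ := RevQ_coord z
    have key := D.glue (RevQ_sw z) (-l) m t (hf6 hf)
      (by rw [b1]; exact h1) (by rw [b2]; exact h2)
      (by rw [b1]; exact e1)
      (by rw [b2]; exact e2)
      (by
        rw [RevQ_fh, RCLike.norm_conj, Pool.Agent.RSG.MirM_conj_ex e3]
        congr 2
        push_cast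
        ring)
    rw [key, b1, b2]
  · intro z p hf hz hp
    obtain ⟨b1, b2, b3⟩ := RevQ_coord z
    refine D.disj _ p (hf6 hf) ?_ (fun h => hp ((RevQ_on κ p).2 h))
    rw [b1, b2]
    exact hz
  · intro q
    rcases D.cover q with ⟨p, h1, h2⟩ | ⟨z, h1, h2⟩
    · exact Or.inl ⟨p, fun h => h1 ((RevQ_on κ p).1 h), h2⟩
    · refine Or.inr ⟨RevQ_sw z, hf6 h1, ?_⟩
      rw [RevQ_inv]
      exact h2

theorem rev_thick (hκ : ThickT IP κ) : ThickT IP (fun q => κ (-q.1, q.2)) where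
  perl := fun l v t => by
    show κ (-(l + 1), v, t) = κ (-l, v, t)
    have h1 := hκ.perl (-(l + 1)) v t
    rw [← h1]
    congr 2
    ring
  pert := fun l v t => hκ.pert _ _ _
  loc := fun l v t hv => by
    have hg : ContDiff ℝ ∞ (fun q : ℝ × ℂ × ℝ => (-q.1, q.2)) := contDiff_fst.neg.prodMk contDiff_snd
    have h1 : IsLocalDiffeomorphAt 𝓘(ℝ, ℝ × ℂ × ℝ) 𝓘(ℝ, ℝ × ℂ × ℝ) ∞
        (fun q : ℝ × ℂ × ℝ => (-q.1, q.2)) (l, v, t) := by
      refine Pool.Agent.RSG.ld_two (g := fun q : ℝ × ℂ × ℝ => (-q.1, q.2))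
        (Eventually.of_forall fun y => contMDiffAt_iff_contDiffAt.2 hg.contDiffAt)
        (Eventually.of_forall fun y => contMDiffAt_iff_contDiffAt.2 hg.contDiffAt)
        (Eventually.of_forall fun y => ?_) (Eventually.of_forall fun y => ?_)
      · obtain ⟨a, b, c⟩ := y
        simp
      · obtain ⟨a, b, c⟩ := y
        simp
    exact IsLocalDiffeomorphAt.comp (hf := h1) (g := κ) (hg := hκ.loc (-l) v t hv)
  inj := fun l v t l' v' t' hv hv' he => by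
    obtain ⟨h1, ⟨m, hm⟩, h3⟩ := hκ.inj (-l) v t (-l') v' t' hv hv' he
    refine ⟨h1, ⟨-m, ?_⟩, h3⟩
    push_cast
    linarith

end

/-- reversal -/
theorem QS_rev {κ : ℝ × ℂ × ℝ → SP} (h : QS κ) : QS (fun q => κ (-q.1, q.2)) := by
  intro n j
  obtain ⟨D⟩ := h (-n) j
  have h1 := rev_twin D
  rw [neg_neg] at h1
  exact h1

/-- reparametrisation -/
theorem QS_rep {κ : ℝ × ℂ × ℝ → SP} (hκ : ThickT ISP κ) (h : QS κ) {φ : ℝ → ℝ} (hφ : ContDiff ℝ ∞ φ)
    (hφ1 : ∀ l, φ (l + 1) = φ l + 1) (hφ' : ∀ l, 0 < deriv φ l) : QS (fun q => κ (φ q.1, q.2)) := by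
  intro n j
  obtain ⟨D⟩ := h n j
  exact COR.rep hκ hφ hφ1 hφ' D

/-- the same core -/
theorem QS_core {a : ℝ → SP → SP} (ha : Act ISP a) {κ κ' : ℝ × ℂ × ℝ → SP} (hκ : ThickT ISP κ)
    (he : Equi a κ) (hκ' : ThickT ISP κ') (he' : Equi a κ')
    (hcore : ∀ l, κ' (l, 0, 0) = κ (l, 0, 0)) (h : QS κ) : QS κ' := by
  obtain ⟨k, σ, hσ, hk⟩ := COR.core_eq ha hκ he hκ' he' hcore (φ := fun l => l) contDiff_id
    (fun l => rfl)
  intro n j
  rcases hσ with rfl | rfl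
  · obtain ⟨D⟩ := hk S4 n (j - k * n) (h n _)
    simp only [COR.CorB_cj_one] at D
    have h1 := COR.frame hκ' k D
    rw [sub_add_cancel] at h1
    exact h1
  · obtain ⟨D⟩ := hk S4 n (1 - j - k * n) (h n _)
    simp only [COR.CorB_cj_neg] at D
    have hb := COR.CorB_thick hκ'
    obtain ⟨D1⟩ := COR.frame hb k D
    obtain ⟨D2⟩ := COR.mirror0 hb D1
    simp only [Complex.conj_conj] at D2
    rw [sub_add_cancel, sub_sub_cancel] at D2
    exact ⟨D2⟩

end Pool.Agent.KNH
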