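import Pool.Agent.KNH.StrM
import Pool.Agent.KNH.RevQ

/-!
# KNH/RepC: closed curves with the same image

`κ`, `κ'` thick tori with cores `(c, 1)`, `(c', 1)`, `range c = range c'`: then `c' l = c (ε g l)`, `g` smooth, increasing,
`g (l + 1) = g l + 1`.
-/

open scoped Manifold ContDiff Topology
open Set Filter
open Complex (I)
open Pool.Agent.RSG (E4 S3 S4 ex cj pS3)
open Pool.Agent.RBM (ThickT TwinP OnT)
open Pool.Agent.PTH (SP ISP Act)
open Pool.Agent.COR (Equi)

namespace Pool.Agent.KNH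

/-- a continuous function whose values are integers is constant -/
theorem RepC_int {f : ℝ → ℝ} (hf : Continuous f) (h : ∀ u, ∃ m : ℤ, f u = m) : ∃ m : ℤ, ∀ u, f u = m := by
  obtain ⟨m, hm⟩ := h 0
  refine ⟨m, fun u => ?_⟩
  by_contra hne
  obtain ⟨m', hm'⟩ := h u
  rw [hm'] at hne
  have hmm : m' ≠ m := fun e => hne (by rw [e])
  -- a value strictly between
  have key : ∀ x y : ℝ, f x < f y → (∃ a : ℤ, f x = a) → (∃ a : ℤ, f y = a) → False := by
    rintro x y hxy ⟨a, ha⟩ ⟨b, hb⟩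
    have hab : a < b := by rw [ha, hb] at hxy; exact_mod_cast hxy
    have h1 : (a : ℝ) + 1 ≤ b := by exact_mod_cast hab
    obtain ⟨p, hp⟩ := mem_range_of_exists_le_of_exists_ge hf (c := (a : ℝ) + 1 / 2)
      ⟨x, by rw [ha]; linarith⟩ ⟨y, by rw [hb]; linarith⟩
    obtain ⟨e, he⟩ := h p
    rw [he] at hp
    have h2 : (2 : ℝ) * e = 2 * a + 1 := by rw [hp]; ring
    have h3 : 2 * e = 2 * a + 1 := by exact_mod_cast h2
    omega
  rcases lt_or_gt_of_ne hne with h1 | h1
  · exact key u 0 (by rw [hm', hm]; exact h1) ⟨_, hm'⟩ ⟨_, hm⟩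
  · exact key 0 u (by rw [hm', hm]; exact h1) ⟨_, hm⟩ ⟨_, hm'⟩

/-- the lift of a closed curve is smooth -/
theorem RepC_smooth {κ κ' : ℝ × ℂ × ℝ → SP} (hκ : ThickT ISP κ) (hκ' : ThickT ISP κ') {c c' : ℝ → S3}
    (hc : ∀ l, κ (l, 0, 0) = (c l, 1)) (hc' : ∀ l, κ' (l, 0, 0) = (c' l, 1)) {f : ℝ → ℝ}
    (hf : Continuous f) (h : ∀ u, c (f u) = c' u) : ContDiff ℝ ∞ f := by
  rw [contDiff_iff_contDiffAt]
  intro u₀
  obtain ⟨g, hg1, hg2⟩ := StrM_inv (hκ.loc (f u₀) 0 0 (by simp))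
  have e1 : ContMDiffAt 𝓘(ℝ, ℝ) ISP ∞ (fun u : ℝ => ((c' u, 1) : SP)) u₀ :=
    (StrM_csmooth hκ' hc' u₀).prodMk contMDiffAt_const
  have e0 : κ (f u₀, 0, 0) = ((c' u₀, 1) : SP) := by rw [hc, h]
  rw [e0] at hg1
  have e2 : ContMDiffAt 𝓘(ℝ, ℝ) 𝓘(ℝ, ℝ × ℂ × ℝ) ∞ (fun u : ℝ => g ((c' u, 1) : SP)) u₀ :=
    ContMDiffAt.comp (g := g) (f := fun u : ℝ => ((c' u, 1) : SP)) u₀ hg1 e1
  have e3 : ContDiffAt ℝ ∞ (fun u : ℝ => (g ((c' u, 1) : SP)).1) u₀ :=
    (contMDiffAt_iff_contDiffAt.1 e2).fst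
  refine e3.congr_of_eventuallyEq ?_
  have e4 : Continuous fun u : ℝ => ((f u, 0, 0) : ℝ × ℂ × ℝ) :=
    hf.prodMk continuous_const
  filter_upwards [e4.continuousAt.eventually hg2] with u hu
  rw [← h, ← hc, hu]

theorem RepC_per {κ : ℝ × ℂ × ℝ → SP} (hκ : ThickT ISP κ) {c : ℝ → S3}
    (hc : ∀ l, κ (l, 0, 0) = (c l, 1)) : ∀ l, c (l + 1) = c l := by
  intro l
  have h1 := hκ.perl l 0 0
  rw [hc, hc] at h1
  exact (Prod.ext_iff.1 h1).1

theorem RepC_inj {κ : ℝ × ℂ × ℝ → SP} (hκ : ThickT ISP κ) {c : ℝ → S3}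
    (hc : ∀ l, κ (l, 0, 0) = (c l, 1)) : ∀ l l', c l = c l' → ∃ m : ℤ, l' = l + m := by
  intro l l' h1
  have h2 : κ (l, 0, 0) = κ (l', 0, 0) := by rw [hc, hc, h1]
  exact (hκ.inj l 0 0 l' 0 0 (by simp) (by simp) h2).2.1

/-- closed curves with the same image -/
theorem same_image {κ κ' : ℝ × ℂ × ℝ → SP} (hκ : ThickT ISP κ) (hκ' : ThickT ISP κ') {c c' : ℝ → S3}
    (hc : ∀ l, κ (l, 0, 0) = (c l, 1)) (hc' : ∀ l, κ' (l, 0, 0) = (c' l, 1))
    (hr : range c = range c') :
    ∃ (g : ℝ → ℝ) (ε : ℝ), (ε = 1 ∨ ε = -1) ∧ ContDiff ℝ ∞ g ∧ (∀ l, g (l + 1) = g l + 1) ∧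
      (∀ l, 0 < deriv g l) ∧ ∀ l, c' l = c (ε * g l) := by
  have hcc : Continuous c := (StrM_csmooth hκ hc).continuous
  have hcc' : Continuous c' := (StrM_csmooth hκ' hc').continuous
  have hp := RepC_per hκ hc
  have hp' := RepC_per hκ' hc'
  have hi := RepC_inj hκ hc
  have hi' := RepC_inj hκ' hc'
  obtain ⟨f, hf, hfe⟩ := StrM_lift hcc hcc' hp hi (fun u => by
    have : c' u ∈ range c := hr ▸ mem_range_self u
    exact this)
  obtain ⟨f', hf', hfe'⟩ := StrM_lift hcc' hcc hp' hi' (fun u => by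
    have : c u ∈ range c' := hr ▸ mem_range_self u
    exact this)
  have hs := RepC_smooth hκ hκ' hc hc' hf hfe
  have hs' := RepC_smooth hκ' hκ hc' hc hf' hfe'
  -- the compositions
  obtain ⟨a, ha⟩ := RepC_int (f := fun u => f (f' u) - u) ((hf.comp hf').sub continuous_id) (fun u => by
    obtain ⟨m, hm⟩ := hi u (f (f' u)) (by rw [hfe, hfe'])
    exact ⟨m, by rw [hm]; ring⟩)
  obtain ⟨b, hb⟩ := RepC_int (f := fun u => f' (f u) - u) ((hf'.comp hf).sub continuous_id) (fun u => by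
    obtain ⟨m, hm⟩ := hi' u (f' (f u)) (by rw [hfe', hfe])
    exact ⟨m, by rw [hm]; ring⟩)
  have ha' : ∀ u, f (f' u) = u + a := fun u => by linarith [ha u]
  have hb' : ∀ u, f' (f u) = u + b := fun u => by linarith [hb u]
  -- the degrees
  obtain ⟨d, hd⟩ := RepC_int (f := fun u => f (u + 1) - f u)
    ((hf.comp (continuous_id.add continuous_const)).sub hf) (fun u => by
    obtain ⟨m, hm⟩ := hi (f u) (f (u + 1)) (by rw [hfe, hfe, hp'])
    exact ⟨m, by rw [hm]; ring⟩)
  obtain ⟨d', hd'⟩ := RepC_int (f := fun u => f' (u + 1) - f' u)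
    ((hf'.comp (continuous_id.add continuous_const)).sub hf') (fun u => by
    obtain ⟨m, hm⟩ := hi' (f' u) (f' (u + 1)) (by rw [hfe', hfe', hp])
    exact ⟨m, by rw [hm]; ring⟩)
  have hd1 : ∀ u, f (u + 1) = f u + d := fun u => by linarith [hd u]
  have hd1' : ∀ u, f' (u + 1) = f' u + d' := fun u => by linarith [hd' u]
  have hdm : ∀ (m : ℤ) u, f (u + m) = f u + d * m := by
    intro m
    induction m using Int.induction_on with
    | zero => intro u; simp
    | succ m ih =>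
      intro u
      have h1 := hd1 (u + m)
      have h2 := ih u
      push_cast at h2 ⊢
      rw [show u + ((m : ℝ) + 1) = u + m + 1 by ring, h1, h2]
      ring
    | pred m ih =>
      intro u
      have h1 := hd1 (u + (-m - 1))
      have h2 := ih u
      push_cast at h2 ⊢
      rw [show u + (-(m : ℝ) - 1) + 1 = u + -m by ring, h2] at h1
      linarith
  have hdd : d * d' = 1 := by
    have h1 := ha' (0 + 1)
    rw [hd1', hdm, ha'] at h1
    have h2 : (d : ℝ) * d' = 1 := by linarith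
    exact_mod_cast h2
  have hinj : Function.Injective f := by
    intro x y hxy
    have h1 := hb' x
    have h2 := hb' y
    rw [hxy, h2] at h1
    linarith
  -- the derivative
  have hder : ∀ l, deriv f l ≠ 0 := by
    intro l h0
    have h1 : HasDerivAt f (deriv f l) l := (hs.differentiable (by simp) l).hasDerivAt
    have h2 : HasDerivAt f' (deriv f' (f l)) (f l) := (hs'.differentiable (by simp) _).hasDerivAt
    have h3 := h2.comp l h1
    rw [h0, mul_zero] at h3
    have h4 : f' ∘ f = fun u : ℝ => u + (b : ℝ) := funext hb'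
    rw [h4] at h3
    have h5 : HasDerivAt (fun u : ℝ => u + (b : ℝ)) 1 l := (hasDerivAt_id l).add_const _
    exact zero_ne_one (h3.unique h5)
  have hd1 : d = 1 ∨ d = -1 := by
    have := Int.isUnit_iff.1 (IsUnit.of_mul_eq_one (b := d') hdd)
    exact this
  rcases hf.strictMono_of_inj hinj with hm | hm
  · have hpos : (0 : ℝ) < d := by
      have h1 := hm (show (0 : ℝ) < 0 + 1 by norm_num)
      have h2 := hd 0
      linarith
    have hdo : d = 1 := by
      rcases hd1 with h | h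
      · exact h
      · rw [h] at hpos
        norm_num at hpos
    refine ⟨f, 1, Or.inl rfl, hs, fun l => ?_, fun l => ?_, fun l => ?_⟩
    · have h2 := hd l
      rw [hdo] at h2
      push_cast at h2
      linarith
    · exact lt_of_le_of_ne (hm.monotone.deriv_nonneg) (hder l).symm
    · rw [one_mul, hfe]
  · have hneg : (d : ℝ) < 0 := by
      have h1 := hm (show (0 : ℝ) < 0 + 1 by norm_num)
      have h2 := hd 0
      linarith
    have hdo : d = -1 := by
      rcases hd1 with h | h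
      · rw [h] at hneg
        norm_num at hneg
      · exact h
    refine ⟨fun l => -f l, -1, Or.inr rfl, hs.neg, fun l => ?_, fun l => ?_, fun l => ?_⟩
    · have h2 := hd l
      rw [hdo] at h2
      push_cast at h2
      simp only at h2 ⊢
      linarith
    · have h1 : HasDerivAt f (deriv f l) l := (hs.differentiable (by simp) l).hasDerivAt
      have h2 : HasDerivAt (fun l => -f l) (-deriv f l) l := h1.neg
      have hm' : StrictMono fun u : ℝ => -f u := fun x y hxy => neg_lt_neg (hm hxy)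
      refine lt_of_le_of_ne (hm'.monotone.deriv_nonneg) ?_
      rw [h2.deriv]
      intro h3
      exact hder l (by linarith)
    · rw [show (-1 : ℝ) * -f l = f l by ring, hfe]

/-- `QS` depends only on the image of the core -/
theorem QS_image {κ κ' : ℝ × ℂ × ℝ → SP} (hκ : ThickT ISP κ) (he : Equi rot κ) (hκ' : ThickT ISP κ')
    (he' : Equi rot κ') {c c' : ℝ → S3}
    (hc : ∀ l, κ (l, 0, 0) = (c l, 1)) (hc' : ∀ l, κ' (l, 0, 0) = (c' l, 1))
    (hr : range c = range c') (h : QS κ) : QS κ' := by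
  obtain ⟨g, ε, hε, hg, hg1, hg', hcg⟩ := same_image hκ hκ' hc hc' hr
  rcases hε with rfl | rfl
  · refine QS_core rot_act (COR.thick_rep hκ hg hg1 hg') ?_ hκ' he' ?_ (QS_rep hκ h hg hg1 hg')
    · intro l v t
      exact he (g l) v t
    · intro l
      show κ' (l, 0, 0) = κ (g l, 0, 0)
      rw [hc, hc', hcg, one_mul]
  · have hκr := rev_thick hκ
    have hr := QS_rev h
    refine QS_core rot_act (COR.thick_rep hκr hg hg1 hg') ?_ hκ' he' ?_ (QS_rep hκr hr hg hg1 hg')
    · intro l v t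
      exact he (-g l) v t
    · intro l
      show κ' (l, 0, 0) = κ (-g l, 0, 0)
      rw [hc, hc', hcg, neg_one_mul]

end Pool.Agent.KNH
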