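import Pool.Agent.KNH.RibSQ
import Pool.Agent.KNH.ThnQ
import Pool.Agent.KNH.FouRQ

/-!
# KNH/RibMQ: invariance of `IsQ` under `LEq` (assembly)
-/

open scoped Manifold ContDiff Topology
open Set Filter
open Complex (I)
open Pool.Agent.CSG (stp)
open Pool.Agent.RSG (E4 S3 S4 ex cj pS3)
open Pool.Agent.RBM (ThickT TwinP OnT Box Bundle frc)
open Pool.Agent.PTH (SP ISP Act Carries)
open Pool.Agent.COR (Equi EquiB TwoStrands half)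
open Pool.Agent.KNT (Dom BalC Tubes Str)
open Pool.Agent.CLG (io pol)

namespace Pool.Agent.KNH

universe u

theorem isQ_rib {Q : (ℝ × ℂ × ℝ → SP) → Prop} (hQ : Mono.{u} Q) {b : ℝ → ℂ × ℝ → ℂ × ℝ} (hb : Tubes b)
    {Z : Set (ℂ × ℝ)} (hZ : ∀ l ∈ Icc (0 : ℝ) 1, Disjoint Z (b l '' Dom))
    (h : IsQ Q (Z ∪ b 0 '' Str)) : IsQ Q (Z ∪ b 1 '' Str) := by
  rw [str_eq] at h ⊢
  have hf := fam_bx hb hb.sep hZ
  have i0 : (0 : ℝ) ∈ Icc (0 : ℝ) 1 := ⟨le_rfl, zero_le_one⟩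
  have i1 : (1 : ℝ) ∈ Icc (0 : ℝ) 1 := ⟨zero_le_one, le_rfl⟩
  obtain ⟨w₀, δ, hw⟩ := exists_thin hf
  have h1 := (isQ_thin hQ (fam_emb0 hf) (hf.dis 0 i0) hw.w_pos hw.w_le).1 h
  have h2 := rib_stepQ hQ hf hw h1
  have h3 := (isQ_thin hQ (fam_emb1 hf) (hf.dis 1 i1) hw.w_pos hw.w_le).2 h2
  rw [rem_eq hb]
  exact h3

/-- the reversed family -/
theorem rev_tubes {b : ℝ → ℂ × ℝ → ℂ × ℝ} (hb : Tubes b) : Tubes (fun l => b (1 - l)) := by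
  have hm : ∀ l ∈ Icc (0 : ℝ) 1, 1 - l ∈ Icc (0 : ℝ) 1 := fun l hl => ⟨by linarith [hl.2], by linarith [hl.1]⟩
  have i1 : (1 : ℝ) ∈ Icc (0 : ℝ) 1 := ⟨zero_le_one, le_rfl⟩
  refine ⟨?_, fun l hl q hq => hb.imm _ (hm l hl) q hq, ?_, ?_, ?_, ?_⟩
  · intro l hl q hq
    have h1 := hb.smooth _ (hm l hl) q hq
    have h2 : ContDiffAt ℝ ∞ (fun p : ℝ × (ℂ × ℝ) => (1 - p.1, p.2)) (l, q) :=
      (contDiffAt_const.sub contDiffAt_fst).prodMk contDiffAt_snd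
    exact ContDiffAt.comp (l, q) h1 h2
  · intro l hl q hq hs
    simp only [sub_zero]
    rw [hb.ends _ (hm l hl) q hq hs, hb.ends 1 i1 q hq hs]
  · simpa using hb.inj1
  · simpa using hb.inj0
  · intro l hl q hq h1 q' hq' h2
    simp only [sub_zero]
    rw [hb.ends 1 i1 q' hq' (by linarith)]
    exact hb.sep _ (hm l hl) q hq h1 q' hq' h2

theorem isQ_rib_iff {Q : (ℝ × ℂ × ℝ → SP) → Prop} (hQ : Mono.{u} Q) {b : ℝ → ℂ × ℝ → ℂ × ℝ}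
    (hb : Tubes b) {Z : Set (ℂ × ℝ)}
    (hZ : ∀ l ∈ Icc (0 : ℝ) 1, Disjoint Z (b l '' Dom)) :
    IsQ Q (Z ∪ b 0 '' Str) ↔ IsQ Q (Z ∪ b 1 '' Str) := by
  refine ⟨isQ_rib hQ hb hZ, fun h => ?_⟩
  have h1 := isQ_rib hQ (rev_tubes hb) (Z := Z)
    (fun l hl => hZ _ ⟨by linarith [hl.2], by linarith [hl.1]⟩)
  simp only [sub_zero, sub_self] at h1
  exact h1 h

end Pool.Agent.KNH
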