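import Pool.Agent.KNH.PbM

/-!
# KNH/StrM: the two strands of a knot in a chart   (difficulty 3)

Notation: `c l = (κ (l, 0, 0)).1`; `c (l + 1) = c l`; `c l = c l'` iff `l - l' ∈ ℤ` (`ThickT.inj`, `perl`).
(1) LIFT.  `g₀ : ℝ / ℤ → SP`, `g₀ [l] = (c l, 1)` is continuous and injective, `ℝ / ℤ` (`AddCircle (1 : ℝ)`) is compact, so it is an
embedding; its range contains `(io (β (1, u)), 1)` for all `u` (`hS`), so `u ↦ g₀⁻¹ (io (β (1, u)), 1)` is a continuous map `ℝ → AddCircle 1`; it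
lifts to a continuous `f : ℝ → ℝ` (`AddCircle.isCoveringMap_coe`, `IsCoveringMap.existsUnique_continuousMap_lifts`, `ℝ` is simply connected
and locally path connected): `c (f u) = io (β (1, u))` for all `u`.
(2) SMOOTH.  At `u₀`: `κ` is a local diffeomorphism at `(f u₀, 0, 0)`, `κ (f u, 0, 0) = (io (β (1, u)), 1) = pb β (1, u, 0)`, so
`(f u, 0, 0) = κ⁻¹ (pb β (1, u, 0))` near `u₀` (local inverse; `f` is continuous), hence `f` is smooth; and `(1, u, 0) = (pb β)⁻¹ (κ (f u, 0, 0))`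
with smooth local inverse of `pb β` (`pb_box`): the derivative of the right side is `f' u * (..)`, so `f' u ≠ 0`.  `f'` is continuous, so it
has constant sign `ε₁`: put `f₁ u = f (ε₁ u)`, `f₁' > 0`.  The same for `-1`: `f₂`, `ε₂`.
(3) ORDER.  `f₂ u' - f₁ u` is never an integer (`io`, `β` injective: `β (1, ..) ≠ β (-1, ..)`); replace `f₂` by `f₂ + m` so that
`f₂ 0 - f₁ 0 ∈ (0, 1)`; by connectedness of `ℝ × ℝ` (intermediate value theorem) `0 < f₂ u' - f₁ u < 1` for all `u, u'`.  This gives `ord₁, ord₂`.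
Also `f₁ u - f₁ u'` is not an integer for `u ≠ u'`; hence `|f₁ u - f₁ u'| < 1` for all `u, u'` (intermediate values; the value at `u = u'` is
`0`).
(4) OFF.  Let `0 < s`, `f₁ s ≤ l ≤ f₂ (-s)` or `f₂ s ≤ l ≤ f₁ (-s) + 1`, and `c l = io (β (z, u))`.  By `hS` `z = ±1`.  If `z = 1`: `c l = c (f₁ (ε₁ u))`,
`l = f₁ (ε₁ u) + m`; suppose `|u| < s`; then `f₁ (-s) < l - m < f₁ s`; with `f₁ s ≤ l ≤ f₁ (-s) + 1` (from (3) `f₂ (-s) < f₁ (-s) + 1`, `f₁ s < f₂ s`)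
this gives `m > 0` and `m < 1`: contradiction.  The same for `z = -1` with `f₂ s - 1 < f₁ s ≤ l`, .. : `f₂ (-s) < l - m < f₂ s` and
(`f₂ s - 1 < l ≤ f₂ (-s)` or `f₂ s ≤ l < f₂ (-s) + 1`).
`TwoStrands.off` is the case `s = 1` of (4) (the box is `|s| < 1`; `K l = (c l, 1) = (io (β ..), circ t)`).
-/

open scoped Manifold ContDiff Topology
open Set Filter
open Complex (I)
open Pool.Agent.CSG (stp)
open Pool.Agent.RSG (E4 S3 S4 ex cj pS3)
open Pool.Agent.RBM (ThickT TwinP OnT Box Bundle frc)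
open Pool.Agent.PTH (SP ISP Act Carries)
open Pool.Agent.COR (Equi EquiB TwoStrands half)
open Pool.Agent.KNT (Dom BalC Tubes Str)
open Pool.Agent.CLG (io pol)

namespace Pool.Agent.KNH

theorem StrM_inv {E : Type*} [NormedAddCommGroup E] [NormedSpace ℝ E] {E' : Type*}
    [NormedAddCommGroup E'] [NormedSpace ℝ E'] {H' : Type*} [TopologicalSpace H']
    {J : ModelWithCorners ℝ E' H'} {N : Type*} [TopologicalSpace N] [ChartedSpace H' N]
    {f : E → N} {x : E} (h : IsLocalDiffeomorphAt 𝓘(ℝ, E) J ∞ f x) :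
    ∃ g : N → E, ContMDiffAt J 𝓘(ℝ, E) ∞ g (f x) ∧ ∀ᶠ y in 𝓝 x, g (f y) = y := by
  obtain ⟨Φ, hx, he⟩ := h
  refine ⟨Φ.toPartialEquiv.symm, ?_, ?_⟩
  · have h1 : f x ∈ Φ.target := by
      rw [he hx]
      exact Φ.toPartialEquiv.map_source hx
    exact (Φ.contMDiffOn_invFun _ h1).contMDiffAt (Φ.open_target.mem_nhds h1)
  · filter_upwards [Φ.open_source.mem_nhds hx] with y hy
    rw [he hy]
    exact Φ.toPartialEquiv.left_inv hy

theorem StrM_lift {c γ : ℝ → S3} (hc : Continuous c) (hγ : Continuous γ)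
    (hper : ∀ l, c (l + 1) = c l) (hinj : ∀ l l', c l = c l' → ∃ m : ℤ, l' = l + m)
    (h : ∀ u, ∃ l, c l = γ u) : ∃ f : ℝ → ℝ, Continuous f ∧ ∀ u, c (f u) = γ u := by
  have hp : Function.Periodic c 1 := hper
  let cb : AddCircle (1 : ℝ) → S3 := hp.lift
  have hcb : ∀ l : ℝ, cb (l : AddCircle (1 : ℝ)) = c l := fun l => hp.lift_coe l
  have hcont : Continuous cb := continuous_coinduced_dom.2 hc
  have hi : Function.Injective cb := by
    intro x y hxy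
    obtain ⟨l, rfl⟩ := QuotientAddGroup.mk_surjective x
    obtain ⟨l', rfl⟩ := QuotientAddGroup.mk_surjective y
    obtain ⟨m, hm⟩ := hinj l l' hxy
    rw [hm]
    refine (QuotientAddGroup.eq).2 ?_
    rw [AddSubgroup.mem_zmultiples_iff]
    exact ⟨m, by simp⟩
  have hemb := (hcont.isClosedEmbedding hi).isEmbedding
  have hr : ∀ u, ∃ a, cb a = γ u := fun u => by
    obtain ⟨l, hl⟩ := h u
    exact ⟨(l : AddCircle (1 : ℝ)), by rw [hcb, hl]⟩
  choose G hG using hr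
  have hGc : Continuous G := by
    rw [hemb.continuous_iff]
    have : cb ∘ G = γ := funext hG
    rw [this]
    exact hγ
  obtain ⟨l0, hl0⟩ := QuotientAddGroup.mk_surjective (G 0)
  obtain ⟨F, ⟨-, hF⟩, -⟩ := (AddCircle.isCoveringMap_coe (1 : ℝ)).existsUnique_continuousMap_lifts
    ⟨G, hGc⟩ 0 l0 hl0
  refine ⟨F, F.continuous, fun u => ?_⟩
  have h1 : ((F u : ℝ) : AddCircle (1 : ℝ)) = G u := congrFun hF u
  rw [← hcb, h1, hG]

theorem StrM_csmooth {κ : ℝ × ℂ × ℝ → SP} (hκ : ThickT ISP κ) {c : ℝ → S3}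
    (hc : ∀ l, κ (l, 0, 0) = (c l, 1)) : ContMDiff 𝓘(ℝ, ℝ) (𝓡 3) ∞ c := by
  intro l
  have h1 : ContMDiffAt 𝓘(ℝ, ℝ × ℂ × ℝ) ISP ∞ κ (l, 0, 0) :=
    (hκ.loc l 0 0 (by simp)).contMDiffAt
  have h2 : ContDiff ℝ ∞ fun l : ℝ => ((l, 0, 0) : ℝ × ℂ × ℝ) :=
    contDiff_id.prodMk contDiff_const
  have h3 : ContMDiffAt 𝓘(ℝ, ℝ) ISP ∞ (fun l : ℝ => κ (l, 0, 0)) l :=
    ContMDiffAt.comp (g := κ) (f := fun l : ℝ => ((l, 0, 0) : ℝ × ℂ × ℝ)) l h1
      h2.contDiffAt.contMDiffAt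
  have h4 : ContMDiffAt 𝓘(ℝ, ℝ) (𝓡 3) ∞ (fun l : ℝ => (κ (l, 0, 0)).1) l :=
    ContMDiffAt.comp (g := fun p : SP => p.1) (f := fun l : ℝ => κ (l, 0, 0)) l
      contMDiffAt_fst h3
  refine h4.congr_of_eventuallyEq (Eventually.of_forall fun l => ?_)
  show c l = (κ (l, 0, 0)).1
  rw [hc]

theorem StrM_smooth {κ : ℝ × ℂ × ℝ → SP} (hκ : ThickT ISP κ) {c : ℝ → S3}
    (hc : ∀ l, κ (l, 0, 0) = (c l, 1)) {β : ℂ × ℝ → ℂ × ℝ} (hβ : Emb β) {z : ℂ} {f : ℝ → ℝ}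
    (hf : Continuous f) (h : ∀ u, c (f u) = io (β (z, u))) :
    ContDiff ℝ ∞ f ∧ ∀ u, deriv f u ≠ 0 := by
  have hio : ∀ u, ContMDiffAt 𝓘(ℝ, ℝ) (𝓡 3) ∞ (fun u : ℝ => io (β (z, u))) u := by
    intro u
    have h2 : ContDiff ℝ ∞ fun u : ℝ => β (z, u) :=
      hβ.smooth.comp (contDiff_const.prodMk contDiff_id)
    exact ContMDiffAt.comp (g := io) (f := fun u : ℝ => β (z, u)) u (io_ld _).contMDiffAt
      h2.contDiffAt.contMDiffAt
  have hs : ContDiff ℝ ∞ f := by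
    rw [contDiff_iff_contDiffAt]
    intro u₀
    obtain ⟨g, hg1, hg2⟩ := StrM_inv (hκ.loc (f u₀) 0 0 (by simp))
    have e1 : ContMDiffAt 𝓘(ℝ, ℝ) ISP ∞ (fun u : ℝ => ((io (β (z, u)), 1) : SP)) u₀ :=
      (hio u₀).prodMk contMDiffAt_const
    have e0 : κ (f u₀, 0, 0) = ((io (β (z, u₀)), 1) : SP) := by rw [hc, h]
    rw [e0] at hg1
    have e2 : ContMDiffAt 𝓘(ℝ, ℝ) 𝓘(ℝ, ℝ × ℂ × ℝ) ∞ (fun u : ℝ => g ((io (β (z, u)), 1) : SP)) u₀ :=
      ContMDiffAt.comp (g := g) (f := fun u : ℝ => ((io (β (z, u)), 1) : SP)) u₀ hg1 e1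
    have e3 : ContDiffAt ℝ ∞ (fun u : ℝ => (g ((io (β (z, u)), 1) : SP)).1) u₀ :=
      (contMDiffAt_iff_contDiffAt.1 e2).fst
    refine e3.congr_of_eventuallyEq ?_
    have e4 : Continuous fun u : ℝ => ((f u, 0, 0) : ℝ × ℂ × ℝ) :=
      hf.prodMk continuous_const
    filter_upwards [e4.continuousAt.eventually hg2] with u hu
    rw [← h, ← hc, hu]
  refine ⟨hs, fun u₀ hd => ?_⟩
  obtain ⟨g, hg1, hg2⟩ := StrM_inv (io_ld (β (z, u₀)))
  obtain ⟨k, hk1, hk2⟩ := StrM_inv (emb_ld hβ (z, u₀))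
  have hβ0 : g (io (β (z, u₀))) = β (z, u₀) := hg2.self_of_nhds
  have e1 : ContMDiffAt 𝓘(ℝ, ℝ) 𝓘(ℝ, ℂ × ℝ) ∞ (fun l : ℝ => g (c l)) (f u₀) := by
    refine ContMDiffAt.comp (g := g) (f := c) (f u₀) ?_ (StrM_csmooth hκ hc _)
    rw [h]
    exact hg1
  have e2 : ContMDiffAt 𝓘(ℝ, ℝ) 𝓘(ℝ, ℂ × ℝ) ∞ (fun l : ℝ => k (g (c l))) (f u₀) := by
    refine ContMDiffAt.comp (g := k) (f := fun l : ℝ => g (c l)) (f u₀) ?_ e1
    show ContMDiffAt 𝓘(ℝ, ℂ × ℝ) 𝓘(ℝ, ℂ × ℝ) ∞ k (g (c (f u₀)))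
    rw [h, hβ0]
    exact hk1
  have e3 : ContDiffAt ℝ ∞ (fun l : ℝ => (k (g (c l))).2) (f u₀) :=
    (contMDiffAt_iff_contDiffAt.1 e2).snd
  have e4 : HasDerivAt (fun l : ℝ => (k (g (c l))).2)
      (deriv (fun l : ℝ => (k (g (c l))).2) (f u₀)) (f u₀) :=
    (e3.differentiableAt (by simp)).hasDerivAt
  have e5 : HasDerivAt f (deriv f u₀) u₀ := (hs.differentiable (by simp) u₀).hasDerivAt
  have e6 := e4.comp u₀ e5
  rw [hd, mul_zero] at e6
  have c1 : Continuous fun u : ℝ => ((z, u) : ℂ × ℝ) := continuous_const.prodMk continuous_id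
  have c2 : Continuous fun u : ℝ => β (z, u) := hβ.smooth.continuous.comp c1
  have e7 : ∀ᶠ u in 𝓝 u₀, ((fun l : ℝ => (k (g (c l))).2) ∘ f) u = u := by
    filter_upwards [c2.continuousAt.eventually hg2, c1.continuousAt.eventually hk2] with u h1 h2
    show (k (g (c (f u)))).2 = u
    rw [h, h1, h2]
  have e8 : HasDerivAt (fun u : ℝ => u) 0 u₀ :=
    e6.congr_of_eventuallyEq (by filter_upwards [e7] with u hu using hu.symm)
  exact one_ne_zero ((hasDerivAt_id' u₀).unique e8)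

/-- one strand, increasing -/
theorem StrM_one {κ : ℝ × ℂ × ℝ → SP} (hκ : ThickT ISP κ) {c : ℝ → S3}
    (hc : ∀ l, κ (l, 0, 0) = (c l, 1)) (hper : ∀ l, c (l + 1) = c l)
    (hinj : ∀ l l', c l = c l' → ∃ m : ℤ, l' = l + m) {β : ℂ × ℝ → ℂ × ℝ} (hβ : Emb β) {z : ℂ}
    (hS : ∀ u, ∃ l, c l = io (β (z, u))) :
    ∃ (f : ℝ → ℝ) (ε : ℝ), (ε = 1 ∨ ε = -1) ∧ ContDiff ℝ ∞ f ∧ (∀ u, 0 < deriv f u) ∧
      ∀ u, c (f u) = io (β (z, ε * u)) := by
  have hcc : Continuous c := (StrM_csmooth hκ hc).continuous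
  have hγ : Continuous fun u : ℝ => io (β (z, u)) := by
    rw [continuous_iff_continuousAt]
    intro u
    have h2 : Continuous fun u : ℝ => β (z, u) :=
      hβ.smooth.continuous.comp (continuous_const.prodMk continuous_id)
    exact ContinuousAt.comp (g := io) (f := fun u : ℝ => β (z, u))
      (io_ld _).contMDiffAt.continuousAt h2.continuousAt
  obtain ⟨f, hf, hfe⟩ := StrM_lift hcc hγ hper hinj hS
  obtain ⟨hs, hd⟩ := StrM_smooth hκ hc hβ hf hfe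
  have hi : Function.Injective f := by
    intro u u' huu
    have h1 : io (β (z, u)) = io (β (z, u')) := by rw [← hfe, ← hfe, huu]
    have h2 := hβ.inj (io_inj h1)
    exact (Prod.ext_iff.1 h2).2
  rcases hf.strictMono_of_inj hi with hm | hm
  · refine ⟨f, 1, Or.inl rfl, hs, fun u => ?_, fun u => ?_⟩
    · exact lt_of_le_of_ne (hm.monotone.deriv_nonneg) (hd u).symm
    · rw [one_mul, hfe]
  · refine ⟨fun u => f (-u), -1, Or.inr rfl, hs.comp contDiff_neg, fun u => ?_, fun u => ?_⟩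
    · have h1 : HasDerivAt f (deriv f (-u)) (-u) := (hs.differentiable (by simp) _).hasDerivAt
      have h2 : HasDerivAt (fun u : ℝ => f (-u)) (deriv f (-u) * -1) u :=
        HasDerivAt.comp (h := fun u : ℝ => -u) u h1 (hasDerivAt_neg u)
      have hm' : StrictMono fun u : ℝ => f (-u) := fun x y hxy => hm (neg_lt_neg hxy)
      refine lt_of_le_of_ne (hm'.monotone.deriv_nonneg) ?_
      rw [h2.deriv]
      intro h3
      exact hd (-u) (by linarith)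
    · rw [hfe, neg_one_mul]

theorem exists_strands {κ : ℝ × ℂ × ℝ → SP} (hκ : ThickT ISP κ) {c : ℝ → S3}
    (hc : ∀ l, κ (l, 0, 0) = (c l, 1)) {β : ℂ × ℝ → ℂ × ℝ} (hβ : Emb β)
    (hS : ∀ q, (∃ l, c l = io (β q)) ↔ q ∈ Ss) :
    ∃ (f₁ f₂ : ℝ → ℝ) (ε₁ ε₂ : ℝ), TwoStrands (pb β) (fun l => (c l, 1)) f₁ f₂ ε₁ ε₂ ∧
      (∀ u, c (f₁ u) = io (β (1, ε₁ * u))) ∧ (∀ u, c (f₂ u) = io (β (-1, ε₂ * u))) ∧
      ∀ s, 0 < s → ∀ l, (f₁ s ≤ l ∧ l ≤ f₂ (-s)) ∨ (f₂ s ≤ l ∧ l ≤ f₁ (-s) + 1) →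
        ∀ z u, c l = io (β (z, u)) → s ≤ |u| := by
  have hper : ∀ l, c (l + 1) = c l := by
    intro l
    have h1 := hκ.perl l 0 0
    rw [hc, hc] at h1
    exact (Prod.ext_iff.1 h1).1
  have hinj : ∀ l l', c l = c l' → ∃ m : ℤ, l' = l + m := by
    intro l l' h
    have h1 : κ (l, 0, 0) = κ (l', 0, 0) := by rw [hc, hc, h]
    exact (hκ.inj l 0 0 l' 0 0 (by simp) (by simp) h1).2.1
  have hperz : ∀ (m : ℤ) l, c (l + m) = c l := by
    intro m l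
    have hp : Function.Periodic c 1 := hper
    have := hp.int_mul m l
    rwa [mul_one] at this
  obtain ⟨f₁, ε₁, hε₁, hs₁, hd₁, he₁⟩ := StrM_one (z := 1) hκ hc hper hinj hβ
    (fun u => (hS _).2 (Or.inl rfl))
  obtain ⟨f, ε₂, hε₂, hs, hd, he⟩ := StrM_one (z := -1) hκ hc hper hinj hβ
    (fun u => (hS _).2 (Or.inr rfl))
  -- never an integer
  have hne : ∀ u u' (m : ℤ), f u' - f₁ u ≠ m := by
    intro u u' m h
    have h1 : c (f u') = c (f₁ u) := by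
      rw [← hperz m (f₁ u)]
      congr 1
      linarith
    rw [he, he₁] at h1
    have h2 := (Prod.ext_iff.1 (hβ.inj (io_inj h1))).1
    simp only at h2
    have h3 := congrArg Complex.re h2
    simp at h3
    linarith
  set m₀ : ℤ := ⌊f 0 - f₁ 0⌋ with hm₀
  set f₂ : ℝ → ℝ := fun u => f u - m₀ with hf₂
  have hs₂ : ContDiff ℝ ∞ f₂ := hs.sub contDiff_const
  have hd₂ : ∀ u, 0 < deriv f₂ u := by
    intro u
    have : HasDerivAt f₂ (deriv f u) u := ((hs.differentiable (by simp) u).hasDerivAt).sub_const _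
    rw [this.deriv]
    exact hd u
  have he₂ : ∀ u, c (f₂ u) = io (β (-1, ε₂ * u)) := by
    intro u
    rw [← he, ← hperz (-m₀) (f u)]
    congr 1
    simp [hf₂, sub_eq_add_neg]
  have hne₂ : ∀ u u' (m : ℤ), f₂ u' - f₁ u ≠ m := by
    intro u u' m h
    refine hne u u' (m + m₀) ?_
    push_cast
    simp only [hf₂] at h
    linarith
  have h0 : 0 ≤ f₂ 0 - f₁ 0 := by
    have := Int.floor_le (f 0 - f₁ 0)
    simp only [hf₂]
    linarith
  have h1 : f₂ 0 - f₁ 0 ≤ 1 := by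
    have := (Int.lt_floor_add_one (f 0 - f₁ 0)).le
    simp only [hf₂]
    linarith
  have hcF : Continuous fun p : ℝ × ℝ => f₂ p.2 - f₁ p.1 :=
    (hs₂.continuous.comp continuous_snd).sub (hs₁.continuous.comp continuous_fst)
  have hlow : ∀ u u', 0 < f₂ u' - f₁ u := by
    intro u u'
    by_contra hcon
    obtain ⟨p, hp⟩ := mem_range_of_exists_le_of_exists_ge hcF ⟨(u, u'), not_lt.1 hcon⟩
      ⟨((0, 0) : ℝ × ℝ), h0⟩
    exact hne₂ p.1 p.2 0 (by rw [Int.cast_zero]; exact hp)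
  have hupp : ∀ u u', f₂ u' - f₁ u < 1 := by
    intro u u'
    by_contra hcon
    obtain ⟨p, hp⟩ := mem_range_of_exists_le_of_exists_ge hcF ⟨((0, 0) : ℝ × ℝ), h1⟩
      ⟨(u, u'), not_lt.1 hcon⟩
    exact hne₂ p.1 p.2 1 (by rw [Int.cast_one]; exact hp)
  have hm₁ : StrictMono f₁ := strictMono_of_deriv_pos hd₁
  have hm₂ : StrictMono f₂ := strictMono_of_deriv_pos hd₂
  have hsq₁ : ε₁ * ε₁ = 1 := by rcases hε₁ with h | h <;> rw [h] <;> norm_num
  have hsq₂ : ε₂ * ε₂ = 1 := by rcases hε₂ with h | h <;> rw [h] <;> norm_num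
  have habs₁ : ∀ u, |ε₁ * u| = |u| := by
    intro u
    rcases hε₁ with h | h <;> rw [h] <;> simp
  have habs₂ : ∀ u, |ε₂ * u| = |u| := by
    intro u
    rcases hε₂ with h | h <;> rw [h] <;> simp
  have hoff : ∀ s, 0 < s → ∀ l, (f₁ s ≤ l ∧ l ≤ f₂ (-s)) ∨ (f₂ s ≤ l ∧ l ≤ f₁ (-s) + 1) →
        ∀ z u, c l = io (β (z, u)) → s ≤ |u| := by
    intro s hs0 l hl z u hlu
    by_contra hcon
    rw [not_le] at hcon
    have a1 := hlow (-s) (-s)
    have a2 := hupp (-s) (-s)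
    have a3 := hlow s s
    have a4 := hupp s s
    have a5 := hlow s (-s)
    have a6 := hupp (-s) s
    rcases (hS (z, u)).1 ⟨l, hlu⟩ with hz | hz
    · have hz : z = 1 := hz
      subst hz
      have h2 : c (f₁ (ε₁ * u)) = c l := by
        rw [he₁, ← mul_assoc, hsq₁, one_mul, hlu]
      obtain ⟨m, hm⟩ := hinj _ _ h2
      have h3 := abs_lt.1 ((habs₁ u).trans_lt hcon)
      have h4 := hm₁ h3.1
      have h5 := hm₁ h3.2
      have h6 : (0 : ℝ) < m ∧ (m : ℝ) < 1 := by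
        rcases hl with ⟨hl1, hl2⟩ | ⟨hl1, hl2⟩
        · constructor <;> linarith
        · constructor <;> linarith
      have h7 : (0 : ℤ) < m := by exact_mod_cast h6.1
      have h8 : m < (1 : ℤ) := by exact_mod_cast h6.2
      omega
    · have hz : z = -1 := hz
      subst hz
      have h2 : c (f₂ (ε₂ * u)) = c l := by
        rw [he₂, ← mul_assoc, hsq₂, one_mul, hlu]
      obtain ⟨m, hm⟩ := hinj _ _ h2
      have h3 := abs_lt.1 ((habs₂ u).trans_lt hcon)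
      have h4 := hm₂ h3.1
      have h5 := hm₂ h3.2
      rcases hl with ⟨hl1, hl2⟩ | ⟨hl1, hl2⟩
      · have h6 : (-1 : ℝ) < m ∧ (m : ℝ) < 0 := by constructor <;> linarith
        have h7 : (-1 : ℤ) < m := by exact_mod_cast h6.1
        have h8 : m < (0 : ℤ) := by exact_mod_cast h6.2
        omega
      · have h6 : (0 : ℝ) < m ∧ (m : ℝ) < 1 := by constructor <;> linarith
        have h7 : (0 : ℤ) < m := by exact_mod_cast h6.1
        have h8 : m < (1 : ℤ) := by exact_mod_cast h6.2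
        omega
  refine ⟨f₁, f₂, ε₁, ε₂, ?_, he₁, he₂, hoff⟩
  refine ⟨hs₁, hs₂, hd₁, hd₂, hε₁, hε₂, ?_, ?_, ?_, ?_, ?_⟩
  · linarith [hlow 1 (-1)]
  · linarith [hupp (-1) 1]
  · intro u _
    show ((c (f₁ u), 1) : SP) = (io (β (1, ε₁ * u)), circ 0)
    rw [he₁, circ_zero]
  · intro u _
    show ((c (f₂ u), 1) : SP) = (io (β (-1, ε₂ * u)), circ 0)
    rw [he₂, circ_zero]
  · intro l hl z s t _ hs' h
    have h1 : c l = io (β (z, s)) := (Prod.ext_iff.1 h).1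
    have := hoff 1 one_pos l hl z s h1
    linarith

end Pool.Agent.KNH
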