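import Pool.Agent.KNH.BxM

/-!
# KNH/UlM: thin tubes   (difficulty 3)

(1) Uniform local injectivity.  There is `ρ > 0` such that for `l ∈ [0, 1]`, `q, q' ∈ Q = {‖z‖ ≤ 4, |u| ≤ 1/2}`, `‖q - q'‖ < ρ` (sup norm),
`β l q = β l q'` we have `q = q'`.  Proof: at every `(l₀, q₀)`, `l₀ ∈ [0, 1]`, the map `(l, q) ↦ (l, β l q)` is `C¹` at `(l₀, q₀)` with bijective
derivative (`imm`, same dimension), so it is injective near `(l₀, q₀)` (`ContDiffAt.hasStrictFDerivAt`, `HasStrictFDerivAt.toOpenPartialHomeomorph`,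
or `approximatesLinearOn`); so the set of `(l, (q, q'))` such that [`β l q = β l q'` implies `q = q'`] is a neighbourhood of every point
`(l₀, (q₀, q₀))`; `[0, 1] × {(q, q) | q ∈ Q}` is compact: Lebesgue number (or: sequences `ρ = 1/n` and compactness).
(2) Choose `w₀ = min 1 (ρ / 16)`, `δ = min (1/1024) (ρ / 32)`.  Let `β l (thn w₀ q) = β l (thn w₀ q')`, `|q.2 - q'.2| ≤ 16 δ ≤ 1/64`,
`‖q.1‖, ‖q'.1‖ ≤ 4`.  (`(thn w₀ q).2 = q.2`.)  If `|q.2| ≥ 1/8` and `|q'.2| ≥ 1/8`: `β l = β 0` at both points (`ends`), `inj0`, `thn_inj`.  If one of them is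
`< 1/8`, say `|q.2| < 1/8` : then `|q'.2| < 1/8 + 1/64`.  PROBLEM: `wf w₀ q'.2` is only `w₀` for `|q'.2| ≤ 1/8`; but it is continuous and
`wf w₀ u ≤ w₀ + stp (1/64) (1/16) (u²)`, so: take `δ` so small (depending on `ρ`) that `stp (1/64) (1/16) (u²) ≤ ρ / 16` for
`|u| ≤ 1/8 + 16 δ` (continuity of `u ↦ stp (1/64) (1/16) (u²)` at `1/8` and `-1/8`, value `0`, even function).  Then `wf ≤ ρ / 8` at both points, so
`‖thn w₀ q - thn w₀ q'‖ ≤ max (8 ρ / 8 ..)`: choose the constants so that it is `< ρ` (e.g. `w₀ ≤ ρ / 32`, `stp ≤ ρ / 32`: the first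
components have norm `≤ 4 ρ / 16 = ρ / 4`, their distance is `≤ ρ / 2`), and (1) applies: `thn w₀ q = thn w₀ q'`, `thn_inj`.
-/

open scoped Manifold ContDiff Topology
open Set Filter
open Complex (I)
open Pool.Agent.CSG (stp)
open Pool.Agent.RSG (E4 S3 S4 ex cj pS3)
open Pool.Agent.RBM (ThickT TwinP OnT Box Bundle frc)
open Pool.Agent.PTH (SP ISP Act Carries)
open Pool.Agent.COR (Equi EquiB TwoStrands half)
open Pool.Agent.KNT (Dom BalC Tubes Str)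
open Pool.Agent.CLG (io pol)

namespace Pool.Agent.KNH

/-- local injectivity from the inverse function theorem -/
theorem UlM_loc {E : Type*} [NormedAddCommGroup E] [NormedSpace ℝ E] [FiniteDimensional ℝ E]
    {f : E → E} {x : E} (hf : ContDiffAt ℝ 1 f x) (hd : Function.Injective (fderiv ℝ f x)) :
    ∃ u : Set E, IsOpen u ∧ x ∈ u ∧ InjOn f u := by
  have : CompleteSpace E := FiniteDimensional.complete ℝ E
  let e : E ≃L[ℝ] E :=
    (LinearEquiv.ofInjectiveEndo (fderiv ℝ f x : E →ₗ[ℝ] E) hd).toContinuousLinearEquiv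
  have he : (e : E →L[ℝ] E) = fderiv ℝ f x := by
    ext v
    rfl
  have h1 : HasStrictFDerivAt f (e : E →L[ℝ] E) x := by
    rw [he]
    exact hf.hasStrictFDerivAt (by simp)
  exact ⟨(h1.toOpenPartialHomeomorph f).source, (h1.toOpenPartialHomeomorph f).open_source,
    h1.mem_toOpenPartialHomeomorph_source, (h1.toOpenPartialHomeomorph f).injOn⟩

theorem UlM_param {B : ℝ × (ℂ × ℝ) → ℂ × ℝ} {p : ℝ × (ℂ × ℝ)} (hB : DifferentiableAt ℝ B p)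
    (hi : Function.Injective (fderiv ℝ (fun q => B (p.1, q)) p.2)) :
    Function.Injective (fderiv ℝ (fun q : ℝ × (ℂ × ℝ) => ((q.1, B q) : ℝ × (ℂ × ℝ))) p) := by
  have h1 : HasFDerivAt (fun q : ℝ × (ℂ × ℝ) => ((q.1, B q) : ℝ × (ℂ × ℝ)))
      ((ContinuousLinearMap.fst ℝ ℝ (ℂ × ℝ)).prod (fderiv ℝ B p)) p :=
    hasFDerivAt_fst.prodMk hB.hasFDerivAt
  have h2 : HasFDerivAt (fun q : ℂ × ℝ => B (p.1, q))
      ((fderiv ℝ B p).comp (ContinuousLinearMap.inr ℝ ℝ (ℂ × ℝ))) p.2 := by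
    have h3 : HasFDerivAt B (fderiv ℝ B p) (p.1, p.2) := hB.hasFDerivAt
    exact h3.comp p.2 (hasFDerivAt_prodMk_right p.1 p.2)
  rw [h2.fderiv] at hi
  rw [h1.fderiv, injective_iff_map_eq_zero]
  rintro ⟨a, v⟩ h
  have h4 : a = 0 := congrArg Prod.fst h
  have h5 : fderiv ℝ B p (a, v) = 0 := congrArg Prod.snd h
  subst h4
  have h6 : ((fderiv ℝ B p).comp (ContinuousLinearMap.inr ℝ ℝ (ℂ × ℝ))) v = 0 := h5
  have h7 : v = 0 := hi (h6.trans (map_zero _).symm)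
  rw [h7]
  rfl

/-- uniform local injectivity -/
theorem UlM_unif {β : ℝ → ℂ × ℝ → ℂ × ℝ} {Y : Set (ℂ × ℝ)} (h : Fam β Y) :
    ∃ ρ : ℝ, 0 < ρ ∧ ∀ l ∈ Icc (0 : ℝ) 1, ∀ q q' : ℂ × ℝ, ‖q.1‖ ≤ 4 → |q.2| ≤ 1 / 2 →
      dist q q' < ρ → β l q = β l q' → q = q' := by
  have hK : IsCompact (Icc (0 : ℝ) 1 ×ˢ (Metric.closedBall (0 : ℂ) 4 ×ˢ Icc (-(1 / 2) : ℝ) (1 / 2))) :=
    isCompact_Icc.prod ((isCompact_closedBall 0 4).prod isCompact_Icc)
  have hloc : ∀ p : ℝ × (ℂ × ℝ), ∃ u : Set (ℝ × (ℂ × ℝ)), IsOpen u ∧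
      (p.1 ∈ Icc (0 : ℝ) 1 → p ∈ u) ∧
      InjOn (fun q : ℝ × (ℂ × ℝ) => ((q.1, β q.1 q.2) : ℝ × (ℂ × ℝ))) u := by
    intro p
    by_cases hp : p.1 ∈ Icc (0 : ℝ) 1
    · have h1 : ContDiffAt ℝ ∞ (fun p : ℝ × (ℂ × ℝ) => β p.1 p.2) p := h.smooth p.1 hp p.2
      obtain ⟨u, hu1, hu2, hu3⟩ := UlM_loc
        (f := fun q : ℝ × (ℂ × ℝ) => ((q.1, β q.1 q.2) : ℝ × (ℂ × ℝ))) (x := p)
        (contDiffAt_fst.prodMk (h1.of_le (by simp)))
        (UlM_param (h1.differentiableAt (by simp)) (h.imm p.1 hp p.2))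
      exact ⟨u, hu1, fun _ => hu2, hu3⟩
    · exact ⟨∅, isOpen_empty, fun h0 => absurd h0 hp, injOn_empty _⟩
  choose u hu1 hu2 hu3 using hloc
  obtain ⟨ρ, hρ, hρ'⟩ := lebesgue_number_lemma_of_metric hK hu1
    (fun p hp => mem_iUnion.2 ⟨p, hu2 p hp.1⟩)
  refine ⟨ρ, hρ, fun l hl q q' hq1 hq2 hd he => ?_⟩
  obtain ⟨i, hi⟩ := hρ' (l, q) ⟨hl, ⟨by simpa using hq1, abs_le.1 hq2⟩⟩
  have h1 : (l, q) ∈ u i := hi (Metric.mem_ball_self hρ)
  have h2 : (l, q') ∈ u i := by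
    apply hi
    rw [Metric.mem_ball, dist_comm, Prod.dist_eq, dist_self]
    exact max_lt hρ hd
  have h3 := hu3 i h1 h2 (by simp only [he])
  exact congrArg Prod.snd h3

theorem UlM_s {ε : ℝ} (hε : 0 < ε) : ∃ η : ℝ, 0 < η ∧ ∀ u : ℝ, |u| < 1 / 8 + η →
    stp (1 / 64) (1 / 16) (u ^ 2) < ε := by
  have hc : ContinuousAt (fun t : ℝ => stp (1 / 64) (1 / 16) (t ^ 2)) (1 / 8) :=
    ((CSG.stp_smooth _ _).continuous.comp (continuous_pow 2)).continuousAt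
  have h0 : stp (1 / 64) (1 / 16) ((1 / 8 : ℝ) ^ 2) = 0 :=
    CSG.stp_zero (by norm_num) (by norm_num)
  have h1 : ∀ᶠ t in 𝓝 (1 / 8 : ℝ), stp (1 / 64) (1 / 16) (t ^ 2) < ε := by
    apply hc.eventually_lt continuousAt_const
    rw [h0]
    exact hε
  obtain ⟨η, hη, hη'⟩ := Metric.eventually_nhds_iff.1 h1
  refine ⟨η, hη, fun u hu => ?_⟩
  by_cases h2 : |u| ≤ 1 / 8
  · rw [CSG.stp_zero (by norm_num)]
    · exact hε
    · rw [← sq_abs]
      have := abs_nonneg u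
      nlinarith
  · rw [← sq_abs]
    apply hη'
    rw [Real.dist_eq, abs_lt]
    constructor <;> linarith

theorem UlM_thn {w₀ : ℝ} (h0 : 0 < w₀) (h1 : w₀ ≤ 1) {q q' : ℂ × ℝ} (h : thn w₀ q = thn w₀ q') :
    q = q' := thn_inj h0 h1 h

theorem exists_thin {β : ℝ → ℂ × ℝ → ℂ × ℝ} {Y : Set (ℂ × ℝ)} (h : Fam β Y) :
    ∃ w₀ δ : ℝ, ThinOK β w₀ δ := by
  obtain ⟨ρ, hρ, H⟩ := UlM_unif h
  obtain ⟨η, hη, hη'⟩ := UlM_s (ε := ρ / 32) (by positivity)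
  have hw0 : 0 < min 1 (ρ / 32) := by positivity
  have hw1 : min 1 (ρ / 32) ≤ 1 := min_le_left _ _
  have hw2 : min 1 (ρ / 32) ≤ ρ / 32 := min_le_right _ _
  generalize min 1 (ρ / 32) = w₀ at hw0 hw1 hw2
  have hd0 : 0 < min (1 / 1024) (min (η / 32) (ρ / 32)) := by positivity
  have hd1 : min (1 / 1024) (min (η / 32) (ρ / 32)) ≤ 1 / 1024 := min_le_left _ _
  have hd2 : min (1 / 1024) (min (η / 32) (ρ / 32)) ≤ η / 32 :=
    (min_le_right _ _).trans (min_le_left _ _)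
  have hd3 : min (1 / 1024) (min (η / 32) (ρ / 32)) ≤ ρ / 32 :=
    (min_le_right _ _).trans (min_le_right _ _)
  generalize min (1 / 1024) (min (η / 32) (ρ / 32)) = δ at hd0 hd1 hd2 hd3
  have key : ∀ l ∈ Icc (0 : ℝ) 1, ∀ q q' : ℂ × ℝ, ‖q.1‖ ≤ 4 → ‖q'.1‖ ≤ 4 → |q.2 - q'.2| ≤ 16 * δ →
      |q.2| < 1 / 8 → β l (thn w₀ q) = β l (thn w₀ q') → q = q' := by
    intro l hl q q' hq hq' hd hq2 he
    have hq2' : |q'.2| ≤ 1 / 8 + 16 * δ := by
      have h1 := abs_sub_abs_le_abs_sub q'.2 q.2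
      rw [abs_sub_comm] at h1
      linarith
    have hbd : ∀ p : ℂ × ℝ, ‖p.1‖ ≤ 4 → |p.2| ≤ 1 / 8 + 16 * δ → ‖(thn w₀ p).1‖ ≤ ρ / 4 := by
      intro p hp hp2
      have h1 := hη' p.2 (by linarith)
      have h2 := CSG.stp_nonneg (1 / 64) (1 / 16) (p.2 ^ 2)
      have h3 : wf w₀ p.2 ≤ ρ / 16 := by
        unfold wf
        nlinarith
      have h4 := wf_pos hw0 hw1 p.2
      change ‖((wf w₀ p.2 : ℝ) : ℂ) * p.1‖ ≤ _
      rw [norm_mul, Complex.norm_real, Real.norm_eq_abs, abs_of_pos h4]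
      have h5 := norm_nonneg p.1
      calc wf w₀ p.2 * ‖p.1‖ ≤ (ρ / 16) * 4 := mul_le_mul h3 hp h5 (by positivity)
        _ = ρ / 4 := by ring
    have b1 := hbd q hq (by linarith)
    have b2 := hbd q' hq' hq2'
    refine UlM_thn hw0 hw1 (H l hl _ _ ?_ ?_ ?_ he)
    · change ‖((wf w₀ q.2 : ℝ) : ℂ) * q.1‖ ≤ 4
      have h4 := wf_pos hw0 hw1 q.2
      rw [norm_mul, Complex.norm_real, Real.norm_eq_abs, abs_of_pos h4]
      have h5 := wf_le hw1 q.2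
      have h6 := norm_nonneg q.1
      nlinarith
    · change |q.2| ≤ 1 / 2
      linarith
    · rw [Prod.dist_eq]
      apply max_lt
      · rw [dist_eq_norm]
        have := norm_sub_le (thn w₀ q).1 (thn w₀ q').1
        linarith
      · change dist q.2 q'.2 < ρ
        rw [Real.dist_eq]
        linarith
  refine ⟨w₀, δ, hw0, hw1, hd0, by linarith, ?_⟩
  intro l hl q q' hq hq' hd he
  by_cases h1 : |q.2| < 1 / 8
  · exact key l hl q q' hq hq' hd h1 he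
  · by_cases h2 : |q'.2| < 1 / 8
    · exact (key l hl q' q hq' hq (by rwa [abs_sub_comm]) h2 he.symm).symm
    · have h3 := h.ends l hl (thn w₀ q) (not_lt.1 h1)
      have h4 := h.ends l hl (thn w₀ q') (not_lt.1 h2)
      rw [h3, h4] at he
      exact UlM_thn hw0 hw1 (h.inj0 he)

end Pool.Agent.KNH
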