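import Pool.Agent.KNH.HolM
import Pool.Agent.KNH.HomM
import Pool.Agent.KNH.CorM
import Pool.Agent.KNH.MpM
import Pool.Agent.KNH.StrM
import Pool.Agent.KNH.UlM
import Pool.Agent.KNH.QDef
import Pool.Agent.COR.Bnd

/-!
# KNH/RibSQ: the ribbon homotopy in the thin box (assembly)
-/

open scoped Manifold ContDiff Topology
open Set Filter
open Complex (I)
open Pool.Agent.CSG (stp)
open Pool.Agent.RSG (E4 S3 S4 ex cj pS3)
open Pool.Agent.RBM (ThickT TwinP OnT Box Bundle frc)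
open Pool.Agent.PTH (SP ISP Act Carries)
open Pool.Agent.COR (Equi EquiB TwoStrands half)
open Pool.Agent.KNT (Dom BalC Tubes Str)
open Pool.Agent.CLG (io pol)

namespace Pool.Agent.KNH

universe u

theorem rib_stepQ {Q : (ℝ × ℂ × ℝ → SP) → Prop} (hQ : Mono.{u} Q) {β : ℝ → ℂ × ℝ → ℂ × ℝ}
    {Y : Set (ℂ × ℝ)} (h : Fam β Y) {w₀ δ : ℝ} (hw : ThinOK β w₀ δ)
    (hX : IsQ Q (Y ∪ (fun q => β 0 (thn w₀ q)) '' Ss)) : IsQ Q (Y ∪ (fun q => β 1 (thn w₀ q)) '' Ss) := by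
  obtain ⟨c, hc, κ₀, hT₀, heq₀, hcore₀, hD₀⟩ := hX
  have i0 : (0 : ℝ) ∈ Icc (0 : ℝ) 1 := ⟨le_rfl, zero_le_one⟩
  have i1 : (1 : ℝ) ∈ Icc (0 : ℝ) 1 := ⟨zero_le_one, le_rfl⟩
  have hB₀ : Emb (fun q => β 0 (thn w₀ q)) := thn_emb (fam_emb0 h) hw.w_pos hw.w_le
  have hB₁ : Emb (fun q => β 1 (thn w₀ q)) := thn_emb (fam_emb1 h) hw.w_pos hw.w_le
  have hS : ∀ q, (∃ l, c l = io (β 0 (thn w₀ q))) ↔ q ∈ Ss := by
    intro q
    constructor
    · rintro ⟨l, hl⟩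
      have h1 : c l ∈ Hat (Y ∪ (fun q => β 0 (thn w₀ q)) '' Ss) := hc ▸ mem_range_self l
      rw [hl] at h1
      rcases h1 with h1 | ⟨y, hy, hy'⟩
      · exact absurd h1 (io_ne_pol _)
      · have h2 := io_inj hy'
        rcases hy with hy | ⟨q', hq', hq2⟩
        · rw [h2] at hy
          exact absurd hy (h.dis 0 i0 _)
        · have h3 : q' = q := hB₀.inj (by rw [← h2]; exact hq2)
          rwa [h3] at hq'
    · intro hq
      have h1 : io (β 0 (thn w₀ q)) ∈ Hat (Y ∪ (fun q => β 0 (thn w₀ q)) '' Ss) :=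
        Or.inr ⟨_, Or.inr ⟨q, hq, rfl⟩, rfl⟩
      rw [← hc] at h1
      exact h1
  obtain ⟨f₁, f₂, ε₁, ε₂, hts, hs1, hs2, hoff⟩ := exists_strands hT₀ hcore₀ hB₀ hS
  have hcc : Continuous c := by
    have h1 : Continuous fun l : ℝ => κ₀ (l, 0, 0) := by
      rw [continuous_iff_continuousAt]
      intro l
      have h2 := (hT₀.loc l 0 0 (by simp)).contMDiffAt.continuousAt
      have h3 : ContinuousAt (fun l : ℝ => ((l, 0, 0) : ℝ × ℂ × ℝ)) l := by fun_prop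
      exact ContinuousAt.comp (f := fun l : ℝ => ((l, 0, 0) : ℝ × ℂ × ℝ)) (g := κ₀) h2 h3
    have h2 : c = fun l => (κ₀ (l, 0, 0)).1 := by
      funext l
      rw [hcore₀]
    rw [h2]
    exact continuous_fst.comp h1
  let R : Set ℝ := Icc (f₁ (1 / 2)) (f₂ (-(1 / 2))) ∪ Icc (f₂ (1 / 2)) (f₁ (-(1 / 2)) + 1)
  have hRc : IsCompact R := isCompact_Icc.union isCompact_Icc
  have hioc : Continuous io := by
    rw [continuous_iff_continuousAt]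
    intro q
    exact (io_ld q).contMDiffAt.continuousAt
  have hoff' : ∀ l ∈ R, ∀ q, c l = io (β 0 (thn w₀ q)) → 1 / 2 ≤ |q.2| := by
    intro l hl q hq
    exact hoff (1 / 2) (by norm_num) l (by
      rcases hl with hl | hl
      · left; exact ⟨hl.1, hl.2⟩
      · right; exact ⟨hl.1, hl.2⟩) q.1 q.2 hq
  -- points of the knot
  have hpt : ∀ l x, c l = io x → x ∈ Y ∨ ∃ q ∈ Ss, β 0 (thn w₀ q) = x := by
    intro l x hx
    have h1 : c l ∈ Hat (Y ∪ (fun q => β 0 (thn w₀ q)) '' Ss) := hc ▸ mem_range_self l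
    rw [hx] at h1
    rcases h1 with h1 | ⟨y, hy, hy'⟩
    · exact absurd h1 (io_ne_pol _)
    · have h2 := io_inj hy'
      rw [h2] at hy
      exact hy
  let T : Set (ℂ × ℝ) := io ⁻¹' (c '' R)
  have hT : IsClosed T := (hRc.image hcc).isClosed.preimage hioc
  have hTd : ∀ l ∈ Icc (0 : ℝ) 1, ∀ q : ℂ × ℝ, |q.2| ≤ 1 / 8 → β l q ∉ T := by
    rintro l hl q hq ⟨l', hl', he⟩
    rcases hpt l' _ he with h1 | ⟨q', hq', h1⟩
    · exact h.dis l hl q h1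
    · have h2 := hoff' l' hl' q' (by rw [he, h1])
      exact h.sep l hl q (thn w₀ q') hq (by show 1 / 4 ≤ |q'.2|; linarith) h1.symm
  obtain ⟨Mp, hMc, hMi, hMT, hMe⟩ := exists_Mp h w₀ hT hTd
  let Fc : Set SP :=
    {p | p.1 ∈ io '' (Mp ∪ (fun q => β 1 (thn w₀ q)) '' {q | ‖q.1‖ ≤ 5 ∧ |q.2| ≤ 1 / 4})}
  have hQc : IsCompact {q : ℂ × ℝ | ‖q.1‖ ≤ 5 ∧ |q.2| ≤ 1 / 4} := by
    have h1 : {q : ℂ × ℝ | ‖q.1‖ ≤ 5 ∧ |q.2| ≤ 1 / 4} = Metric.closedBall (0 : ℂ) 5 ×ˢ Icc (-(1 / 4)) (1 / 4) := by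
      ext q
      simp only [mem_ofPred_eq, mem_prod, Metric.mem_closedBall, dist_zero_right, mem_Icc, abs_le]
    rw [h1]
    exact (isCompact_closedBall _ _).prod isCompact_Icc
  have hFc : IsClosed Fc := by
    have h1 : IsCompact (io '' (Mp ∪ (fun q => β 1 (thn w₀ q)) '' {q | ‖q.1‖ ≤ 5 ∧ |q.2| ≤ 1 / 4})) :=
      (hMc.union (hQc.image hB₁.smooth.continuous)).image hioc
    exact h1.isClosed.preimage continuous_fst
  have hF : ∀ l, (f₁ (1 / 2) ≤ l ∧ l ≤ f₂ (-(1 / 2))) ∨ (f₂ (1 / 2) ≤ l ∧ l ≤ f₁ (-(1 / 2)) + 1) →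
      ∀ t, rot t (c l, 1) ∉ Fc := by
    intro l hl t ht
    have hlR : l ∈ R := by
      rcases hl with hl | hl
      · left; exact ⟨hl.1, hl.2⟩
      · right; exact ⟨hl.1, hl.2⟩
    obtain ⟨x, hx, hx'⟩ := ht
    have hx' : io x = c l := hx'
    rcases hx with hx | ⟨q, ⟨-, hq⟩, hq'⟩
    · exact Set.disjoint_left.1 hMT hx ⟨l, hlR, hx'.symm⟩
    · have hq' : β 1 (thn w₀ q) = x := hq'
      rcases hpt l x hx'.symm with h1 | ⟨q', hq2, h1⟩
      · rw [← hq'] at h1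
        exact h.dis 1 i1 _ h1
      · have h2 := hoff' l hlR q' (by rw [h1, hx'])
        have h3 : β 1 (thn w₀ q') = β 0 (thn w₀ q') :=
          h.ends 1 i1 (thn w₀ q') (by show 1 / 8 ≤ |q'.2|; linarith)
        have h4 : q = q' := hB₁.inj (by
          show β 1 (thn w₀ q) = β 1 (thn w₀ q')
          rw [hq', h3, h1])
        rw [h4] at hq
        linarith
  obtain ⟨κ, φ, σ, hσ, heq, hbun, hφs, hφ1, hφ', hcore, -, -, hrest, hTw⟩ :=
    COR.exists_bundle rot_act hT₀ heq₀ hcore₀ (pb_box hB₀ 5) (pb_equiv _) hts hFc hF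
  obtain ⟨G, hG1, hG2, hG3⟩ := exists_hole h hw hMi hσ
  have hRH := rib_hom h hw hMe hσ hbun (fun l v t hv hl => hrest l v t hv hl) hG1 hG2 hG3
  obtain ⟨heq', c', hc', hcore'⟩ := core_swap h hw hσ hbun heq hφs.continuous hφ1 hcore hc
  refine ⟨c', hc', _, hRH.bun'.thick, heq', hcore', hQ κ₀ _ hT₀ hRH.bun'.thick ?_ hD₀⟩
  intro X _ _ _ n j hD
  exact RBH.rbh hRH n j (hTw X n j hD)

end Pool.Agent.KNH
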