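import Pool.Agent.KNH.Defs

/-!
# KNH/SwM: replacing the box   (difficulty 3)

`swp b b' κ` is `b' a` if `κ q = b a`, `a` in the box (`‖a.1‖ < 4`, `|a.2.1| < 1`), and `κ q` otherwise.  `a` is unique modulo an integer in the
third coordinate, and `b'` is periodic: `swp_box`.  `swp_out`: if `κ q` is not in the box `b`.
`swap_bundle`: `perl, pert`: `κ` has the same value at the two points.  `strand₁, strand₂`: `Bundle.strand` + `swp_box`
(`‖1 + cj ε v / 2‖ ≤ 3/2`, `|16 ε l| < 1`).  `rest`: `Rest l`: `κ (l, v, t)` is not in the box `b` (`h.rest`), so `swp = κ`, and `hrest`.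
`loc` at `(l, v, t)`, `‖v‖ < 1`: if `κ (l, v, t)` is in the box `b`, `κ (l, v, t) = b a`: by `rest` and periodicity `l` is in an open window, near
the point `κ = b (±1 + cj ε v / 2, 16 ε (l - ..), t)` and `swp = b' (..)`, the composition of `b'` with an affine isomorphism (this is
`b' ∘ b⁻¹ ∘ κ` locally).  If `κ (l, v, t)` is not in the box `b`: then `Rest l` (in a window it is in the box); near the point either `Rest l'` and
`swp = κ`, or `l'` is in a window near its end, `|16 ε (l' - 1/4 - k)| ≥ 1/4`, and `swp = b' (..) = b (..) = κ` by `hends`: so `swp = κ` near the point.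
`inj`: `swp q = swp q'`.  Both in the box: `b' a = b' a'`, so `a = a'` modulo integers and `κ q = κ q'`.  Both outside: clear.  `κ q = b a` in the box, `κ q'` not: then
`Rest l'` and `κ q' = b' a` contradicts `hrest`.
-/

open scoped Manifold ContDiff Topology
open Set Filter
open Complex (I)
open Pool.Agent.RSG (E4 S4 ex cj)
open Pool.Agent.RBM (ThickT TwinP OnT Box Bundle)
open Pool.Agent.RBH (Rest)

namespace Pool.Agent.KNH

variable {E : Type*} [NormedAddCommGroup E] [NormedSpace ℝ E] {H : Type*} [TopologicalSpace H]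
  {J : ModelWithCorners ℝ E H}
  {P : Type*} [TopologicalSpace P] [ChartedSpace H P] {κ : ℝ × ℂ × ℝ → P} {b b' : ℂ × ℝ × ℝ → P}
  {ε₁ ε₂ : ℝ}

theorem SwM_per (hb : Box J b 4) (z : ℂ) (s t : ℝ) (m : ℤ) : b (z, s, t + m) = b (z, s, t) := by
  have h : ∀ (n : ℕ) (t : ℝ), b (z, s, t + n) = b (z, s, t) := by
    intro n
    induction n with
    | zero => intro t; simp
    | succ n ih =>
      intro t
      have e : t + ((n + 1 : ℕ) : ℝ) = (t + n) + 1 := by push_cast; ring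
      rw [e, hb.per, ih]
  obtain ⟨n, rfl | rfl⟩ := m.eq_nat_or_neg
  · simpa using h n t
  · have h1 := h n (t + ((-(n : ℤ) : ℤ) : ℝ))
    have e : t + ((-(n : ℤ) : ℤ) : ℝ) + n = t := by push_cast; ring
    rw [e] at h1
    exact h1.symm

theorem swp_box (hb : Box J b 4) (hb' : Box J b' 4) {q : ℝ × ℂ × ℝ} {z : ℂ} {s t : ℝ} (hz : ‖z‖ < 4)
    (hs : |s| < 1) (h : κ q = b (z, s, t)) : swp b b' κ q = b' (z, s, t) := by
  have hex : ∃ a : ℂ × ℝ × ℝ, ‖a.1‖ < 4 ∧ |a.2.1| < 1 ∧ κ q = b a := ⟨(z, s, t), hz, hs, h⟩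
  unfold swp
  rw [dif_pos hex]
  obtain ⟨a1, a2, a3⟩ := hex.choose_spec
  set a := hex.choose
  have e : b (a.1, a.2.1, a.2.2) = b (z, s, t) := by rw [← h, a3]
  obtain ⟨e1, e2, m, e3⟩ := hb.inj _ _ _ _ _ _ a1 a2 hz hs e
  have e4 : a = (z, s, a.2.2) := Prod.ext e1 (Prod.ext e2 rfl)
  rw [e4, e3]
  exact (SwM_per hb' z s a.2.2 m).symm

theorem swp_out {q : ℝ × ℂ × ℝ}
    (h : ∀ (z : ℂ) (s t : ℝ), ‖z‖ < 4 → |s| < 1 → κ q ≠ b (z, s, t)) : swp b b' κ q = κ q := by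
  unfold swp
  rw [dif_neg]
  rintro ⟨a, a1, a2, a3⟩
  exact h a.1 a.2.1 a.2.2 a1 a2 a3

theorem SwM_congr {q q' : ℝ × ℂ × ℝ} (h : κ q = κ q') : swp b b' κ q = swp b b' κ q' := by
  unfold swp
  rw [h]

/-- the parameters in the window with centre `c` -/
structure SwM_Win (κ : ℝ × ℂ × ℝ → P) (b : ℂ × ℝ × ℝ → P) (c : ℝ) (d : ℂ) (ε : ℝ) : Prop where
  sign : ε = 1 ∨ ε = -1
  nd : ‖d‖ = 1
  val : ∀ (l : ℝ) (v : ℂ) (t : ℝ), |l - c| < 1 / 16 → ‖v‖ < 1 →
    κ (l, v, t) = b (d + cj ε v / 2, 16 * ε * (l - c), t)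
  far : ∀ l, Rest l → 1 / 16 ≤ |l - c|

theorem SwM_perl (h : ThickT J κ) (l : ℝ) (v : ℂ) (t : ℝ) (m : ℤ) : κ (l + m, v, t) = κ (l, v, t) := by
  have h0 : ∀ (n : ℕ) (l : ℝ), κ (l + n, v, t) = κ (l, v, t) := by
    intro n
    induction n with
    | zero => intro l; simp
    | succ n ih =>
      intro l
      have e : l + ((n + 1 : ℕ) : ℝ) = (l + n) + 1 := by push_cast; ring
      rw [e, h.perl, ih]
  obtain ⟨n, rfl | rfl⟩ := m.eq_nat_or_neg
  · simpa using h0 n l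
  · have h1 := h0 n (l + ((-(n : ℤ) : ℤ) : ℝ))
    have e : l + ((-(n : ℤ) : ℤ) : ℝ) + n = l := by push_cast; ring
    rw [e] at h1
    exact h1.symm

theorem SwM_win (h : Bundle J κ b ε₁ ε₂) {l : ℝ} (hl : ¬ Rest l) :
    ∃ (c : ℝ) (d : ℂ) (ε : ℝ), SwM_Win κ b c d ε ∧ |l - c| < 1 / 16 := by
  unfold Rest at hl
  push Not at hl
  obtain ⟨k, hk⟩ := hl
  by_cases h1 : 1 / 16 ≤ |l - 1 / 4 - k|
  · have h2 := hk h1
    refine ⟨3 / 4 + k, -1, ε₂, ⟨h.sign₂, by simp, ?_, ?_⟩, by rwa [sub_add_eq_sub_sub]⟩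
    · intro l v t hl hv
      have e1 : κ (l, v, t) = κ (3 / 4 + (l - (3 / 4 + k)), v, t) := by
        rw [← SwM_perl h.thick (3 / 4 + (l - (3 / 4 + k))) v t k]
        congr 2
        ring
      rw [e1, h.strand₂ _ v t hl hv]
    · intro l hl
      rw [sub_add_eq_sub_sub]
      exact (hl k).2
  · refine ⟨1 / 4 + k, 1, ε₁, ⟨h.sign₁, by simp, ?_, ?_⟩, by
      rw [sub_add_eq_sub_sub]; exact not_le.1 h1⟩
    · intro l v t hl hv
      have e1 : κ (l, v, t) = κ (1 / 4 + (l - (1 / 4 + k)), v, t) := by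
        rw [← SwM_perl h.thick (1 / 4 + (l - (1 / 4 + k))) v t k]
        congr 2
        ring
      rw [e1, h.strand₁ _ v t hl hv]
    · intro l hl
      rw [sub_add_eq_sub_sub]
      exact (hl k).1

theorem SwM_bd {d v : ℂ} {ε : ℝ} (hε : ε = 1 ∨ ε = -1) (hd : ‖d‖ = 1) (hv : ‖v‖ < 1) :
    ‖d + cj ε v / 2‖ < 4 := by
  have h1 : ‖cj ε v / 2‖ < 1 / 2 := by
    rw [norm_div, RSG.cj_norm hε]
    norm_num
    linarith
  have := norm_add_le d (cj ε v / 2)
  linarith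

theorem SwM_bd2 {x ε : ℝ} (hε : ε = 1 ∨ ε = -1) : |16 * ε * x| = 16 * |x| := by
  rcases hε with rfl | rfl
  · rw [mul_one, abs_mul]
    norm_num
  · rw [abs_mul]
    norm_num

/-- the affine isomorphism -/
noncomputable def SwM_A (d : ℂ) (ε c : ℝ) (hε : ε = 1 ∨ ε = -1) : (ℝ × ℂ × ℝ) ≃ (ℂ × ℝ × ℝ) where
  toFun q := (d + cj ε q.2.1 / 2, 16 * ε * (q.1 - c), q.2.2)
  invFun q := (c + ε * q.2.1 / 16, cj ε (2 * (q.1 - d)), q.2.2)
  left_inv q := by
    have hε2 : ε * ε = 1 := by rcases hε with rfl | rfl <;> norm_num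
    obtain ⟨l, v, t⟩ := q
    refine Prod.ext ?_ (Prod.ext ?_ rfl)
    · show c + ε * (16 * ε * (l - c)) / 16 = l
      have : ε * (16 * ε * (l - c)) = 16 * (ε * ε) * (l - c) := by ring
      rw [this, hε2]
      ring
    · show cj ε (2 * (d + cj ε v / 2 - d)) = v
      have : 2 * (d + cj ε v / 2 - d) = cj ε v := by ring
      rw [this, RSG.cj_cj hε]
  right_inv q := by
    have hε2 : ε * ε = 1 := by rcases hε with rfl | rfl <;> norm_num
    obtain ⟨z, s, t⟩ := q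
    refine Prod.ext ?_ (Prod.ext ?_ rfl)
    · show d + cj ε (cj ε (2 * (z - d))) / 2 = z
      rw [RSG.cj_cj hε]
      ring
    · show 16 * ε * (c + ε * s / 16 - c) = s
      have : 16 * ε * (c + ε * s / 16 - c) = (ε * ε) * s := by ring
      rw [this, hε2, one_mul]

theorem SwM_ld (d : ℂ) (ε c : ℝ) (hε : ε = 1 ∨ ε = -1) (q : ℝ × ℂ × ℝ) :
    IsLocalDiffeomorphAt 𝓘(ℝ, ℝ × ℂ × ℝ) 𝓘(ℝ, ℂ × ℝ × ℝ) ∞ (SwM_A d ε c hε) q := by
  refine CSG.ld_of_perm ?_ ?_ q
  · show ContDiff ℝ ∞ fun q : ℝ × ℂ × ℝ => (d + cj ε q.2.1 / 2, 16 * ε * (q.1 - c), q.2.2)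
    have h1 : ContDiff ℝ ∞ fun q : ℝ × ℂ × ℝ => cj ε q.2.1 := (RSG.cj_smooth ε).comp (by fun_prop)
    exact (contDiff_const.add (h1.div_const 2)).prodMk
      ((contDiff_const.mul (contDiff_fst.sub contDiff_const)).prodMk (by fun_prop))
  · show ContDiff ℝ ∞ fun q : ℂ × ℝ × ℝ => (c + ε * q.2.1 / 16, cj ε (2 * (q.1 - d)), q.2.2)
    have h1 : ContDiff ℝ ∞ fun q : ℂ × ℝ × ℝ => cj ε (2 * (q.1 - d)) :=
      (RSG.cj_smooth ε).comp (by fun_prop)
    exact ContDiff.prodMk (by fun_prop) (h1.prodMk (by fun_prop))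

theorem swap_bundle (h : Bundle J κ b ε₁ ε₂) (hb' : Box J b' 4)
    (hends : ∀ (z : ℂ) (s t : ℝ), ‖z‖ < 4 → 1 / 4 ≤ |s| → |s| < 1 → b' (z, s, t) = b (z, s, t))
    (hrest : ∀ (l : ℝ) (v : ℂ) (t : ℝ), ‖v‖ < 1 → Rest l → ∀ (z : ℂ) (s t' : ℝ), ‖z‖ < 4 → |s| < 1 →
      κ (l, v, t) ≠ b' (z, s, t')) :
    Bundle J (swp b b' κ) b' ε₁ ε₂ ∧
      ∀ (l : ℝ) (v : ℂ) (t : ℝ), ‖v‖ < 1 → Rest l → swp b b' κ (l, v, t) = κ (l, v, t) := by
  have hR : ∀ (l : ℝ) (v : ℂ) (t : ℝ), ‖v‖ < 1 → Rest l → swp b b' κ (l, v, t) = κ (l, v, t) :=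
    fun l v t hv hl => swp_out fun z s t' hz hs => h.rest l v t hv hl z s t' hz hs
  -- in a window
  have hW : ∀ {c : ℝ} {d : ℂ} {ε : ℝ}, SwM_Win κ b c d ε → ∀ (l : ℝ) (v : ℂ) (t : ℝ), |l - c| < 1 / 16 →
      ‖v‖ < 1 → swp b b' κ (l, v, t) = b' (d + cj ε v / 2, 16 * ε * (l - c), t) := by
    intro c d ε w l v t hl hv
    refine swp_box h.box hb' (SwM_bd w.sign w.nd hv) ?_ (w.val l v t hl hv)
    rw [SwM_bd2 w.sign]
    linarith
  refine ⟨?_, hR⟩
  refine
    { thick := ?_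
      box := hb'
      sign₁ := h.sign₁
      sign₂ := h.sign₂
      strand₁ := ?_
      strand₂ := ?_
      rest := ?_ }
  · refine
      { perl := fun l v t => SwM_congr (h.thick.perl l v t)
        pert := fun l v t => SwM_congr (h.thick.pert l v t)
        loc := ?_
        inj := ?_ }
    · intro l v t hv
      have hv' : ∀ᶠ q : ℝ × ℂ × ℝ in 𝓝 (l, v, t), ‖q.2.1‖ < 1 := by
        have hc : ContinuousAt (fun q : ℝ × ℂ × ℝ => ‖q.2.1‖) (l, v, t) := by fun_prop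
        exact hc.eventually (Iio_mem_nhds hv)
      by_cases hl : Rest l
      · refine CSG.ld_congr (h.thick.loc l v t hv) ?_
        have hl' : ∀ᶠ q : ℝ × ℂ × ℝ in 𝓝 (l, v, t), |q.1 - l| < 1 / 64 := by
          have hc : ContinuousAt (fun q : ℝ × ℂ × ℝ => |q.1 - l|) (l, v, t) := by fun_prop
          refine hc.eventually (Iio_mem_nhds ?_)
          simp
        filter_upwards [hv', hl'] with q hq1 hq2
        obtain ⟨l', v', t'⟩ := q
        simp only at hq1 hq2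
        by_cases hr : Rest l'
        · exact hR l' v' t' hq1 hr
        · obtain ⟨c, d, ε, w, hw⟩ := SwM_win h hr
          rw [hW w l' v' t' hw hq1, w.val l' v' t' hw hq1]
          have h1 := w.far l hl
          have h2 : |l - c| ≤ |l' - l| + |l' - c| := by
            have := abs_sub_le l l' c
            rwa [abs_sub_comm l l'] at this
          refine hends _ _ _ (SwM_bd w.sign w.nd hq1) ?_ ?_
          · rw [SwM_bd2 w.sign]
            linarith
          · rw [SwM_bd2 w.sign]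
            linarith
      · obtain ⟨c, d, ε, w, hw⟩ := SwM_win h hl
        have hev : swp b b' κ =ᶠ[𝓝 (l, v, t)] b' ∘ SwM_A d ε c w.sign := by
          have hl' : ∀ᶠ q : ℝ × ℂ × ℝ in 𝓝 (l, v, t), |q.1 - c| < 1 / 16 := by
            have hc : ContinuousAt (fun q : ℝ × ℂ × ℝ => |q.1 - c|) (l, v, t) := by fun_prop
            exact hc.eventually (Iio_mem_nhds hw)
          filter_upwards [hv', hl'] with q hq1 hq2
          exact hW w q.1 q.2.1 q.2.2 hq2 hq1
        refine CSG.ld_congr ?_ hev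
        refine IsLocalDiffeomorphAt.comp (hf := SwM_ld d ε c w.sign (l, v, t)) (hg := ?_) ..
        refine hb'.loc _ _ _ (SwM_bd w.sign w.nd hv) ?_
        rw [SwM_bd2 w.sign]
        linarith
    · intro l v t l' v' t' hv hv' he
      by_cases hl : Rest l
      · rw [hR l v t hv hl] at he
        by_cases hl' : Rest l'
        · rw [hR l' v' t' hv' hl'] at he
          exact h.thick.inj l v t l' v' t' hv hv' he
        · obtain ⟨c, d, ε, w, hw⟩ := SwM_win h hl'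
          rw [hW w l' v' t' hw hv'] at he
          refine absurd he (hrest l v t hv hl _ _ _ (SwM_bd w.sign w.nd hv') ?_)
          rw [SwM_bd2 w.sign]
          linarith
      · obtain ⟨c, d, ε, w, hw⟩ := SwM_win h hl
        rw [hW w l v t hw hv] at he
        by_cases hl' : Rest l'
        · rw [hR l' v' t' hv' hl'] at he
          refine absurd he.symm (hrest l' v' t' hv' hl' _ _ _ (SwM_bd w.sign w.nd hv) ?_)
          rw [SwM_bd2 w.sign]
          linarith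
        · obtain ⟨c', d', ε', w', hw'⟩ := SwM_win h hl'
          rw [hW w' l' v' t' hw' hv'] at he
          obtain ⟨e1, e2, m, e3⟩ := hb'.inj _ _ _ _ _ _ (SwM_bd w.sign w.nd hv)
            (by rw [SwM_bd2 w.sign]; linarith) (SwM_bd w'.sign w'.nd hv')
            (by rw [SwM_bd2 w'.sign]; linarith) he
          apply h.thick.inj l v t l' v' t' hv hv'
          rw [w.val l v t hw hv, w'.val l' v' t' hw' hv', e1, e2, e3]
          exact (SwM_per h.box _ _ t m).symm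
  · intro l v t hl hv
    refine swp_box h.box hb' (SwM_bd h.sign₁ (by simp) hv) ?_ (h.strand₁ l v t hl hv)
    rw [SwM_bd2 h.sign₁]
    linarith
  · intro l v t hl hv
    refine swp_box h.box hb' (SwM_bd h.sign₂ (by simp) hv) ?_ (h.strand₂ l v t hl hv)
    rw [SwM_bd2 h.sign₂]
    linarith
  · intro l v t hv hl z s t' hz hs
    rw [hR l v t hv hl]
    exact hrest l v t hv hl z s t' hz hs

end Pool.Agent.KNH
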