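import Pool.Agent.KNH.DicM
import Pool.Agent.KNH.IoM
import Pool.Agent.ISO.LiftA
import Pool.Agent.COR.CorB
import Pool.Agent.COR.Rep
import Pool.Agent.COR.Cmp

/-!
# KNH/UnkM: the axis carries only the 4-sphere   (difficulty 3)

`h`: `c, n`, `range c = Hat U = {(0, ex l)}` (`hat_axis`), `Carries ISP rot n (c, 1)`: `κ, j`.  `c (l + 1) = c l`, `c l = c l'` iff `l - l' ∈ ℤ`; `c` is smooth with nonzero derivative
(`κ` is a local diffeomorphism at `(l, 0, 0)`).
(1) There are `g : ℝ → ℝ` smooth and `ε = ±1` with `c l = (0, ex (g l))`, `g (l + 1) = g l + ε`, `ε g' > 0`: the second complex coordinate `B l` of `c l` is smooth, `‖B‖ = 1`; `g` = a lift: `g l = g 0 + ∫₀ˡ B' / (2πi B)` (or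
`Circle` lifting, `AddCircle.isCoveringMap_coe`); `g (l + 1) - g l` is a constant integer `d`; `g l - g l' ∈ ℤ` iff `l - l' ∈ ℤ` (injectivity of `c` modulo 1): so `g` is injective, hence strictly monotone, `g'` does not vanish
(`c' ≠ 0`), `d ≠ 0`; if `|d| ≥ 2` there is `l' ∈ (0, 1)` with `g l' = g 0 ± 1` (intermediate value), contradiction.  `ε = d`.
(2) `φ` = the inverse of `ε g`: smooth, `φ (x + 1) = φ x + 1`, `φ' > 0`; `c (φ x) = (0, ex (ε x))`.  `COR.rep`, `COR.thick_rep`: `κ (φ l, v, t)` is thick, equivariant, carries `X`: `Carries ISP rot n (fun l => (pS3 0 (ex (ε l)), 1)) X`.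
(3) If `ε = -1`: `Γ ((a, b), z) = ((a, conj b), z)` is a diffeomorphism commuting with `rot` (`ISO.carries_map`).  So `Carries ISP rot n (fun l => (pS3 0 (ex l), 1)) X`.
(4) `COR.carries_core` with `κ = prd (std 0)` (`std_thick 0`, `prd_thick`, `prd_equi`; core `std 0 (l, 0) = pS3 0 (ex l)`): `TwinP ISP (prd (std 0)) n j' X`; `dic`; `RSG.final` for `std 0`: `FourMoveTrivial (std 0)`:
`⟨0, .germ 1 ..⟩`.
-/

open scoped Manifold ContDiff Topology
open Set Filter
open Complex (I)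
open Pool.Agent.CSG (stp)
open Pool.Agent.RSG (E4 S3 S4 ex cj pS3)
open Pool.Agent.RBM (ThickT TwinP OnT Box Bundle frc)
open Pool.Agent.PTH (SP ISP Act Carries)
open Pool.Agent.COR (Equi EquiB TwoStrands half)
open Pool.Agent.KNT (Dom BalC Tubes Str)
open Pool.Agent.CLG (io pol)

namespace Pool.Agent.KNH

/-! ## lifting a curve in the unit circle -/

theorem UnkM_ex_deriv {g : ℝ → ℝ} {g' x : ℝ} (h : HasDerivAt g g' x) :
    HasDerivAt (fun x => ex (g x)) (((2 * Real.pi * g' : ℝ) : ℂ) * I * ex (g x)) x := by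
  unfold ex
  have h1 : HasDerivAt (fun x : ℝ => (2 * Real.pi * g x : ℝ)) (2 * Real.pi * g') x :=
    h.const_mul (2 * Real.pi)
  have h2 : HasDerivAt (fun x : ℝ => ((2 * Real.pi * g x : ℝ) : ℂ)) ((2 * Real.pi * g' : ℝ) : ℂ) x :=
    h1.ofReal_comp
  have h3 := (h2.mul_const I).cexp
  refine h3.congr_deriv ?_
  ring

theorem UnkM_lift {B : ℝ → ℂ} (hB : ContDiff ℝ ∞ B) (hn : ∀ l, ‖B l‖ = 1)
    (hper : ∀ l, B (l + 1) = B l) :
    ∃ (g : ℝ → ℝ) (d : ℤ), ContDiff ℝ ∞ g ∧ (∀ l, B l = ex (g l)) ∧ ∀ l, g (l + 1) = g l + d := by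
  have hne : (∞ : WithTop ℕ∞) ≠ 0 := by simp
  obtain ⟨p, hp⟩ : ∃ p : ℝ → ℝ, p = fun l =>
      ((starRingEnd ℂ) (B l) * deriv B l).im / (2 * Real.pi) := ⟨_, rfl⟩
  have hdB : ContDiff ℝ ∞ (deriv B) := hB.deriv'
  have hps : ContDiff ℝ ∞ p := by
    rw [hp]
    have h1 : ContDiff ℝ ∞ fun l => (starRingEnd ℂ) (B l) := Complex.conjCLE.contDiff.comp hB
    exact (Complex.imCLM.contDiff.comp (h1.mul hdB)).div_const _
  obtain ⟨g₁, hg₁, -, hg₁'⟩ := COR.exists_prim hps
  obtain ⟨s₀, hs₀⟩ := RSG.ex_surj (hn 0)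
  obtain ⟨g, hg⟩ : ∃ g : ℝ → ℝ, g = fun l => g₁ l + (s₀ - g₁ 0) := ⟨_, rfl⟩
  have hgs : ContDiff ℝ ∞ g := by rw [hg]; exact hg₁.add contDiff_const
  have hg' : ∀ l, HasDerivAt g (p l) l := by
    intro l
    rw [hg]
    exact (hg₁' l).add_const _
  have hg0 : g 0 = s₀ := by rw [hg]; ring
  have hBd : ∀ l, HasDerivAt B (deriv B l) l := fun l => (hB.differentiable hne l).hasDerivAt
  -- the derivative of `B`
  have key : ∀ l, deriv B l = ((2 * Real.pi * p l : ℝ) : ℂ) * I * B l := by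
    intro l
    have h1 : HasDerivAt (fun l => (B l) * (starRingEnd ℂ) (B l))
        (deriv B l * (starRingEnd ℂ) (B l) + B l * (starRingEnd ℂ) (deriv B l)) l := by
      have h2 : HasDerivAt (fun l => (starRingEnd ℂ) (B l)) ((starRingEnd ℂ) (deriv B l)) l := by
        have := (Complex.conjCLE.toContinuousLinearMap.hasFDerivAt (x := B l)).comp_hasDerivAt l (hBd l)
        exact this
      exact (hBd l).mul h2
    have h3 : (fun l => (B l) * (starRingEnd ℂ) (B l)) = fun _ => (1 : ℂ) := by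
      funext l
      rw [Complex.mul_conj, Complex.normSq_eq_norm_sq, hn]
      simp
    rw [h3] at h1
    have h4 := h1.unique (hasDerivAt_const l (1 : ℂ))
    have h5 : ((starRingEnd ℂ) (B l) * deriv B l).re = 0 := by
      have h6 := congrArg Complex.re h4
      simp only [Complex.add_re, Complex.mul_re, Complex.conj_re, Complex.conj_im,
        Complex.zero_re] at h6 ⊢
      linarith
    have h7 : (starRingEnd ℂ) (B l) * deriv B l = ((2 * Real.pi * p l : ℝ) : ℂ) * I := by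
      apply Complex.ext
      · rw [h5]; simp
      · rw [hp]
        have hpi : Real.pi ≠ 0 := Real.pi_ne_zero
        simp only [Complex.mul_im, Complex.ofReal_re, Complex.I_im, Complex.ofReal_im, Complex.I_re]
        field_simp
        ring
    have h8 : B l * (starRingEnd ℂ) (B l) = 1 := by
      rw [Complex.mul_conj, Complex.normSq_eq_norm_sq, hn]
      simp
    calc deriv B l = (B l * (starRingEnd ℂ) (B l)) * deriv B l := by rw [h8, one_mul]
      _ = B l * ((starRingEnd ℂ) (B l) * deriv B l) := by ring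
      _ = _ := by rw [h7]; ring
  have hW : ∀ l, HasDerivAt (fun l => B l * ex (-g l)) 0 l := by
    intro l
    have h1 := (hBd l).mul (UnkM_ex_deriv (hg' l).neg)
    refine h1.congr_deriv ?_
    rw [key]
    push_cast
    ring
  have hconst : ∀ l, B l * ex (-g l) = 1 := by
    intro l
    have h1 : B l * ex (-g l) = B 0 * ex (-g 0) :=
      is_const_of_deriv_eq_zero (f := fun l => B l * ex (-g l))
        (fun l => (hW l).differentiableAt) (fun l => (hW l).deriv) l 0
    rw [h1, hg0, hs₀, ← RSG.ex_add, add_neg_cancel, RSG.ex_zero]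
  have hBg : ∀ l, B l = ex (g l) := by
    intro l
    have h1 : B l * ex (-g l) * ex (g l) = ex (g l) := by rw [hconst, one_mul]
    rw [mul_assoc, ← RSG.ex_add, neg_add_cancel, RSG.ex_zero, mul_one] at h1
    exact h1
  have hpp : ∀ l, p (l + 1) = p l := by
    intro l
    have h1 : deriv B (l + 1) = deriv B l := by
      have h2 : (fun x => B (x + 1)) = B := funext hper
      have h3 : deriv (fun x => B (x + 1)) l = deriv B (l + 1) := deriv_comp_add_const (f := B) (a := 1) (x := l)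
      rw [h2] at h3
      exact h3.symm
    rw [hp]
    simp only
    rw [h1, hper]
  have hD : ∀ l, HasDerivAt (fun l => g (l + 1) - g l) 0 l := by
    intro l
    have h1 : HasDerivAt (fun l => g (l + 1)) (p (l + 1)) l := (hg' (l + 1)).comp_add_const l 1
    refine (h1.sub (hg' l)).congr_deriv ?_
    rw [hpp, sub_self]
  have hDc : ∀ l, g (l + 1) - g l = g (0 + 1) - g 0 := fun l =>
    is_const_of_deriv_eq_zero (f := fun l => g (l + 1) - g l)
      (fun l => (hD l).differentiableAt) (fun l => (hD l).deriv) l 0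
  have h01 : ex (g 0) = ex (g (0 + 1)) := by rw [← hBg, ← hBg, hper]
  obtain ⟨d, hd⟩ := RSG.ex_eq_iff.1 h01
  refine ⟨g, d, hgs, hBg, fun l => ?_⟩
  have := hDc l
  rw [hd] at this
  linarith

/-! ## the inverse function -/

theorem UnkM_inv {G : ℝ → ℝ} (hG : ContDiff ℝ ∞ G) (hG1 : ∀ l, G (l + 1) = G l + 1)
    (hG' : ∀ l, 0 < deriv G l) :
    ∃ φ : ℝ → ℝ, ContDiff ℝ ∞ φ ∧ (∀ l, φ (l + 1) = φ l + 1) ∧ (∀ l, 0 < deriv φ l) ∧
      ∀ l, G (φ l) = l := by
  have hne : (∞ : WithTop ℕ∞) ≠ 0 := by simp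
  have hmono : StrictMono G := strictMono_of_deriv_pos hG'
  have hint : ∀ (n : ℕ) l, G (l + n) = G l + n := by
    intro n
    induction n with
    | zero => intro l; simp
    | succ n ih => intro l; rw [Nat.cast_succ, ← add_assoc, hG1, ih, add_assoc]
  have hsurj : Function.Surjective G := by
    intro y
    obtain ⟨n, hn⟩ := exists_nat_gt |y - G 0|
    have h1 : G (0 + n) = G 0 + n := hint n 0
    have h2 : G (0 - n) = G 0 - n := by
      have := hint n (0 - n)
      rw [sub_add_cancel] at this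
      linarith
    have h3 := abs_lt.1 hn
    have h4 : y ∈ Icc (G (0 - n)) (G (0 + n)) := by
      rw [h1, h2]
      exact ⟨by linarith, by linarith⟩
    have h5 := intermediate_value_Icc (show (0 : ℝ) - n ≤ 0 + n by
      have : (0 : ℝ) ≤ n := Nat.cast_nonneg n
      linarith) hG.continuous.continuousOn h4
    obtain ⟨x, -, hx⟩ := h5
    exact ⟨x, hx⟩
  obtain ⟨e, he⟩ : ∃ e : ℝ ≃ ℝ, ∀ x, e x = G x :=
    ⟨Equiv.ofBijective G ⟨hmono.injective, hsurj⟩, fun x => rfl⟩
  have heG : (e : ℝ → ℝ) = G := funext he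
  have hes : ContDiff ℝ ∞ e.symm := by
    have h1 := CSG.smooth_symm_of_family (V := ℝ) (W := ℝ) (g := fun _ => e)
      (by
        show ContDiff ℝ ∞ fun q : ℝ × ℝ => e q.1
        rw [heG]
        exact hG.comp contDiff_fst)
      (by
        intro x t v hv
        have h2 : HasFDerivAt (e : ℝ → ℝ) (ContinuousLinearMap.toSpanSingleton ℝ (deriv G x)) x := by
          rw [heG]
          exact (hG.differentiable hne x).hasDerivAt.hasFDerivAt
        rw [h2.fderiv] at hv
        rw [ContinuousLinearMap.toSpanSingleton_apply, smul_eq_mul] at hv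
        rcases mul_eq_zero.1 hv with h3 | h3
        · exact h3
        · exact absurd h3 (hG' x).ne')
      rfl
    have h2 : ContDiff ℝ ∞ fun x : ℝ => ((x, 0) : ℝ × ℝ) := contDiff_id.prodMk contDiff_const
    exact h1.comp h2
  have hGe : ∀ l, G (e.symm l) = l := fun l => by rw [← he, Equiv.apply_symm_apply]
  refine ⟨e.symm, hes, fun l => ?_, fun l => ?_, hGe⟩
  · apply hmono.injective
    rw [hGe, hG1, hGe]
  · have h1 : HasDerivAt e.symm (deriv e.symm l) l := (hes.differentiable hne l).hasDerivAt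
    have h2 : HasDerivAt G (deriv G (e.symm l)) (e.symm l) :=
      (hG.differentiable hne _).hasDerivAt
    have h3 : HasDerivAt (fun l => G (e.symm l)) (deriv G (e.symm l) * deriv e.symm l) l :=
      h2.comp l h1
    have h4 : (fun l => G (e.symm l)) = fun l => l := funext hGe
    rw [h4] at h3
    have h5 := h3.unique (hasDerivAt_id' l)
    have h6 := hG' (e.symm l)
    by_contra hc
    have h7 : deriv G (e.symm l) * deriv e.symm l ≤ 0 :=
      mul_nonpos_of_nonneg_of_nonpos h6.le (not_lt.1 hc)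
    linarith

/-! ## the reflection of the sphere -/

/-- `(a, b) ↦ (a, conj b)` on `E4` -/
noncomputable def UnkM_L : E4 →L[ℝ] E4 :=
  LinearMap.toContinuousLinearMap
    { toFun := fun y => WithLp.toLp 2 ![y 0, y 1, y 2, -(y 3)]
      map_add' := fun x y => by
        ext i
        fin_cases i <;> simp [add_comm]
      map_smul' := fun r x => by
        ext i
        fin_cases i <;> simp }

theorem UnkM_L_apply (y : E4) : UnkM_L y = WithLp.toLp 2 ![y 0, y 1, y 2, -(y 3)] := rfl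

theorem UnkM_L_norm (y : E4) : ‖UnkM_L y‖ = ‖y‖ := by
  rw [UnkM_L_apply, EuclideanSpace.norm_eq, EuclideanSpace.norm_eq]
  congr 1
  simp [Fin.sum_univ_four]

/-- `(a, b) ↦ (a, conj b)` on `S3` -/
noncomputable def UnkM_r (y : S3) : S3 := ⟨UnkM_L y, by
  have := y.2
  rw [mem_sphere_zero_iff_norm] at this ⊢
  rw [UnkM_L_norm, this]⟩

theorem UnkM_r_r (y : S3) : UnkM_r (UnkM_r y) = y := by
  apply Subtype.ext
  show UnkM_L (UnkM_L y) = y
  rw [UnkM_L_apply, UnkM_L_apply]
  ext i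
  fin_cases i <;> simp

theorem UnkM_fact : Fact (Module.finrank ℝ E4 = 3 + 1) := ⟨finrank_euclideanSpace_fin⟩

theorem UnkM_coe_smooth : ContMDiff (𝓡 3) 𝓘(ℝ, E4) ∞ (fun y : S3 => (y : E4)) := by
  have := UnkM_fact
  exact contMDiff_coe_sphere (n := 3)

theorem UnkM_r_smooth : ContMDiff (𝓡 3) (𝓡 3) ∞ UnkM_r := by
  have := UnkM_fact
  have h1 : ContMDiff (𝓡 3) 𝓘(ℝ, E4) ∞ (fun y : S3 => UnkM_L (y : E4)) :=
    UnkM_L.contDiff.contMDiff.comp UnkM_coe_smooth
  exact ContMDiff.codRestrict_sphere (n := 3) h1 (fun y => (UnkM_r y).2)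

theorem UnkM_r_Un (l : ℝ) : UnkM_r (pS3 0 (ex (-l))) = pS3 0 (ex l) := by
  apply Subtype.ext
  show UnkM_L (CLG.Un (-l) : E4) = (CLG.Un l : E4)
  rw [CLG.Un_coe, CLG.Un_coe, UnkM_L_apply]
  have e : 2 * Real.pi * -l = -(2 * Real.pi * l) := by ring
  ext i
  fin_cases i <;> simp [e]

/-- the reflection as a diffeomorphism -/
noncomputable def UnkM_d : S3 ≃ₘ⟮𝓡 3, 𝓡 3⟯ S3 where
  toFun := UnkM_r
  invFun := UnkM_r
  left_inv := UnkM_r_r
  right_inv := UnkM_r_r
  contMDiff_toFun := UnkM_r_smooth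
  contMDiff_invFun := UnkM_r_smooth

noncomputable def UnkM_D : SP ≃ₘ⟮ISP, ISP⟯ SP :=
  UnkM_d.prodCongr (Diffeomorph.refl (𝓡 1) Circle ∞)

/-! ## the standard unknot -/

theorem UnkM_std {X : Type*} [TopologicalSpace X] [ChartedSpace E4 X] [T2Space X] {n : ℤ}
    (h : Carries ISP rot n (fun l => (pS3 0 (ex l), 1)) X) : Nonempty (X ≃ₘ⟮𝓡 4, 𝓡 4⟯ S4) := by
  obtain ⟨j, hj⟩ := COR.carries_core rot_act h (κ := prd (RSG.std 0)) (prd_thick (RSG.std_thick 0))
    (prd_equi _) (by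
      intro l
      show ((RSG.std 0 (l, 0), circ 0) : SP) = (pS3 0 (ex l), 1)
      rw [circ_zero]
      unfold RSG.std
      simp)
  have ht : RSG.FourMoveTrivial (RSG.std 0) :=
    ⟨0, .germ 1 one_pos (RSG.std_thick 0) (RSG.std_thick 0) (fun _ _ _ => rfl)⟩
  exact (RSG.final.{0, _, 0}.2 (RSG.std 0) ht n j).2.1 X (dic.1 hj)

theorem isX_axis {X : Type*} [TopologicalSpace X] [ChartedSpace E4 X] [T2Space X] (h : IsX KNT.U X) :
    Nonempty (X ≃ₘ⟮𝓡 4, 𝓡 4⟯ S4) := by
  have hne : (∞ : WithTop ℕ∞) ≠ 0 := by simp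
  obtain ⟨c, n, hrange, κ, j, hT, he, hk, ⟨D⟩⟩ := h
  rw [hat_axis] at hrange
  simp only at hk
  have hc1 : ∀ l, c (l + 1) = c l := by
    intro l
    have h1 := hT.perl l 0 0
    rw [hk, hk] at h1
    exact (Prod.ext_iff.1 h1).1
  have hcinj : ∀ l l', c l = c l' → ∃ m : ℤ, l' = l + m := by
    intro l l' h1
    have h2 : κ (l, 0, 0) = κ (l', 0, 0) := by rw [hk, hk, h1]
    exact (hT.inj l 0 0 l' 0 0 (by simp) (by simp) h2).2.1
  -- smoothness of the second coordinate
  have hcs : ContMDiff 𝓘(ℝ, ℝ) (𝓡 3) ∞ c := by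
    intro l
    have h1 : ContMDiffAt 𝓘(ℝ, ℝ × ℂ × ℝ) ISP ∞ κ (l, 0, 0) :=
      (hT.loc l 0 0 (by simp)).contMDiffAt
    have h2 : ContMDiffAt 𝓘(ℝ, ℝ) 𝓘(ℝ, ℝ × ℂ × ℝ) ∞ (fun l : ℝ => ((l, 0, 0) : ℝ × ℂ × ℝ)) l :=
      (contDiff_id.prodMk contDiff_const).contMDiff.contMDiffAt
    have h3 : ContMDiffAt 𝓘(ℝ, ℝ) ISP ∞ (fun l : ℝ => κ (l, 0, 0)) l := h1.comp l h2
    have h4 : (fun l : ℝ => κ (l, 0, 0)) = fun l => ((c l, 1) : SP) := funext hk
    rw [h4] at h3
    exact h3.fst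
  obtain ⟨B, hB⟩ : ∃ B : ℝ → ℂ, B = fun l =>
      (((c l : E4) 2 : ℝ) : ℂ) + (((c l : E4) 3 : ℝ) : ℂ) * I := ⟨_, rfl⟩
  have hBs : ContDiff ℝ ∞ B := by
    have h1 : ContDiff ℝ ∞ (fun l => (c l : E4)) :=
      (UnkM_coe_smooth.comp hcs).contDiff
    have h2 : ContDiff ℝ ∞ (fun l => (c l : E4) 2) := by fun_prop
    have h3 : ContDiff ℝ ∞ (fun l => (c l : E4) 3) := by fun_prop
    rw [hB]
    exact (Complex.ofRealCLM.contDiff.comp h2).add
      ((Complex.ofRealCLM.contDiff.comp h3).mul contDiff_const)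
  have hcB : ∀ l, ∃ s, c l = CLG.Un s ∧ B l = ex s := by
    intro l
    have h1 : c l ∈ range fun l : ℝ => pS3 0 (ex l) := hrange ▸ mem_range_self l
    obtain ⟨s, hs⟩ := h1
    have hs' : c l = CLG.Un s := hs.symm
    refine ⟨s, hs', ?_⟩
    rw [hB]
    simp only
    rw [hs', CLG.Un_coe]
    apply Complex.ext
    · rw [RSG.ex_re]
      show (((Real.cos (2 * Real.pi * s) : ℝ) : ℂ) +
        ((Real.sin (2 * Real.pi * s) : ℝ) : ℂ) * I).re = _
      simp only [Complex.add_re, Complex.mul_re, Complex.ofReal_re, Complex.ofReal_im,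
        Complex.I_re, Complex.I_im]
      ring
    · rw [RSG.ex_im]
      show (((Real.cos (2 * Real.pi * s) : ℝ) : ℂ) +
        ((Real.sin (2 * Real.pi * s) : ℝ) : ℂ) * I).im = _
      simp only [Complex.add_im, Complex.mul_im, Complex.ofReal_re, Complex.ofReal_im,
        Complex.I_re, Complex.I_im]
      ring
  have hBn : ∀ l, ‖B l‖ = 1 := by
    intro l
    obtain ⟨s, -, hs⟩ := hcB l
    rw [hs, RSG.ex_norm]
  have hBper : ∀ l, B (l + 1) = B l := by
    intro l
    rw [hB]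
    simp only [hc1]
  obtain ⟨g, d, hgs, hg, hgd⟩ := UnkM_lift hBs hBn hBper
  have hcg : ∀ l, c l = pS3 0 (ex (g l)) := by
    intro l
    obtain ⟨s, hs1, hs2⟩ := hcB l
    rw [hs1, ← hg, hs2]
    rfl
  have hginj : ∀ l l', (∃ m : ℤ, g l' = g l + m) → ∃ m : ℤ, l' = l + m := by
    intro l l' h1
    apply hcinj
    rw [hcg, hcg, RSG.ex_eq_iff.2 h1]
  -- the derivative does not vanish
  have hg0 : ∀ l, deriv g l ≠ 0 := by
    intro l₀ h0
    have hloc := hT.loc l₀ 0 0 (by simp)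
    have hinv := hloc.localInverse_contMDiffAt
    have hleft : ∀ᶠ q in 𝓝 ((l₀, 0, 0) : ℝ × ℂ × ℝ), hloc.localInverse (κ q) = q :=
      hloc.localInverse_eventuallyEq_left
    have hF : ContMDiffAt 𝓘(ℝ, ℝ) 𝓘(ℝ, ℝ × ℂ × ℝ) ∞
        (fun s : ℝ => hloc.localInverse ((CLG.Un s, 1) : SP)) (g l₀) := by
      have h1 : ContMDiffAt 𝓘(ℝ, ℝ) ISP ∞ (fun s : ℝ => ((CLG.Un s, 1) : SP)) (g l₀) :=
        (CLG.Un_emb.smooth.contMDiffAt).prodMk contMDiffAt_const
      have h2 : ((CLG.Un (g l₀), 1) : SP) = κ (l₀, 0, 0) := by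
        rw [hk, hcg]
        rfl
      have h3 : ContMDiffAt ISP 𝓘(ℝ, ℝ × ℂ × ℝ) ∞ hloc.localInverse ((CLG.Un (g l₀), 1) : SP) := by
        rw [h2]
        exact hinv
      exact ContMDiffAt.comp (g l₀) h3 h1
    have hF1 : DifferentiableAt ℝ (fun s : ℝ => hloc.localInverse ((CLG.Un s, 1) : SP)) (g l₀) :=
      hF.contDiffAt.differentiableAt hne
    have hF2 : DifferentiableAt ℝ
        (fun s : ℝ => (hloc.localInverse ((CLG.Un s, 1) : SP)).1) (g l₀) := hF1.fst
    have h4 : HasDerivAt g 0 l₀ := by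
      have := (hgs.differentiable hne l₀).hasDerivAt
      rw [h0] at this
      exact this
    have h5 : HasDerivAt (fun l : ℝ => (hloc.localInverse ((CLG.Un (g l), 1) : SP)).1)
        (deriv (fun s : ℝ => (hloc.localInverse ((CLG.Un s, 1) : SP)).1) (g l₀) * 0) l₀ :=
      hF2.hasDerivAt.comp l₀ h4
    have h6 : (fun l : ℝ => (hloc.localInverse ((CLG.Un (g l), 1) : SP)).1) =ᶠ[𝓝 l₀] fun l => l := by
      have h7 : ContinuousAt (fun l : ℝ => ((l, 0, 0) : ℝ × ℂ × ℝ)) l₀ := by fun_prop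
      have h8 := h7.eventually hleft
      filter_upwards [h8] with l hl
      have h9 : ((CLG.Un (g l), 1) : SP) = κ (l, 0, 0) := by
        rw [hk, hcg]
        rfl
      rw [h9, hl]
    have h7 := (h6.hasDerivAt_iff).1 h5
    have h8 := h7.unique (hasDerivAt_id' l₀)
    rw [mul_zero] at h8
    exact zero_ne_one h8
  have hgc : Continuous (deriv g) := hgs.continuous_deriv (by simp)
  obtain ⟨ε, hε, hεg⟩ : ∃ ε : ℝ, (ε = 1 ∨ ε = -1) ∧ ∀ l, 0 < ε * deriv g l := by
    rcases lt_or_gt_of_ne (hg0 0) with h1 | h1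
    · refine ⟨-1, Or.inr rfl, fun l => ?_⟩
      by_contra hcon
      have h2 : 0 ≤ deriv g l := by linarith
      have h3 : (0 : ℝ) ∈ deriv g '' univ := by
        apply isPreconnected_univ.intermediate_value (mem_univ 0) (mem_univ l) hgc.continuousOn
        exact ⟨h1.le, h2⟩
      obtain ⟨x, -, hx⟩ := h3
      exact hg0 x hx
    · refine ⟨1, Or.inl rfl, fun l => ?_⟩
      by_contra hcon
      have h2 : deriv g l ≤ 0 := by linarith
      have h3 : (0 : ℝ) ∈ deriv g '' univ := by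
        apply isPreconnected_univ.intermediate_value (mem_univ l) (mem_univ 0) hgc.continuousOn
        exact ⟨h2, h1.le⟩
      obtain ⟨x, -, hx⟩ := h3
      exact hg0 x hx
  have hεε : ε * ε = 1 := by rcases hε with rfl | rfl <;> norm_num
  obtain ⟨G, hG⟩ : ∃ G : ℝ → ℝ, G = fun l => ε * g l := ⟨_, rfl⟩
  have hGs : ContDiff ℝ ∞ G := by rw [hG]; exact contDiff_const.mul hgs
  have hG' : ∀ l, 0 < deriv G l := by
    intro l
    rw [hG]
    have : deriv (fun l => ε * g l) l = ε * deriv g l :=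
      ((hgs.differentiable hne l).hasDerivAt.const_mul ε).deriv
    rw [this]
    exact hεg l
  have hGmono : StrictMono G := strictMono_of_deriv_pos hG'
  have hGd : ∀ l, G (l + 1) = G l + ε * d := by
    intro l
    rw [hG]
    simp only [hgd]
    ring
  have hd1 : ε * (d : ℝ) = 1 := by
    have hpos : 0 < ε * (d : ℝ) := by
      have h1 := hGmono (show (0 : ℝ) < 0 + 1 by norm_num)
      rw [hGd] at h1
      linarith
    -- the integer `|d|`
    obtain ⟨e, he'⟩ : ∃ e : ℤ, ε * (d : ℝ) = e := by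
      rcases hε with rfl | rfl
      · exact ⟨d, by ring⟩
      · exact ⟨-d, by push_cast; ring⟩
    rw [he'] at hpos ⊢
    have he1 : 1 ≤ e := by
      have : (0 : ℤ) < e := by exact_mod_cast hpos
      omega
    by_contra hcon
    have he2 : 2 ≤ e := by
      have : e ≠ 1 := fun h => hcon (by rw [h]; norm_num)
      omega
    have he2' : (2 : ℝ) ≤ e := by exact_mod_cast he2
    have h1 : G 0 + 1 ∈ Icc (G 0) (G (0 + 1)) := by
      rw [hGd, he']
      exact ⟨by linarith, by linarith⟩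
    obtain ⟨x, hx, hx'⟩ := intermediate_value_Icc (show (0 : ℝ) ≤ 0 + 1 by norm_num)
      hGs.continuous.continuousOn h1
    have h2 : ∃ m : ℤ, g x = g 0 + m := by
      rw [hG] at hx'
      simp only at hx'
      have h3 : g x = g 0 + ε := by
        have h4 : ε * (ε * g x) = ε * (ε * g 0 + 1) := by rw [hx']
        have h5 : ε * (ε * g x) = (ε * ε) * g x := by ring
        have h6 : ε * (ε * g 0 + 1) = (ε * ε) * g 0 + ε := by ring
        rw [h5, h6, hεε] at h4
        linarith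
      rcases hε with rfl | rfl
      · exact ⟨1, by rw [h3]; norm_num⟩
      · exact ⟨-1, by rw [h3]; norm_num⟩
    obtain ⟨m, hm⟩ := hginj 0 x h2
    rw [zero_add] at hm hx
    rw [hm] at hx hx'
    have hm0 : m ≠ 0 := by
      rintro rfl
      rw [Int.cast_zero] at hx'
      linarith
    have hm1 : m ≠ 1 := by
      rintro rfl
      have h3 := hGd 0
      rw [zero_add, he'] at h3
      rw [Int.cast_one, h3] at hx'
      linarith
    have h3 : (0 : ℤ) ≤ m := by exact_mod_cast hx.1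
    have h4 : m ≤ (1 : ℤ) := by exact_mod_cast hx.2
    omega
  have hG1 : ∀ l, G (l + 1) = G l + 1 := by
    intro l
    rw [hGd, hd1]
  obtain ⟨φ, hφ, hφ1, hφ', hGφ⟩ := UnkM_inv hGs hG1 hG'
  have hgφ : ∀ l, g (φ l) = ε * l := by
    intro l
    have h1 := hGφ l
    rw [hG] at h1
    simp only at h1
    have h2 : ε * (ε * g (φ l)) = ε * l := by rw [h1]
    have h3 : ε * (ε * g (φ l)) = (ε * ε) * g (φ l) := by ring
    rw [h3, hεε, one_mul] at h2
    exact h2
  have hcar : Carries ISP rot n (fun l => (pS3 0 (ex (ε * l)), 1)) X := by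
    refine ⟨fun q => κ (φ q.1, q.2), j, COR.thick_rep hT hφ hφ1 hφ', ?_, ?_,
      COR.rep hT hφ hφ1 hφ' D⟩
    · intro l v t
      exact he (φ l) v t
    · intro l
      show κ (φ l, 0, 0) = _
      rw [hk, hcg, hgφ]
  rcases hε with rfl | rfl
  · refine UnkM_std (n := n) ?_
    simpa only [one_mul] using hcar
  · have h1 := (ISO.carries_map (IP := ISP) (a := rot) (n := n) (X := X) UnkM_D.toEquiv
      (fun p => UnkM_D.isLocalDiffeomorph p) (by
        rintro t ⟨y, z⟩
        rfl)).1 hcar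
    refine UnkM_std (n := n) ?_
    have h2 : (fun l : ℝ => UnkM_D.toEquiv ((pS3 0 (ex (-1 * l)), 1) : SP)) =
        fun l => ((pS3 0 (ex l), 1) : SP) := by
      funext l
      rw [neg_one_mul]
      show ((UnkM_r (pS3 0 (ex (-l))), 1) : SP) = _
      rw [UnkM_r_Un]
    rw [h2] at h1
    exact h1

end Pool.Agent.KNH
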