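import Pool.Agent.KNH.RibMQ
import Pool.Agent.KNH.LonM
import Pool.Agent.KNH.UnkM
import Pool.Agent.KNH.RepC
import Pool.Agent.KNT.Main3

/-!
# KNH/TopQ: all knots (assembly)

`gluck_unique`: every `X` with `IsRollGluck κ n j X` is the 4-sphere.
`gluck_exists`: `IsRollGluck κ n j S4`.
-/

open scoped Manifold ContDiff Topology
open Set Filter
open Complex (I)
open Pool.Agent.RSG (E4 S3 S4 S2 ex cj pS3)
open Pool.Agent.RBM (ThickT TwinP OnT)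
open Pool.Agent.PTH (SP ISP Act Carries)
open Pool.Agent.COR (Equi)
open Pool.Agent.KNT (Dom BalC Tubes Str LEq)
open Pool.Agent.CLG (io pol)

namespace Pool.Agent.KNH

universe u v

theorem isQ_LEq {Q : (ℝ × ℂ × ℝ → SP) → Prop} (hQ : Mono.{u} Q)
    {K K' : Set (ℂ × ℝ)} (h : LEq K K') : IsQ Q K ↔ IsQ Q K' := by
  induction h with
  | refl K => exact Iff.rfl
  | symm _ ih => exact ih.symm
  | trans _ _ ih1 ih2 => exact ih1.trans ih2
  | diff K hF => exact isQ_diff_iff hQ hF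
  | four hb hZ => exact isQ_four hQ hb hZ
  | rib hb hZ => exact isQ_rib_iff hQ hb hZ

theorem thick_diffeo {κ : ℝ × ℂ → S3} (h : RSG.Thick κ) (Φ : S3 ≃ₘ⟮𝓡 3, 𝓡 3⟯ S3) : RSG.Thick (Φ ∘ κ) := by
  refine ⟨fun l v => ?_, fun l v hv => ?_, fun l v l' v' hv hv' he => ?_⟩
  · show Φ (κ (l + 1, v)) = Φ (κ (l, v))
    rw [h.per]
  · exact IsLocalDiffeomorphAt.comp (hf := h.loc l v hv) (hg := Φ.isLocalDiffeomorph _) ..
  · exact h.inj l v l' v' hv hv' (Φ.injective he)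

/-- a thick knot of `S3` is, after a diffeomorphism, the closure of a long knot -/
theorem to_long {κ : ℝ × ℂ → S3} (h : RSG.Thick κ) : ∃ (Φ : S3 ≃ₘ⟮𝓡 3, 𝓡 3⟯ S3) (K : Set (ℂ × ℝ)),
    KNT.LongK K ∧ range (fun l => Φ (κ (l, 0))) = Hat K := by
  obtain ⟨Φ, T, k, hT, hk, hΦ⟩ := CLG.A0 (embS_of_thick h)
  refine ⟨Φ, range k, ⟨k, hk.smooth, hk.inj, hk.imm, ⟨T, hk.line⟩, rfl⟩, ?_⟩
  rw [← range_LC]
  congr 1
  funext l
  exact hΦ l

theorem prd_core {κ : ℝ × ℂ → S3} (l : ℝ) : prd κ (l, 0, 0) = (κ (l, 0), 1) := by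
  show ((κ (l, 0), circ 0) : SP) = _
  rw [circ_zero]

/-- the 4-sphere is carried by the axis -/
theorem isQS_axis : IsQ QS KNT.U := by
  refine ⟨fun l => RSG.std 0 (l, 0), ?_, prd (RSG.std 0), prd_thick (RSG.std_thick 0), prd_equi _,
    fun l => prd_core l, fun n j => dic.2 (RSG.base_unknot 0 n j)⟩
  rw [hat_axis]
  congr 1
  funext l
  unfold RSG.std
  simp

/-- **Uniqueness.** -/
theorem gluck_unique {κ : ℝ × ℂ → S3} (h : RSG.Thick κ) {n j : ℤ} {X : Type u}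
    [TopologicalSpace X] [ChartedSpace E4 X] [T2Space X] (hX : RSG.IsRollGluck κ n j X) :
    Nonempty (X ≃ₘ⟮𝓡 4, 𝓡 4⟯ S4) := by
  obtain ⟨Φ, K, hK, hr⟩ := to_long h
  obtain ⟨D⟩ := hX
  have h1 : IsQ (QX X) K := ⟨fun l => Φ (κ (l, 0)), hr, prd (Φ ∘ κ), prd_thick (thick_diffeo h Φ), prd_equi _,
    fun l => prd_core l, n, j, dic.2 (RSG.diffeo_data D Φ)⟩
  obtain ⟨c, hc, κ', hT, he, hk, n', j', hD⟩ :=
    (isQ_LEq (mono_QX X) (KNT.long_trivial hK)).1 h1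
  exact isX_axis ⟨c, n', hc, κ', j', hT, he, hk, hD⟩

/-- **Existence.** -/
theorem gluck_exists {κ : ℝ × ℂ → S3} (h : RSG.Thick κ) (n j : ℤ) :
    RSG.IsRollGluck κ n j S4 := by
  obtain ⟨Φ, K, hK, hr⟩ := to_long h
  obtain ⟨c, hc, κ', hT, he, hk, hQ⟩ :=
    (isQ_LEq mono_QS (KNT.long_trivial hK)).2 isQS_axis
  have h1 : QS (prd (Φ ∘ κ)) :=
    QS_image hT he (prd_thick (thick_diffeo h Φ)) (prd_equi _) (c' := fun l => Φ (κ (l, 0))) hk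
      (fun l => prd_core l) (hc.trans hr.symm) hQ
  obtain ⟨D⟩ := dic.1 (h1 n j)
  have h2 := RSG.diffeo_data D Φ.symm
  have e : (Φ.symm : S3 → S3) ∘ (Φ ∘ κ) = κ := by
    funext q
    simp
  rw [e] at h2
  exact h2

/-- **All knots.** -/
theorem gluck_all {κ : ℝ × ℂ → S3} (h : RSG.Thick κ) (n j : ℤ) :
    RSG.IsRollGluck κ n j S4 ∧
    (∀ (X : Type u) [TopologicalSpace X] [ChartedSpace E4 X] [T2Space X],
      RSG.IsRollGluck κ n j X → Nonempty (X ≃ₘ⟮𝓡 4, 𝓡 4⟯ S4)) ∧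
    ∀ (Y : Type v) [TopologicalSpace Y] [ChartedSpace E4 Y] (D : RSG.RollSpin κ n j Y)
      (X : Type u) [TopologicalSpace X] [ChartedSpace E4 X] [T2Space X]
      (_ : RSG.GluckTwist D.tube X), Nonempty (X ≃ₘ⟮𝓡 4, 𝓡 4⟯ S4) := by
  refine ⟨gluck_exists h n j, fun X _ _ _ hX => gluck_unique h hX, ?_⟩
  intro Y _ _ D X _ _ _ G
  exact gluck_unique h (RSG.gluck_spin D G)

end Pool.Agent.KNH
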